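import Pool.Agent.KNO.Defs

set_option autoImplicit false

/-! KNO-Dph: the strength `Qf` and the degree growth of a phase. -/

namespace Pool.Agent.KNO

theorem Qf_spec (N₁ w : ℕ) (hN₁ : 1 ≤ N₁) (hw : 1 ≤ w) :
    w < Qf N₁ w ^ N₁ ∧ 2 ≤ Qf N₁ w ∧ Qf N₁ w ≤ w + 1 ∧ (Qf N₁ w - 1) ^ N₁ ≤ w := by
  unfold Qf
  have h0 : (0 : ℕ) ^ N₁ ≤ w := by
    rw [zero_pow (by omega)]
    exact Nat.zero_le w
  have hg : (Nat.findGreatest (fun q => q ^ N₁ ≤ w) w) ^ N₁ ≤ w :=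
    Nat.findGreatest_spec (P := fun q => q ^ N₁ ≤ w) (Nat.zero_le w) h0
  have hle : Nat.findGreatest (fun q => q ^ N₁ ≤ w) w ≤ w := Nat.findGreatest_le w
  have h1 : 1 ≤ Nat.findGreatest (fun q => q ^ N₁ ≤ w) w := by
    apply Nat.le_findGreatest hw
    rw [one_pow]
    exact hw
  refine ⟨?_, by omega, by omega, ?_⟩
  · by_cases h2 : Nat.findGreatest (fun q => q ^ N₁ ≤ w) w + 1 ≤ w
    · have h3 := Nat.findGreatest_is_greatest (P := fun q => q ^ N₁ ≤ w) (Nat.lt_succ_self _) h2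
      exact not_le.1 h3
    · have h4 : Nat.findGreatest (fun q => q ^ N₁ ≤ w) w = w := by omega
      rw [h4]
      exact Nat.lt_of_lt_of_le (Nat.lt_succ_self w) (Nat.le_self_pow (by omega) (w + 1))
  · rw [Nat.add_sub_cancel]
    exact hg

private theorem Dph_dgq (K ν : ℕ) (hK : 1 ≤ K) : dgq K ν ≤ (K * (ν + 5)) ^ 4 := by
  unfold dgq bp
  rw [← pow_mul]
  refine Nat.pow_le_pow_left ?_ 4
  nlinarith

/-- number of points and degree growth: constants depend only on `N₁`, `ν` -/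
theorem dph_le (N₁ ν w : ℕ) (hN₁ : 1 ≤ N₁) (hw : 1 ≤ w) :
    dph N₁ ν w ≤ (2 * (ν + 5)) ^ (4 * N₁ + 4) * (w + 1) ^ 8 := by
  obtain ⟨-, h2, -, h4⟩ := Qf_spec N₁ w hN₁ hw
  unfold dph
  generalize Qf N₁ w = Q at h2 h4
  have hQ : Q ^ N₁ ≤ 2 ^ N₁ * w := by
    calc Q ^ N₁ ≤ (2 * (Q - 1)) ^ N₁ := Nat.pow_le_pow_left (by omega) N₁
      _ = 2 ^ N₁ * (Q - 1) ^ N₁ := mul_pow _ _ _
      _ ≤ 2 ^ N₁ * w := Nat.mul_le_mul_left _ h4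
  have h5 : dgq Q ν ^ N₁ ≤ (2 * (ν + 5)) ^ (4 * N₁) * (w + 1) ^ 4 := by
    calc dgq Q ν ^ N₁ ≤ ((Q * (ν + 5)) ^ 4) ^ N₁ := Nat.pow_le_pow_left (Dph_dgq Q ν (by omega)) N₁
      _ = (Q ^ N₁) ^ 4 * (ν + 5) ^ (4 * N₁) := by
        rw [← pow_mul, mul_pow, ← pow_mul, mul_comm N₁ 4]
      _ ≤ (2 ^ N₁ * w) ^ 4 * (ν + 5) ^ (4 * N₁) :=
        Nat.mul_le_mul_right _ (Nat.pow_le_pow_left hQ 4)
      _ = (2 * (ν + 5)) ^ (4 * N₁) * w ^ 4 := by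
        rw [mul_pow, mul_pow, ← pow_mul, mul_comm N₁ 4]
        ring
      _ ≤ (2 * (ν + 5)) ^ (4 * N₁) * (w + 1) ^ 4 :=
        Nat.mul_le_mul_left _ (Nat.pow_le_pow_left (Nat.le_succ w) 4)
  have h6 : dgq (w + 1) ν ≤ (2 * (ν + 5)) ^ 4 * (w + 1) ^ 4 := by
    calc dgq (w + 1) ν ≤ ((w + 1) * (ν + 5)) ^ 4 := Dph_dgq (w + 1) ν (by omega)
      _ = (ν + 5) ^ 4 * (w + 1) ^ 4 := by ring
      _ ≤ (2 * (ν + 5)) ^ 4 * (w + 1) ^ 4 :=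
        Nat.mul_le_mul_right _ (Nat.pow_le_pow_left (by omega) 4)
  calc dgq Q ν ^ N₁ * dgq (w + 1) ν ≤
      ((2 * (ν + 5)) ^ (4 * N₁) * (w + 1) ^ 4) * ((2 * (ν + 5)) ^ 4 * (w + 1) ^ 4) :=
        Nat.mul_le_mul h5 h6
    _ = (2 * (ν + 5)) ^ (4 * N₁ + 4) * (w + 1) ^ 8 := by
      rw [pow_add (2 * (ν + 5)) (4 * N₁) 4]
      ring

end Pool.Agent.KNO
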