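import Pool.Agent.KNO.Cat
import Pool.Agent.KNO.Dph

set_option autoImplicit false

/-! KNO-Abs: lengths and coordinates of the points. -/

namespace Pool.Agent.KNO

/-- rows of `m` units have length `m` -/
theorem core_len (N₁ ν w P m D : ℕ) : ∀ l ∈ core N₁ ν w P m D, l.length = m := by
  induction P generalizing m D with
  | zero =>
    intro l hl
    cases m with
    | zero =>
      simp only [core, List.mem_singleton] at hl
      subst hl
      rfl
    | succ m => simp [core] at hl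
  | succ P ih =>
    intro l hl
    cases m with
    | zero =>
      simp only [core, List.mem_singleton] at hl
      subst hl
      rfl
    | succ m =>
      simp only [core, List.mem_flatMap, List.mem_map] at hl
      obtain ⟨t, -, e, -, gs, hgs, z, hz, rfl⟩ := hl
      have h1 := ih _ _ z hz
      have h2 := (grps_spec N₁ m gs hgs).1
      rw [length_shf, length_evs _ _ _ h1, h2]

private theorem abs_one (z : ℤ) (B : ℕ) (hz : |z| ≤ 2 ^ B) (p : ℕ) (hp : 1 ≤ p) :
    |z ^ p - 1| ≤ 2 ^ ((B + 1) * p) := by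
  have h1 : |z ^ p| ≤ 2 ^ (B * p) := by
    rw [abs_pow, pow_mul]
    exact pow_le_pow_left₀ (abs_nonneg z) hz p
  have h2 : |z ^ p - 1| ≤ |z ^ p| + 1 := by
    have := abs_sub (z ^ p) 1
    simpa using this
  have h3 : (1 : ℤ) ≤ 2 ^ (B * p) := one_le_pow₀ (by norm_num)
  have h4 : (2 : ℤ) ^ (B * p) + 2 ^ (B * p) = 2 ^ (B * p + 1) := by ring
  have h5 : (2 : ℤ) ^ (B * p + 1) ≤ 2 ^ ((B + 1) * p) := by
    apply pow_le_pow_right₀ (by norm_num)
    rw [Nat.add_mul]
    omega
  linarith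

private theorem abs_prod (z : ℤ) (B : ℕ) (hz : |z| ≤ 2 ^ B) (s : Finset ℕ)
    (hs : ∀ p ∈ s, 1 ≤ p) : |∏ p ∈ s, (z ^ p - 1)| ≤ 2 ^ ((B + 1) * ∑ p ∈ s, p) := by
  rw [Finset.abs_prod, Finset.mul_sum, ← Finset.prod_pow_eq_pow_sum]
  apply Finset.prod_le_prod
  · intro i _
    exact abs_nonneg _
  · intro i hi
    exact abs_one z B hz i (hs i hi)

private theorem abs_qp (K ν : ℕ) (z : ℤ) (B : ℕ) (hz : |z| ≤ 2 ^ B) :
    |qp K ν z| ≤ 2 ^ ((B + 1) * dgq K ν) ∧ |z * qp K ν z| ≤ 2 ^ ((B + 1) * dgq K ν) := by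
  have hs : ∀ p ∈ prs K ν, 1 ≤ p := by
    intro p hp
    unfold prs at hp
    rw [Finset.mem_filter] at hp
    exact hp.2.2.one_lt.le
  have h1 := abs_prod z B hz (prs K ν) hs
  have h2 := sum_prs K ν
  have h3 : (B + 1) * (1 + ∑ p ∈ prs K ν, p) ≤ (B + 1) * dgq K ν := Nat.mul_le_mul_left _ h2
  have h4 : |qp K ν z| ≤ 2 ^ ((B + 1) * ∑ p ∈ prs K ν, p) := h1
  refine ⟨h4.trans ?_, ?_⟩
  · apply pow_le_pow_right₀ (by norm_num)
    nlinarith
  · rw [abs_mul]
    calc |z| * |qp K ν z| ≤ 2 ^ B * 2 ^ ((B + 1) * ∑ p ∈ prs K ν, p) :=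
          mul_le_mul hz h4 (abs_nonneg _) (by positivity)
      _ = 2 ^ (B + (B + 1) * ∑ p ∈ prs K ν, p) := by rw [pow_add]
      _ ≤ 2 ^ ((B + 1) * dgq K ν) := by
          apply pow_le_pow_right₀ (by norm_num)
          nlinarith

private def gro (Q w ν : ℕ) (g : List Bool) : ℕ :=
  (2 * dgq Q ν) ^ g.count false * (2 * dgq (w + 1) ν) ^ g.count true

private theorem gro_nil (Q w ν : ℕ) : gro Q w ν [] = 1 := by
  simp [gro]

private theorem gro_cons (Q w ν : ℕ) (b : Bool) (g : List Bool) :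
    gro Q w ν (b :: g) = 2 * dgq (if b then w + 1 else Q) ν * gro Q w ν g := by
  cases b
  · simp only [gro, List.count_cons_self, List.count_cons_of_ne (by decide : (false : Bool) ≠ true)]
    simp only [Bool.false_eq_true, if_false]
    ring
  · simp only [gro, List.count_cons_self, List.count_cons_of_ne (by decide : (true : Bool) ≠ false)]
    simp only [if_true]
    ring

private theorem dgq_ge (K ν : ℕ) : 2 ≤ dgq K ν := by
  have h1 : 2 ≤ bp K ν := by
    unfold bp
    nlinarith [Nat.zero_le (K * (ν + 1))]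
  unfold dgq
  nlinarith

private theorem gro_pos (Q w ν : ℕ) (g : List Bool) : 1 ≤ gro Q w ν g := by
  have h1 := dgq_ge Q ν
  have h2 := dgq_ge (w + 1) ν
  exact Nat.mul_pos (pow_pos (by omega) _) (pow_pos (by omega) _)

private theorem abs_cat (Q w ν : ℕ) (g : List Bool) (z : ℤ) (B : ℕ) (hz : |z| ≤ 2 ^ B) :
    ∀ x ∈ cat (qb Q w ν) g z, |x| ≤ 2 ^ ((B + 1) * gro Q w ν g) := by
  induction g generalizing z B with
  | nil =>
    intro x hx
    simp only [cat, List.mem_singleton] at hx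
    subst hx
    rw [gro_nil, mul_one]
    exact hz.trans (pow_le_pow_right₀ (by norm_num) (by omega))
  | cons b g ih =>
    intro x hx
    obtain ⟨h1, h2⟩ := abs_qp (if b then w + 1 else Q) ν z B hz
    have h1' : |qb Q w ν b z| ≤ 2 ^ ((B + 1) * dgq (if b then w + 1 else Q) ν) := h1
    have h2' : |z * qb Q w ν b z| ≤ 2 ^ ((B + 1) * dgq (if b then w + 1 else Q) ν) := h2
    have hd := dgq_ge (if b then w + 1 else Q) ν
    have hg := gro_pos Q w ν g
    rw [gro_cons]
    generalize dgq (if b then w + 1 else Q) ν = d at *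
    generalize gro Q w ν g = G at *
    simp only [cat, List.mem_append, List.mem_singleton] at hx
    rcases hx with hx | rfl
    · refine (ih _ _ h1' x hx).trans (pow_le_pow_right₀ (by norm_num) ?_)
      have h3 : (B + 1) * d + 1 ≤ (B + 1) * (2 * d) := by nlinarith
      calc ((B + 1) * d + 1) * G ≤ ((B + 1) * (2 * d)) * G := Nat.mul_le_mul_right _ h3
        _ = (B + 1) * (2 * d * G) := by ring
    · refine h2'.trans (pow_le_pow_right₀ (by norm_num) ?_)
      have h3 : d ≤ 2 * d * G := by nlinarith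
      exact Nat.mul_le_mul_left _ h3

private theorem dph_ge (N₁ ν w : ℕ) : 2 ^ (N₁ + 1) ≤ dph N₁ ν w := by
  unfold dph
  rw [pow_succ]
  exact Nat.mul_le_mul (Nat.pow_le_pow_left (dgq_ge _ _) _) (dgq_ge _ _)

private theorem gro_le (N₁ ν w : ℕ) (g : List Bool) (hg : okg N₁ g = true) :
    gro (Qf N₁ w) w ν g ≤ dph N₁ ν w ^ 2 := by
  unfold okg at hg
  rw [Bool.and_eq_true, decide_eq_true_eq, decide_eq_true_eq] at hg
  have h1 := dgq_ge (Qf N₁ w) ν
  have h2 := dgq_ge (w + 1) ν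
  calc gro (Qf N₁ w) w ν g
      ≤ (2 * dgq (Qf N₁ w) ν) ^ N₁ * (2 * dgq (w + 1) ν) ^ 1 :=
        Nat.mul_le_mul (Nat.pow_le_pow_right (by omega) hg.1)
          (Nat.pow_le_pow_right (by omega) hg.2)
    _ = 2 ^ (N₁ + 1) * dph N₁ ν w := by
        unfold dph
        rw [mul_pow]
        ring
    _ ≤ dph N₁ ν w * dph N₁ ν w := Nat.mul_le_mul_right _ (dph_ge N₁ ν w)
    _ = dph N₁ ν w ^ 2 := by ring

private theorem abs_evs (N₁ ν w : ℕ) (gs : List (List Bool)) (zs : List ℤ) (B : ℕ)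
    (hz : ∀ z ∈ zs, |z| ≤ 2 ^ B) (hg : ∀ g ∈ gs, okg N₁ g = true) :
    ∀ x ∈ evs (qb (Qf N₁ w) w ν) gs zs, |x| ≤ 2 ^ ((B + 1) * dph N₁ ν w ^ 2) := by
  induction gs generalizing zs with
  | nil =>
    intro x hx
    simp [evs] at hx
  | cons g gs ih =>
    intro x hx
    cases zs with
    | nil => simp [evs] at hx
    | cons z zs =>
      simp only [evs, List.mem_append] at hx
      rcases hx with hx | hx
      · refine (abs_cat _ _ _ g z B (hz z (by simp)) x hx).trans
          (pow_le_pow_right₀ (by norm_num) ?_)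
        exact Nat.mul_le_mul_left _ (gro_le N₁ ν w g (hg g (by simp)))
      · exact ih zs (fun z hz' => hz z (by simp [hz'])) (fun g hg' => hg g (by simp [hg'])) x hx

private theorem abs_scan (l : List ℤ) (U : ℤ) (hU : 0 ≤ U) (hl : ∀ x ∈ l, |x| ≤ U) (a : ℤ) :
    ∀ y ∈ l.scanl (· + ·) a, |y| ≤ |a| + l.length * U := by
  induction l generalizing a with
  | nil =>
    intro y hy
    simp only [List.scanl_nil, List.mem_singleton] at hy
    subst hy
    simp
  | cons x l ih =>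
    intro y hy
    rw [List.scanl_cons, List.mem_cons] at hy
    have hn : (0 : ℤ) ≤ (l.length : ℤ) * U := by positivity
    rcases hy with rfl | hy
    · rw [List.length_cons]
      push_cast
      nlinarith
    · have h1 := ih (fun x hx => hl x (by simp [hx])) (a + x) y hy
      have h2 := hl x (by simp)
      have h3 := abs_add_le a x
      rw [List.length_cons]
      push_cast
      nlinarith

private theorem abs_shf (l : List ℤ) (U : ℤ) (hU : 1 ≤ U) (hl : ∀ x ∈ l, |x| ≤ U) (t e D : ℕ)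
    (ht : t ≤ D) (he : e ≤ D) :
    ∀ y ∈ shf (t : ℤ) ((e : ℤ) + 1) l, |y| ≤ ((D : ℤ) + 1) * ((l.length : ℤ) + 1) * U := by
  intro y hy
  unfold shf pre at hy
  rw [List.mem_map] at hy
  obtain ⟨x, hx, rfl⟩ := hy
  have h1 := abs_scan l U (by linarith) hl 0 x hx
  rw [abs_zero, zero_add] at h1
  have h2 : |(t : ℤ) + ((e : ℤ) + 1) * x| ≤ (t : ℤ) + ((e : ℤ) + 1) * |x| := by
    refine (abs_add_le _ _).trans ?_
    rw [abs_mul, abs_of_nonneg (by positivity : (0 : ℤ) ≤ (t : ℤ)),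
      abs_of_nonneg (by positivity : (0 : ℤ) ≤ (e : ℤ) + 1)]
  have h3 : (t : ℤ) ≤ D := by exact_mod_cast ht
  have h4 : (e : ℤ) ≤ D := by exact_mod_cast he
  have h5 : (0 : ℤ) ≤ (e : ℤ) := by positivity
  have h6 : ((e : ℤ) + 1) * |x| ≤ ((D : ℤ) + 1) * ((l.length : ℤ) * U) :=
    mul_le_mul (by linarith) h1 (abs_nonneg _) (by linarith)
  have h7 : (D : ℤ) ≤ ((D : ℤ) + 1) * U := by nlinarith
  calc |(t : ℤ) + ((e : ℤ) + 1) * x| ≤ (t : ℤ) + ((e : ℤ) + 1) * |x| := h2
    _ ≤ ((D : ℤ) + 1) * U + ((D : ℤ) + 1) * ((l.length : ℤ) * U) := by linarith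
    _ = ((D : ℤ) + 1) * ((l.length : ℤ) + 1) * U := by ring

private theorem succ_le_two (n : ℕ) : (n : ℤ) + 1 ≤ 2 ^ n := by
  have h : n + 1 ≤ 2 ^ n := Nat.lt_two_pow_self
  exact_mod_cast h

private theorem num_step (P m w d s : ℕ) (hd : 1 ≤ d) (hs : s ≤ m) :
    m + (m * w * d + (d ^ 2 * (s * w * d + s + 6)) ^ P + 1) * d ^ 2 ≤
      (d ^ 2 * ((m + 1) * w * d + (m + 1) + 6)) ^ (P + 1) := by
  have h1 : s * w * d + s + 6 ≤ (m + 1) * w * d + (m + 1) + 6 := by
    have : s * w * d ≤ (m + 1) * w * d :=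
      Nat.mul_le_mul_right _ (Nat.mul_le_mul_right _ (by omega))
    omega
  have h2 : (d ^ 2 * (s * w * d + s + 6)) ^ P ≤
      (d ^ 2 * ((m + 1) * w * d + (m + 1) + 6)) ^ P :=
    Nat.pow_le_pow_left (Nat.mul_le_mul_left _ h1) _
  have hX : 1 ≤ (d ^ 2 * ((m + 1) * w * d + (m + 1) + 6)) ^ P := by
    apply Nat.one_le_pow
    apply Nat.mul_pos
    · positivity
    · omega
  have hd2 : 1 ≤ d ^ 2 := Nat.one_le_pow _ _ hd
  rw [pow_succ (d ^ 2 * ((m + 1) * w * d + (m + 1) + 6)) P]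
  generalize (d ^ 2 * (s * w * d + s + 6)) ^ P = Y at *
  generalize (d ^ 2 * ((m + 1) * w * d + (m + 1) + 6)) ^ P = X at *
  have h3 : (m + 1) * w * d = m * w * d + w * d := by ring
  rw [h3]
  generalize m * w * d = a at *
  generalize w * d = b at *
  generalize d ^ 2 = c at *
  have h4 : m ≤ X * c * m := by
    have : 1 * m ≤ X * c * m := Nat.mul_le_mul_right _ (Nat.mul_pos hX hd2)
    omega
  have h5 : (a + Y + 1) * c ≤ X * c * (a + 2) := by
    have h6 : a + Y + 1 ≤ X * (a + 2) := by nlinarith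
    calc (a + Y + 1) * c ≤ X * (a + 2) * c := Nat.mul_le_mul_right _ h6
      _ = X * c * (a + 2) := by ring
  have h7 : X * c * m + X * c * (a + 2) ≤ X * (c * (a + b + (m + 1) + 6)) := by
    have h8 : X * c * m + X * c * (a + 2) = X * c * (m + a + 2) := by ring
    rw [h8, ← mul_assoc]
    exact Nat.mul_le_mul_left _ (by omega)
  omega

/-- the coordinates: if `|z| ≤ 2 ^ B` then the units of an admissible group are at most
`2 ^ ((B + 1) * 2 ^ (N₁ + 1) * dph)` and `2 ^ (N₁ + 1) ≤ dph`;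
`B (P + 1, m + 1, D) ≤ D + m + 3 + dph ^ 2 * (1 + B (P, m', m w dph))` -/
theorem core_abs (N₁ ν w : ℕ) (hN₁ : 1 ≤ N₁) (hw : 1 ≤ w) (P m D : ℕ) :
    ∀ l ∈ core N₁ ν w P m D, ∀ x ∈ l,
      |x| ≤ (2 : ℤ) ^ (D + (dph N₁ ν w ^ 2 * (m * w * dph N₁ ν w + m + 6)) ^ P) := by
  induction P generalizing m D with
  | zero =>
    intro l hl x hx
    cases m with
    | zero =>
      simp only [core, List.mem_singleton] at hl
      subst hl
      simp at hx
    | succ m => simp [core] at hl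
  | succ P ih =>
    intro l hl x hx
    cases m with
    | zero =>
      simp only [core, List.mem_singleton] at hl
      subst hl
      simp at hx
    | succ m =>
      simp only [core, List.mem_flatMap, List.mem_map] at hl
      obtain ⟨t, ht, e, he, gs, hgs, z, hz, rfl⟩ := hl
      rw [List.mem_range] at ht he
      obtain ⟨hg1, hg2, hg3⟩ := grps_spec N₁ m gs hgs
      have hzl := core_len N₁ ν w P _ _ z hz
      have hzb := ih _ _ z hz
      have hu := abs_evs N₁ ν w gs z _ hzb hg3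
      have hlen : (evs (qb (Qf N₁ w) w ν) gs z).length = m := by
        rw [length_evs _ _ _ hzl, hg1]
      have hU : (1 : ℤ) ≤ 2 ^ ((m * w * dph N₁ ν w +
          (dph N₁ ν w ^ 2 * (gs.length * w * dph N₁ ν w + gs.length + 6)) ^ P + 1) *
            dph N₁ ν w ^ 2) := one_le_pow₀ (by norm_num)
      have h1 := abs_shf _ _ hU hu t e D (by omega) (by omega) x hx
      rw [hlen] at h1
      have hd : 1 ≤ dph N₁ ν w := le_trans Nat.one_le_two_pow (dph_ge N₁ ν w)
      have hns := num_step P m w (dph N₁ ν w) gs.length hd hg2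
      generalize (m * w * dph N₁ ν w +
          (dph N₁ ν w ^ 2 * (gs.length * w * dph N₁ ν w + gs.length + 6)) ^ P + 1) *
            dph N₁ ν w ^ 2 = E at *
      have h2 : ((D : ℤ) + 1) * ((m : ℤ) + 1) * 2 ^ E ≤ 2 ^ D * 2 ^ m * 2 ^ E := by
        apply mul_le_mul_of_nonneg_right _ (by positivity)
        exact mul_le_mul (succ_le_two D) (succ_le_two m) (by positivity) (by positivity)
      refine h1.trans (h2.trans ?_)
      rw [← pow_add, ← pow_add]
      apply pow_le_pow_right₀ (by norm_num)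
      omega

end Pool.Agent.KNO
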