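import Pool.Agent.KNO.Rk

set_option autoImplicit false

/-! KNO-Add: `g (a + b)` has rank `deg g + 1`. -/

namespace Pool.Agent.KNO

open Polynomial

private theorem add_der {r : ℕ} (c : Fin (r + 1) → ℂ) (q : ℂ[X])
    (h : ∀ b : ℂ, ∑ i, c i * q.eval (((i : ℕ) : ℂ) + b) = 0) :
    ∀ b : ℂ, ∑ i, c i * (derivative q).eval (((i : ℕ) : ℂ) + b) = 0 := by
  have hP : ∑ i, C (c i) * q.comp (X + C ((i : ℕ) : ℂ)) = 0 := by
    refine Polynomial.funext fun b => ?_
    rw [eval_finsetSum, eval_zero, ← h b]
    refine Finset.sum_congr rfl fun i _ => ?_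
    rw [eval_mul, eval_C, eval_comp, eval_add, eval_X, eval_C, add_comm b]
  have hD := congrArg derivative hP
  rw [derivative_sum, derivative_zero] at hD
  intro b
  have h1 := congrArg (eval b) hD
  rw [eval_finsetSum, eval_zero] at h1
  rw [← h1]
  refine Finset.sum_congr rfl fun i _ => ?_
  rw [derivative_C_mul, derivative_comp, derivative_add, derivative_X, derivative_C, add_zero,
    one_mul, eval_mul, eval_C, eval_comp, eval_add, eval_X, eval_C, add_comm b]

theorem rank_add (r : ℕ) (g : ℂ[X]) (hg : g ≠ 0) (h : RankLe r fun a b : ℂ => g.eval (a + b)) :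
    g.natDegree < r := by
  obtain ⟨A, B, hAB⟩ := h
  by_contra hn
  push Not at hn
  set f : (Fin (r + 1) → ℂ) →ₗ[ℂ] (Fin r → ℂ) :=
    Matrix.mulVecLin (Matrix.of fun (k : Fin r) (i : Fin (r + 1)) => A k ((i : ℕ) : ℂ)) with hf
  have hker : LinearMap.ker f ≠ ⊥ := LinearMap.ker_ne_bot_of_finrank_lt (by simp)
  obtain ⟨c, hc, hc0⟩ := Submodule.exists_mem_ne_zero_of_ne_bot hker
  have hc' : ∀ k : Fin r, ∑ i : Fin (r + 1), A k ((i : ℕ) : ℂ) * c i = 0 := by
    intro k
    have h1 := congrFun (LinearMap.mem_ker.1 hc) k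
    simpa [hf, Matrix.mulVec, dotProduct] using h1
  have hrel : ∀ b : ℂ, ∑ i : Fin (r + 1), c i * g.eval (((i : ℕ) : ℂ) + b) = 0 := by
    intro b
    have h1 : ∀ i : Fin (r + 1), c i * g.eval (((i : ℕ) : ℂ) + b) =
        ∑ k, A k ((i : ℕ) : ℂ) * c i * B k b := by
      intro i
      have h2 : g.eval (((i : ℕ) : ℂ) + b) = ∑ k, A k ((i : ℕ) : ℂ) * B k b := hAB _ _
      rw [h2, Finset.mul_sum]
      exact Finset.sum_congr rfl fun k _ => by ring
    rw [Finset.sum_congr rfl fun i _ => h1 i, Finset.sum_comm]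
    refine Finset.sum_eq_zero fun k _ => ?_
    rw [← Finset.sum_mul, hc' k, zero_mul]
  have hder : ∀ (k : ℕ) (b : ℂ),
      ∑ i : Fin (r + 1), c i * (derivative^[k] g).eval (((i : ℕ) : ℂ) + b) = 0 := by
    intro k
    induction k with
    | zero => exact hrel
    | succ k ih =>
      rw [Function.iterate_succ_apply']
      exact add_der c _ ih
  have hpow : ∀ j : ℕ, j ≤ g.natDegree → ∑ i : Fin (r + 1), c i * ((i : ℕ) : ℂ) ^ j = 0 := by
    intro j
    induction j using Nat.strong_induction_on with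
    | _ j ih =>
      intro hj
      set q : ℂ[X] := derivative^[g.natDegree - j] g with hq
      have hdeg : q.natDegree < j + 1 := by
        have h1 := natDegree_iterate_derivative g (g.natDegree - j)
        rw [← hq] at h1
        omega
      have hlead : q.coeff j ≠ 0 := by
        rw [hq, coeff_iterate_derivative]
        have e : j + (g.natDegree - j) = g.natDegree := by omega
        rw [e]
        have h1 : g.coeff g.natDegree ≠ 0 := by
          rw [coeff_natDegree]; exact leadingCoeff_ne_zero.2 hg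
        have h2 : (g.natDegree).descFactorial (g.natDegree - j) ≠ 0 := by
          rw [Ne, Nat.descFactorial_eq_zero_iff_lt]
          omega
        rw [nsmul_eq_mul]
        exact mul_ne_zero (Nat.cast_ne_zero.2 h2) h1
      have h3 := hder (g.natDegree - j) 0
      rw [← hq] at h3
      have h4 : ∀ i : Fin (r + 1), c i * q.eval (((i : ℕ) : ℂ) + 0) =
          ∑ l ∈ Finset.range (j + 1), q.coeff l * (c i * ((i : ℕ) : ℂ) ^ l) := by
        intro i
        rw [add_zero, eval_eq_sum_range' hdeg, Finset.mul_sum]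
        exact Finset.sum_congr rfl fun l _ => by ring
      rw [Finset.sum_congr rfl fun i _ => h4 i, Finset.sum_comm, Finset.sum_range_succ] at h3
      have h5 : ∑ l ∈ Finset.range j, ∑ i : Fin (r + 1), q.coeff l * (c i * ((i : ℕ) : ℂ) ^ l) = 0 := by
        refine Finset.sum_eq_zero fun l hl => ?_
        rw [← Finset.mul_sum, ih l (Finset.mem_range.1 hl) (by have := Finset.mem_range.1 hl; omega),
          mul_zero]
      rw [h5, zero_add, ← Finset.mul_sum] at h3
      exact (mul_eq_zero.1 h3).resolve_left hlead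
  refine hc0 (Matrix.eq_zero_of_forall_pow_sum_mul_pow_eq_zero
    (f := fun i : Fin (r + 1) => ((i : ℕ) : ℂ)) ?_ ?_)
  · intro i j hij
    exact Fin.ext (Nat.cast_injective hij)
  · intro i
    exact hpow i (by omega)

end Pool.Agent.KNO
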