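import Pool.Agent.KNO.Prs

set_option autoImplicit false

/-! KNO-Cat: groups and rows of groups. -/

namespace Pool.Agent.KNO

section ring

variable {R R' : Type*} [CommRing R] [CommRing R']

theorem length_cat (q : Bool → R → R) (g : List Bool) (z : R) :
    (cat q g z).length = g.length + 1 := by
  induction g generalizing z with
  | nil => simp [cat]
  | cons b g ih => simp [cat, ih]

theorem length_evs (q : Bool → R → R) (gs : List (List Bool)) (zs : List R)
    (h : zs.length = gs.length) : (evs q gs zs).length = tot gs := by
  induction gs generalizing zs with
  | nil => simp [evs, tot]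
  | cons g gs ih =>
    cases zs with
    | nil => simp at h
    | cons z zs =>
      have h' : zs.length = gs.length := by simpa using h
      have := ih zs h'
      simp only [evs, tot, List.length_append, List.map_cons, List.sum_cons, length_cat] at this ⊢
      rw [this]

theorem evs_append (q : Bool → R → R) (gs gs' : List (List Bool)) (zs zs' : List R)
    (h : zs.length = gs.length) :
    evs q (gs ++ gs') (zs ++ zs') = evs q gs zs ++ evs q gs' zs' := by
  induction gs generalizing zs with
  | nil =>
    have : zs = [] := List.eq_nil_of_length_eq_zero (by simpa using h)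
    subst this
    simp [evs]
  | cons g gs ih =>
    cases zs with
    | nil => simp at h
    | cons z zs =>
      have h' : zs.length = gs.length := by simpa using h
      simp only [List.cons_append, evs, ih zs h', List.append_assoc]

theorem tot_append (gs gs' : List (List Bool)) : tot (gs ++ gs') = tot gs + tot gs' := by
  simp [tot]

theorem map_qb (φ : R →+* R') (Q w ν : ℕ) (b : Bool) (z : R) :
    φ (qb Q w ν b z) = qb Q w ν b (φ z) := by
  simp [qb, qp, map_prod]

private theorem cat_map (φ : R →+* R') (Q w ν : ℕ) (g : List Bool) (z : R) :
    (cat (qb Q w ν) g z).map φ = cat (qb Q w ν) g (φ z) := by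
  induction g generalizing z with
  | nil => simp [cat]
  | cons b g ih => simp [cat, ih, map_qb]

theorem map_evs (φ : R →+* R') (Q w ν : ℕ) (gs : List (List Bool)) (zs : List R) :
    (evs (qb Q w ν) gs zs).map φ = evs (qb Q w ν) gs (zs.map φ) := by
  induction gs generalizing zs with
  | nil => simp [evs]
  | cons g gs ih =>
    cases zs with
    | nil => simp [evs]
    | cons z zs => simp only [evs, List.map_append, cat_map, ih, List.map_cons]

private theorem cat_scanl (φ : R →+* R') (l : List R) (a : R) :
    (l.scanl (· + ·) a).map φ = (l.map φ).scanl (· + ·) (φ a) := by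
  induction l generalizing a with
  | nil => simp
  | cons x l ih => simp [List.scanl_cons, ih]

theorem map_shf (φ : R →+* R') (t e : R) (l : List R) :
    (shf t e l).map φ = shf (φ t) (φ e) (l.map φ) := by
  have h := cat_scanl φ l 0
  rw [map_zero] at h
  simp only [shf, pre, ← h, List.map_map]
  refine List.map_congr_left fun y _ => ?_
  simp

theorem length_shf (t e : R) (l : List R) : (shf t e l).length = l.length + 1 := by
  simp [shf, pre]

end ring

/-- `dec` gives rows of groups on the right number of units -/
theorem tot_dec (g : List Bool) (ms : List (Option Bool)) :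
    tot (dec g ms) = g.length + 1 + ms.length := by
  induction ms generalizing g with
  | nil => simp [dec, tot]
  | cons b ms ih =>
    cases b with
    | none =>
      have := ih []
      simp only [dec, tot, List.map_cons, List.sum_cons, List.length_nil, List.length_cons] at this ⊢
      omega
    | some b =>
      have := ih (b :: g)
      simp only [dec, List.length_cons] at this ⊢
      omega

theorem mem_vecs (ms : List (Option Bool)) : ms ∈ vecs ms.length := by
  induction ms with
  | nil => simp [vecs]
  | cons b ms ih =>
    simp only [List.length_cons, vecs, List.mem_flatMap]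
    refine ⟨ms, ih, ?_⟩
    cases b with
    | none => simp
    | some b => cases b <;> simp

theorem mem_grps (N₁ m : ℕ) (ms : List (Option Bool)) (hm : ms.length = m)
    (h : ∀ g ∈ dec [] ms, okg N₁ g = true) : dec [] ms ∈ grps N₁ (m + 1) := by
  subst hm
  simp only [grps, List.mem_filter, List.mem_map]
  exact ⟨⟨ms, mem_vecs ms, rfl⟩, List.all_eq_true.2 h⟩

private theorem cat_len_vecs (n : ℕ) (v : List (Option Bool)) (h : v ∈ vecs n) : v.length = n := by
  induction n generalizing v with
  | zero => simp [vecs] at h; simp [h]
  | succ n ih =>
    simp only [vecs, List.mem_flatMap] at h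
    obtain ⟨u, hu, hv⟩ := h
    have := ih u hu
    simp only [List.mem_cons, List.not_mem_nil, or_false] at hv
    rcases hv with rfl | rfl | rfl <;> simp [this]

private theorem cat_len_tot (gs : List (List Bool)) : gs.length ≤ tot gs := by
  induction gs with
  | nil => simp [tot]
  | cons g gs ih =>
    simp only [tot, List.map_cons, List.sum_cons, List.length_cons] at ih ⊢
    omega

/-- members of `grps` are rows of admissible groups on `m` units -/
theorem grps_spec (N₁ m : ℕ) (gs : List (List Bool)) (h : gs ∈ grps N₁ m) :
    tot gs = m ∧ gs.length ≤ m ∧ ∀ g ∈ gs, okg N₁ g = true := by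
  cases m with
  | zero =>
    simp only [grps, List.mem_cons, List.not_mem_nil, or_false] at h
    subst h
    simp [tot]
  | succ n =>
    simp only [grps, List.mem_filter, List.mem_map] at h
    obtain ⟨⟨v, hv, rfl⟩, hall⟩ := h
    have h1 : tot (dec [] v) = n + 1 := by
      rw [tot_dec, cat_len_vecs n v hv]; simp; omega
    refine ⟨h1, ?_, List.all_eq_true.1 hall⟩
    rw [← h1]
    exact cat_len_tot _

end Pool.Agent.KNO
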