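import Pool.Agent.KNO.Rec

set_option autoImplicit false

/-! KNO-Mrg: from state B of phase `k` to state A of phase `k + 1`. -/

namespace Pool.Agent.KNO

private theorem Mrg_one_le_tot (gs : List (List Bool)) (h : gs ≠ []) : 1 ≤ tot gs := by
  cases gs with
  | nil => exact absurd rfl h
  | cons g gs =>
    simp only [tot, List.map_cons, List.sum_cons]
    omega

private theorem Mrg_tot_take_drop (gs : List (List Bool)) (p : ℕ) :
    tot (gs.take p) + tot (gs.drop p) = tot gs := by
  rw [← tot_append, List.take_append_drop]

private theorem Mrg_sum_take_le (l : List (ℕ × ℕ)) (n : ℕ) :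
    ((l.take n).map Prod.snd).sum ≤ (l.map Prod.snd).sum := by
  conv_rhs => rw [← List.take_append_drop n l]
  rw [List.map_append, List.sum_append]
  exact Nat.le_add_right _ _

private theorem Mrg_sum_tail_le (l : List (ℕ × ℕ)) :
    (l.tail.map Prod.snd).sum ≤ (l.map Prod.snd).sum := by
  cases l with
  | nil => simp
  | cons a l =>
    simp only [List.tail_cons, List.map_cons, List.sum_cons]
    exact Nat.le_add_left _ _

/-- split a row of groups -/
private theorem Mrg_evs_split (q : Bool → ℂ → ℂ) (gs : List (List Bool)) (p : ℕ)
    (a b : List ℂ) (ha : a.length = p) (hp : p ≤ gs.length) :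
    evs q gs (a ++ b) = evs q (gs.take p) a ++ evs q (gs.drop p) b := by
  conv_lhs => rw [← List.take_append_drop p gs]
  refine evs_append q _ _ _ _ ?_
  rw [List.length_take, ha, min_eq_left hp]

theorem merges (N₁ k N Q w ν m D : ℕ) (F : List ℂ → ℂ) (hm : 1 ≤ m) (hF : IsPol m D F)
    (hne : Nz m F) (hN₁ : 1 ≤ N₁) (hQ : 1 ≤ Q) (hQw : Q ≤ w + 1)
    (hν : (2 * w + 3) * (D * (dgq Q ν ^ N₁ * dgq (w + 1) ν)) < Q ^ (ν + 1))
    (cs : List (ℕ × ℕ)) (hB : BInv N₁ k N Q w m F cs) :
    ∃ gs ∈ grps N₁ m, 1 ≤ gs.length ∧ (m = 1 → gs.length = 1) ∧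
      Nz gs.length (fun z => F (evs (qb Q w ν) gs z)) ∧
      ∃ cs', AInv N₁ (k + 1) N Q w gs.length (fun z => F (evs (qb Q w ν) gs z)) cs' := by
  have hGD0 : GD N₁ k Q w ν m F cs [] [] :=
    { len := rfl
      ok := by intro g hg; simp at hg
      out := by intro i h; simp at h
      grow := by intro u hu; simp at hu
      sum := by simp }
  have hSt0 : St Q w ν F [] [] (m - 1) := by
    obtain ⟨l, hl, hFl⟩ := hne
    cases l with
    | nil => simp at hl; omega
    | cons z r =>
      refine ⟨[], z, r, rfl, ?_, ?_⟩
      · simp at hl; omega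
      · simpa [evs, cat] using hFl
  obtain ⟨ms, done', last, us', hms, hdec, hlast, hGD, x, hx, hFx⟩ :=
    pass N₁ k N Q w ν m D F hF hN₁ hQ hQw hν cs hB (m - 1) [] [] [] hGD0
      (by simp [okg]) (by simp) (by simp [tot]; omega) hSt0
  rw [List.nil_append] at hdec
  have hok : ∀ g ∈ dec [] ms, okg N₁ g = true := by
    intro g hg
    rw [hdec, List.mem_append, List.mem_singleton] at hg
    rcases hg with hg | rfl
    · exact hGD.ok g hg
    · exact hlast
  have hmem : dec [] ms ∈ grps N₁ m := by
    have h := mem_grps N₁ (m - 1) ms hms hok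
    rwa [Nat.sub_add_cancel hm] at h
  have htot : tot (dec [] ms) = m := (grps_spec N₁ m _ hmem).1
  have hlen : (dec [] ms).length = done'.length + 1 := by
    rw [hdec]; simp
  have huslen := hGD.len
  refine ⟨dec [] ms, hmem, by omega, ?_, ?_, us'.tail, ?_⟩
  · intro h1
    have h := (grps_spec N₁ m _ hmem).2.1
    omega
  · refine ⟨x, by omega, ?_⟩
    rw [hdec]
    exact hFx
  · refine ⟨?_, ?_, ?_, ?_, ?_⟩
    · rw [List.length_tail]; omega
    · intro i h v
      rw [List.length_tail] at h
      have hi1 : i + 1 < us'.length := by omega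
      have hR := hGD.out (i + 1) hi1 v
      have hget : us'.tail[i] = us'[i + 1] := by
        simp [List.getElem_tail]
      rw [hget]
      have htk1 : (dec [] ms).take (i + 1) = done'.take (i + 1) := by
        rw [hdec, List.take_append_of_le_length (by omega)]
      have htk2 : (dec [] ms).take (i + 2) = done'.take (i + 2) := by
        rw [hdec, List.take_append_of_le_length (by omega)]
      have hdrop : (dec [] ms).drop (i + 1) = done'.getD (i + 1) [] :: (dec [] ms).drop (i + 2) := by
        have hlt : i + 1 < (dec [] ms).length := by omega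
        rw [List.drop_eq_getElem_cons hlt]
        congr 1
        have h1 : i + 1 < done'.length := by omega
        rw [List.getD_eq_getElem _ _ h1]
        have : (dec [] ms)[i + 1] = (done' ++ [last])[i + 1]'(by simp; omega) := by
          congr 1
        rw [this, List.getElem_append_left h1]
      have hlenb : ∀ b : Ls ((dec [] ms).length - (i + 1) - 1),
          (evs (qb Q w ν) ((dec [] ms).drop (i + 2)) b.1).length =
            m - tot (done'.take (i + 2)) := by
        intro b
        rw [length_evs]
        · have := Mrg_tot_take_drop (dec [] ms) (i + 2)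
          rw [htk2] at this
          omega
        · rw [b.2, List.length_drop]; omega
      refine (hR.comp (fun a : Ls (i + 1) => a)
        (fun b : Ls ((dec [] ms).length - (i + 1) - 1) =>
          (⟨evs (qb Q w ν) ((dec [] ms).drop (i + 2)) b.1, hlenb b⟩ :
            Ls (m - tot (done'.take (i + 2)))))).congr ?_
      intro a b
      show F _ = F _
      congr 1
      rw [Mrg_evs_split (qb Q w ν) (dec [] ms) (i + 1) a.1 (v :: b.1) a.2 (by omega), htk1, hdrop]
      simp only [evs, List.append_assoc]
    · intro p hp1 hp2
      have htk := Mrg_tot_take_drop (dec [] ms) p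
      have h1 : 1 ≤ tot ((dec [] ms).take p) := by
        apply Mrg_one_le_tot
        intro h0
        have := congrArg List.length h0
        rw [List.length_take, List.length_nil] at this
        omega
      have h2 : 1 ≤ tot ((dec [] ms).drop p) := by
        apply Mrg_one_le_tot
        intro h0
        have := congrArg List.length h0
        rw [List.length_drop, List.length_nil] at this
        omega
      have hi : tot ((dec [] ms).take p) - 1 < cs.length := by
        rw [hB.len]; omega
      have hC := hB.cut _ hi
      rw [Nat.sub_add_cancel h1] at hC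
      have hC' := hC.mono (Nat.div_le_self w _)
      refine (hC'.comp
        (fun a : Ls p => (⟨evs (qb Q w ν) ((dec [] ms).take p) a.1, ?_⟩ :
          Ls (tot ((dec [] ms).take p))))
        (fun b : Ls ((dec [] ms).length - p) =>
          (⟨evs (qb Q w ν) ((dec [] ms).drop p) b.1, ?_⟩ :
            Ls (m - tot ((dec [] ms).take p))))).congr ?_
      · rw [length_evs]
        rw [a.2, List.length_take]; omega
      · rw [length_evs]
        · omega
        · rw [b.2, List.length_drop]
      · intro a b
        show F _ = F _
        congr 1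
        rw [Mrg_evs_split (qb Q w ν) (dec [] ms) p a.1 b.1 a.2 (by omega)]
    · intro c hc
      exact hGD.grow c (List.mem_of_mem_tail hc)
    · exact (Mrg_sum_tail_le us').trans (hGD.sum.trans ((Mrg_sum_take_le cs _).trans hB.sum))

end Pool.Agent.KNO
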