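import Pool.Agent.KNO.T1
import Pool.Agent.KNO.Mrg
import Pool.Agent.KNO.Dph

set_option autoImplicit false

/-! KNO-Cor: the core hitting sets. -/

namespace Pool.Agent.KNO

/-- state A to state B by `T1` -/
theorem T1inv (N₁ k N Q w m D : ℕ) (F : List ℂ → ℂ) (hm : 1 ≤ m) (hF : IsPol m D F)
    (hne : Nz m F) (cs : List (ℕ × ℕ)) (hA : AInv N₁ k N Q w m F cs) :
    ∃ (t : ℕ) (H : List ℂ → ℂ), t ≤ D ∧ IsPol (m - 1) ((m - 1) * w) H ∧ Nz (m - 1) H ∧
      BInv N₁ k N Q w (m - 1) H cs ∧ ∀ l : List ℂ, l.length = m - 1 → H l ≠ 0 →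
        ∃ e : ℕ, e ≤ D ∧ F (shf (t : ℂ) ((e : ℂ) + 1) l) ≠ 0 := by
  obtain ⟨t, H, ht, hH, hnz, hcut, hl⟩ := T1 m D w F hm hF hne hA.cut
  refine ⟨t, H, ht, hH, hnz, ⟨?_, ?_, hA.grow, hA.sum⟩, hl⟩
  · rw [hA.len]; omega
  · intro i h
    have h2 : i < m - 2 := by rw [← hA.len]; exact h
    exact hcut (i + 1) _ (by omega) (by omega) (hA.out i h)

/-- all labels are `< N₁`, so there are no cuts from phase `N₁ + T` on -/
theorem no_cut (N₁ T k Q w m : ℕ) (F : List ℂ → ℂ) (hN₁ : 2 ≤ N₁) (hQw : w < Q ^ N₁)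
    (hne : Nz m F) (cs : List (ℕ × ℕ)) (hB : BInv N₁ k (N₁ ^ T) Q w m F cs)
    (hk : N₁ + T ≤ k) : cs = [] := by
  by_contra hcs
  have hpos : 0 < cs.length := List.length_pos_iff.mpr hcs
  have hmem : cs[0] ∈ cs := List.getElem_mem hpos
  have hg := hB.grow _ hmem
  have hs : (cs[0]).2 ≤ N₁ ^ T :=
    (List.le_sum_of_mem (List.mem_map_of_mem (f := Prod.snd) hmem)).trans hB.sum
  have h1 : N₁ ^ k ≤ N₁ ^ (T + (cs[0]).1) := by
    rw [pow_add]
    exact hg.trans (Nat.mul_le_mul_right _ hs)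
  have h2 : k ≤ T + (cs[0]).1 := (Nat.pow_le_pow_iff_right (by omega)).mp h1
  have h3 : N₁ ≤ (cs[0]).1 := by omega
  have hQ : 0 < Q := by
    rcases Nat.eq_zero_or_pos Q with h | h
    · subst h
      rw [zero_pow (by omega)] at hQw
      omega
    · exact h
  have h4 : w / Q ^ (cs[0]).1 = 0 :=
    Nat.div_eq_of_lt (hQw.trans_le (Nat.pow_le_pow_right hQ h3))
  have hc := hB.cut 0 hpos
  rw [h4] at hc
  obtain ⟨l, hl, hFl⟩ := hne
  have hm2 : 2 ≤ m := by
    have := hB.len
    omega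
  apply hFl
  have := rank_zero hc (⟨l.take 1, by simp; omega⟩ : Ls (0 + 1))
    (⟨l.drop 1, by simp; omega⟩ : Ls (m - (0 + 1)))
  rw [← List.take_append_drop 1 l]
  exact this

/-- rows in the core hitting set have the right length -/
theorem core_length (N₁ ν w : ℕ) : ∀ (P m D : ℕ) (l : List ℤ), l ∈ core N₁ ν w P m D →
    l.length = m := by
  intro P
  induction P with
  | zero =>
    intro m D l hl
    cases m with
    | zero => simpa [core] using hl
    | succ m => simp [core] at hl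
  | succ P ih =>
    intro m D l hl
    cases m with
    | zero => simpa [core] using hl
    | succ m =>
      simp only [core, List.mem_flatMap, List.mem_map] at hl
      obtain ⟨t, -, e, -, gs, hgs, z, hz, rfl⟩ := hl
      rw [length_shf, length_evs _ _ _ (ih _ _ _ hz), (grps_spec N₁ m gs hgs).1]

theorem core_hits (N₁ T w ν : ℕ) (hN₁ : 2 ≤ N₁) (hw : 1 ≤ w)
    (hν : (2 * w + 3) * (N₁ ^ T * w * dph N₁ ν w) < Qf N₁ w ^ (ν + 1)) :
    ∀ (P k m D : ℕ) (F : List ℂ → ℂ) (cs : List (ℕ × ℕ)), m ≤ N₁ ^ T + 1 → IsPol m D F →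
      Nz m F → AInv N₁ k (N₁ ^ T) (Qf N₁ w) w m F cs → N₁ + T + 2 ≤ k + P →
      (N₁ + T + 1 ≤ k → m ≤ 1) → (N₁ + T + 2 ≤ k → m = 0) →
      ∃ l ∈ core N₁ ν w P m D, F (l.map fun x : ℤ => (x : ℂ)) ≠ 0 := by
  obtain ⟨hQ1, hQ2, hQ3, -⟩ := Qf_spec N₁ w (by omega) hw
  intro P
  induction P with
  | zero =>
    intro k m D F cs hm hF hne hA hk h1 h2
    obtain rfl : m = 0 := h2 (by omega)
    obtain ⟨l, hl, hFl⟩ := hne
    obtain rfl := List.length_eq_zero_iff.mp hl
    exact ⟨[], by simp [core], by simpa using hFl⟩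
  | succ P ih =>
    intro k m D F cs hm hF hne hA hk h1 h2
    cases m with
    | zero =>
      obtain ⟨l, hl, hFl⟩ := hne
      obtain rfl := List.length_eq_zero_iff.mp hl
      exact ⟨[], by simp [core], by simpa using hFl⟩
    | succ m =>
      obtain ⟨t, H, ht, hH, hnz, hB, hlast⟩ :=
        T1inv N₁ k (N₁ ^ T) (Qf N₁ w) w (m + 1) D F (by omega) hF hne cs hA
      rw [Nat.add_sub_cancel] at hH hnz hB hlast
      -- it is enough to find a row of groups and a point
      suffices hs : ∃ gs ∈ grps N₁ m, ∃ z ∈ core N₁ ν w P gs.length (m * w * dph N₁ ν w),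
          H ((evs (qb (Qf N₁ w) w ν) gs z).map fun x : ℤ => (x : ℂ)) ≠ 0 by
        obtain ⟨gs, hgs, z, hz, hne'⟩ := hs
        have hlen : (evs (qb (Qf N₁ w) w ν) gs z).length = m := by
          rw [length_evs _ _ _ (core_length N₁ ν w _ _ _ _ hz), (grps_spec N₁ m gs hgs).1]
        obtain ⟨e, he, hFe⟩ := hlast _ (by rw [List.length_map, hlen]) hne'
        refine ⟨shf (t : ℤ) ((e : ℤ) + 1) (evs (qb (Qf N₁ w) w ν) gs z), ?_, ?_⟩
        · simp only [core, List.mem_flatMap, List.mem_map]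
          refine ⟨_, ?_, _, ?_, gs, hgs, z, hz, rfl⟩
          · simp
            omega
          · simp
            omega
        · have h := map_shf (Int.castRingHom ℂ) (t : ℤ) ((e : ℤ) + 1)
            (evs (qb (Qf N₁ w) w ν) gs z)
          simp only [eq_intCast, Int.cast_natCast, Int.cast_add, Int.cast_one] at h
          have h' : (shf (t : ℤ) ((e : ℤ) + 1) (evs (qb (Qf N₁ w) w ν) gs z)).map
              (fun x : ℤ => (x : ℂ)) = shf (t : ℂ) ((e : ℂ) + 1)
                ((evs (qb (Qf N₁ w) w ν) gs z).map fun x : ℤ => (x : ℂ)) := by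
            simpa using h
          rw [h']
          exact hFe
      rcases Nat.eq_zero_or_pos m with hm0 | hmpos
      · subst hm0
        obtain ⟨l, hl, hFl⟩ := hnz
        obtain rfl := List.length_eq_zero_iff.mp hl
        exact ⟨[], by simp [grps], [], by cases P <;> simp [core], by simpa [evs] using hFl⟩
      · have hdph : (2 * w + 3) * (m * w * (dgq (Qf N₁ w) ν ^ N₁ * dgq (w + 1) ν)) <
            Qf N₁ w ^ (ν + 1) := by
          refine lt_of_le_of_lt ?_ hν
          refine Nat.mul_le_mul_left _ (Nat.mul_le_mul_right _ (Nat.mul_le_mul_right _ ?_))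
          omega
        obtain ⟨gs, hgs, hgs1, hgs2, hgs3, cs', hA'⟩ :=
          merges N₁ k (N₁ ^ T) (Qf N₁ w) w ν m (m * w) H hmpos hH hnz (by omega) (by omega)
            hQ3 hdph cs hB
        obtain ⟨hgt, hgl, hgok⟩ := grps_spec N₁ m gs hgs
        have hpol := evs_pol N₁ (Qf N₁ w) w ν m (m * w) H hH gs hgt hgok
        obtain ⟨z, hz, hGz⟩ := ih (k + 1) gs.length (m * w * dph N₁ ν w)
          (fun z => H (evs (qb (Qf N₁ w) w ν) gs z)) cs' (by omega) hpol hgs3 hA' (by omega)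
          (by
            intro hk1
            have hnil := no_cut N₁ T k (Qf N₁ w) w m H hN₁ hQ1 hnz cs hB (by omega)
            have hlen := hB.len
            rw [hnil] at hlen
            simp only [List.length_nil] at hlen
            rw [hgs2 (by omega)])
          (by
            intro hk1
            exfalso
            have := h1 (by omega)
            omega)
        refine ⟨gs, hgs, z, hz, ?_⟩
        have h := map_evs (Int.castRingHom ℂ) (Qf N₁ w) w ν gs z
        have h' : (evs (qb (Qf N₁ w) w ν) gs z).map (fun x : ℤ => (x : ℂ)) =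
            evs (qb (Qf N₁ w) w ν) gs (z.map fun x : ℤ => (x : ℂ)) := by
          simpa using h
        rw [h']
        exact hGz

end Pool.Agent.KNO
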