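import Pool.Agent.KNO.Dph

set_option autoImplicit false

/-! KNO-Crd: the number of points. -/

namespace Pool.Agent.KNO

private theorem Crd_flat {α β : Type*} (f : α → List β) (c : ℕ) (l : List α)
    (h : ∀ a ∈ l, (f a).length ≤ c) : (l.flatMap f).length ≤ l.length * c := by
  induction l with
  | nil => simp
  | cons a l ih =>
    rw [List.flatMap_cons, List.length_append, List.length_cons]
    have h1 := h a List.mem_cons_self
    have h2 := ih fun b hb => h b (List.mem_cons_of_mem a hb)
    have h3 : (l.length + 1) * c = l.length * c + c := by ring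
    omega

private theorem Crd_len (n : ℕ) : (List.range n).length = n := by
  simp

theorem length_vecs (n : ℕ) : (vecs n).length = 3 ^ n := by
  induction n with
  | zero => rfl
  | succ n ih =>
    have h1 : ∀ l : List (List (Option Bool)),
        (l.flatMap fun v => [none :: v, some false :: v, some true :: v]).length =
          l.length * 3 := by
      intro l
      induction l with
      | nil => rfl
      | cons a l ihl =>
        rw [List.flatMap_cons, List.length_append, ihl, List.length_cons]
        simp only [List.length_cons, List.length_nil]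
        ring
    show ((vecs n).flatMap fun v => [none :: v, some false :: v, some true :: v]).length = _
    rw [h1, ih, pow_succ]

theorem length_grps (N₁ m : ℕ) : (grps N₁ m).length ≤ 3 ^ m := by
  rcases m with _ | n
  · exact le_refl 1
  · show (((vecs n).map (dec [])).filter fun gs => gs.all (okg N₁)).length ≤ _
    calc (((vecs n).map (dec [])).filter fun gs => gs.all (okg N₁)).length
        ≤ ((vecs n).map (dec [])).length := List.length_filter_le _ _
      _ = 3 ^ n := by rw [List.length_map, length_vecs]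
      _ ≤ 3 ^ (n + 1) := Nat.pow_le_pow_right (by norm_num) (Nat.le_succ n)

private theorem Crd_vecs {n : ℕ} : ∀ v ∈ vecs n, v.length = n := by
  induction n with
  | zero =>
    intro v hv
    have h : v = [] := by simpa [vecs] using hv
    rw [h]
    rfl
  | succ n ih =>
    intro v hv
    have hv' : v ∈ (vecs n).flatMap fun v => [none :: v, some false :: v, some true :: v] := hv
    rw [List.mem_flatMap] at hv'
    obtain ⟨u, hu, hv2⟩ := hv'
    have h := ih u hu
    simp only [List.mem_cons, List.not_mem_nil, or_false] at hv2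
    rcases hv2 with rfl | rfl | rfl <;> simp [h]

private theorem Crd_dec (v : List (Option Bool)) :
    ∀ g : List Bool, (dec g v).length ≤ v.length + 1 := by
  induction v with
  | nil => intro g; simp [dec]
  | cons a v ih =>
    intro g
    rcases a with _ | b
    · show (g :: dec [] v).length ≤ _
      rw [List.length_cons, List.length_cons]
      have := ih []
      omega
    · show (dec (b :: g) v).length ≤ _
      rw [List.length_cons]
      have := ih (b :: g)
      omega

/-- rows of admissible groups on `m` units have at most `m` groups -/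
theorem len_grps (N₁ m : ℕ) (gs : List (List Bool)) (h : gs ∈ grps N₁ m) : gs.length ≤ m := by
  rcases m with _ | n
  · have h1 : gs = [] := by simpa [grps] using h
    rw [h1]
    exact le_refl 0
  · have h' : gs ∈ ((vecs n).map (dec [])).filter fun gs => gs.all (okg N₁) := h
    have h1 := List.mem_of_mem_filter h'
    rw [List.mem_map] at h1
    obtain ⟨v, hv, rfl⟩ := h1
    have h2 := Crd_dec v []
    rw [Crd_vecs v hv] at h2
    exact h2

theorem length_core (N₁ ν w : ℕ) (hN₁ : 1 ≤ N₁) (hw : 1 ≤ w) (P m D : ℕ) :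
    (core N₁ ν w P m D).length ≤ (3 ^ m * (D + 1) ^ 2) *
      (3 ^ m * (m * w * dph N₁ ν w + 1) ^ 2) ^ P := by
  induction P generalizing m D with
  | zero =>
    rcases m with _ | m
    · have h1 : core N₁ ν w 0 0 D = [[]] := by simp [core]
      rw [h1, pow_zero, pow_zero, one_mul, mul_one, List.length_singleton]
      exact Nat.one_le_pow _ _ (Nat.succ_pos D)
    · have h1 : core N₁ ν w 0 (m + 1) D = [] := by simp [core]
      rw [h1, List.length_nil]
      exact Nat.zero_le _
  | succ P ih =>
    rcases m with _ | m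
    · have h1 : core N₁ ν w (P + 1) 0 D = [[]] := by simp [core]
      rw [h1, pow_zero, one_mul, one_mul, zero_mul, zero_mul, zero_add, one_pow, one_pow, mul_one,
        List.length_singleton]
      exact Nat.one_le_pow _ _ (Nat.succ_pos D)
    · set E : ℕ := 3 ^ (m + 1) * ((m + 1) * w * dph N₁ ν w + 1) ^ 2 with hE
      have hb : ∀ gs ∈ grps N₁ m,
          (core N₁ ν w P gs.length (m * w * dph N₁ ν w)).length ≤ E ^ (P + 1) := by
        intro gs hgs
        have h1 := len_grps N₁ m gs hgs
        have h2 := ih gs.length (m * w * dph N₁ ν w)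
        have h3 : 3 ^ gs.length ≤ 3 ^ (m + 1) :=
          Nat.pow_le_pow_right (by norm_num) (by omega)
        have h4 : m * w * dph N₁ ν w + 1 ≤ (m + 1) * w * dph N₁ ν w + 1 := by
          have : m * w * dph N₁ ν w ≤ (m + 1) * w * dph N₁ ν w :=
            Nat.mul_le_mul_right _ (Nat.mul_le_mul_right _ (Nat.le_succ m))
          omega
        have h5 : gs.length * w * dph N₁ ν w + 1 ≤ (m + 1) * w * dph N₁ ν w + 1 := by
          have : gs.length * w * dph N₁ ν w ≤ (m + 1) * w * dph N₁ ν w :=
            Nat.mul_le_mul_right _ (Nat.mul_le_mul_right _ (by omega))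
          omega
        refine h2.trans ?_
        have h6 : 3 ^ gs.length * (m * w * dph N₁ ν w + 1) ^ 2 ≤ E := by
          rw [hE]
          exact Nat.mul_le_mul h3 (Nat.pow_le_pow_left h4 2)
        have h7 : 3 ^ gs.length * (gs.length * w * dph N₁ ν w + 1) ^ 2 ≤ E := by
          rw [hE]
          exact Nat.mul_le_mul h3 (Nat.pow_le_pow_left h5 2)
        calc _ ≤ E * E ^ P := Nat.mul_le_mul h6 (Nat.pow_le_pow_left h7 P)
          _ = E ^ (P + 1) := (pow_succ' E P).symm
      have h2 : ∀ t e : ℕ, ((grps N₁ m).flatMap fun gs =>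
              (core N₁ ν w P gs.length (m * w * dph N₁ ν w)).map fun z =>
                shf (t : ℤ) ((e : ℤ) + 1) (evs (qb (Qf N₁ w) w ν) gs z)).length ≤
            3 ^ m * E ^ (P + 1) := by
        intro t e
        refine (Crd_flat _ (E ^ (P + 1)) _ ?_).trans
          (Nat.mul_le_mul_right _ (length_grps N₁ m))
        intro gs hgs
        rw [List.length_map]
        exact hb gs hgs
      have h3 : ∀ t : ℕ, (List.flatMap (fun e : ℕ =>
            (grps N₁ m).flatMap fun gs =>
              (core N₁ ν w P gs.length (m * w * dph N₁ ν w)).map fun z =>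
                shf (t : ℤ) ((e : ℤ) + 1) (evs (qb (Qf N₁ w) w ν) gs z))
            (List.range (D + 1))).length ≤
            (D + 1) * (3 ^ m * E ^ (P + 1)) := by
        intro t
        have := Crd_flat (fun e : ℕ => (grps N₁ m).flatMap fun gs =>
              (core N₁ ν w P gs.length (m * w * dph N₁ ν w)).map fun z =>
                shf (t : ℤ) ((e : ℤ) + 1) (evs (qb (Qf N₁ w) w ν) gs z))
          (3 ^ m * E ^ (P + 1)) (List.range (D + 1)) (fun e _ => h2 t e)
        rwa [Crd_len] at this
      have h4 := Crd_flat (fun t : ℕ => List.flatMap (fun e : ℕ =>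
            (grps N₁ m).flatMap fun gs =>
              (core N₁ ν w P gs.length (m * w * dph N₁ ν w)).map fun z =>
                shf (t : ℤ) ((e : ℤ) + 1) (evs (qb (Qf N₁ w) w ν) gs z))
            (List.range (D + 1)))
          ((D + 1) * (3 ^ m * E ^ (P + 1))) (List.range (D + 1))
          (fun t _ => h3 t)
      rw [Crd_len] at h4
      rw [core]
      refine h4.trans ?_
      calc (D + 1) * ((D + 1) * (3 ^ m * E ^ (P + 1)))
          = 3 ^ m * (D + 1) ^ 2 * E ^ (P + 1) := by ring
        _ ≤ 3 ^ (m + 1) * (D + 1) ^ 2 * E ^ (P + 1) :=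
            Nat.mul_le_mul_right _ (Nat.mul_le_mul_right _
              (Nat.pow_le_pow_right (by norm_num) (Nat.le_succ m)))

/-- the number of points is polynomial in `w` of degree `2 + 18 P` -/
theorem length_core_le (N₁ ν w P m : ℕ) (hN₁ : 1 ≤ N₁) (hw : 1 ≤ w) :
    (core N₁ ν w P m (m * w)).length ≤
      (3 ^ m * (m + 1) ^ 2) * (3 ^ m * (m * (2 * (ν + 5)) ^ (4 * N₁ + 4) * 2 ^ 8 + 1) ^ 2) ^ P *
        w ^ (2 + 18 * P) := by
  refine (length_core N₁ ν w hN₁ hw P m (m * w)).trans ?_
  set A : ℕ := (2 * (ν + 5)) ^ (4 * N₁ + 4) with hA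
  have h1 : m * w + 1 ≤ (m + 1) * w := by
    have : (m + 1) * w = m * w + w := by ring
    omega
  have h2 : (w + 1) ^ 8 ≤ 2 ^ 8 * w ^ 8 := by
    rw [← mul_pow]
    exact Nat.pow_le_pow_left (by omega) 8
  have h3 : dph N₁ ν w ≤ A * (2 ^ 8 * w ^ 8) :=
    (dph_le N₁ ν w hN₁ hw).trans (Nat.mul_le_mul_left _ h2)
  have h4 : m * w * dph N₁ ν w + 1 ≤ (m * A * 2 ^ 8 + 1) * w ^ 9 := by
    have h5 : m * w * dph N₁ ν w ≤ m * w * (A * (2 ^ 8 * w ^ 8)) := Nat.mul_le_mul_left _ h3
    have h6 : m * w * (A * (2 ^ 8 * w ^ 8)) = m * A * 2 ^ 8 * w ^ 9 := by ring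
    have h7 : 1 ≤ w ^ 9 := Nat.one_le_pow _ _ hw
    have h8 : (m * A * 2 ^ 8 + 1) * w ^ 9 = m * A * 2 ^ 8 * w ^ 9 + w ^ 9 := by ring
    rw [h8]
    omega
  calc 3 ^ m * (m * w + 1) ^ 2 * (3 ^ m * (m * w * dph N₁ ν w + 1) ^ 2) ^ P
      ≤ 3 ^ m * ((m + 1) * w) ^ 2 * (3 ^ m * ((m * A * 2 ^ 8 + 1) * w ^ 9) ^ 2) ^ P :=
        Nat.mul_le_mul (Nat.mul_le_mul_left _ (Nat.pow_le_pow_left h1 2))
          (Nat.pow_le_pow_left (Nat.mul_le_mul_left _ (Nat.pow_le_pow_left h4 2)) P)
    _ = 3 ^ m * (m + 1) ^ 2 * (3 ^ m * (m * A * 2 ^ 8 + 1) ^ 2) ^ P * w ^ (2 + 18 * P) := by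
        have h9 : 3 ^ m * ((m * A * 2 ^ 8 + 1) * w ^ 9) ^ 2 =
            (3 ^ m * (m * A * 2 ^ 8 + 1) ^ 2) * w ^ 18 := by ring
        rw [h9, mul_pow (3 ^ m * (m * A * 2 ^ 8 + 1) ^ 2) (w ^ 18) P, ← pow_mul w 18 P, pow_add]
        ring

end Pool.Agent.KNO
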