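import Pool.Agent.KNO.Cor
import Pool.Agent.KNR.Defs

set_option autoImplicit false

/-! KNO-Cvt: the core theorem for polynomials in `MvPolynomial (Fin (N₁ ^ T)) ℂ` with
`KNR.Cut w`: the interface for the window curves. -/

namespace Pool.Agent.KNO

open MvPolynomial

/-- the functions of rows: `fun l => eval (fun i : Fin m => l.getD i 0) H` -/
theorem isPol_fin (m D : ℕ) (H : MvPolynomial (Fin m) ℂ) (hd : H.totalDegree ≤ D) :
    IsPol m D fun l => eval (fun i : Fin m => l.getD (i : ℕ) 0) H := by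
  refine ⟨rename Fin.val H, (totalDegree_rename_le _ _).trans hd, fun l _ => ?_⟩
  rw [eval_rename]
  rfl

theorem nz_fin (m : ℕ) (H : MvPolynomial (Fin m) ℂ) (hH : H ≠ 0) :
    Nz m fun l => eval (fun i : Fin m => l.getD (i : ℕ) 0) H := by
  by_contra hcon
  apply hH
  apply MvPolynomial.funext
  intro x
  rw [map_zero]
  by_contra hx
  apply hcon
  refine ⟨List.ofFn x, by simp, ?_⟩
  have h : (fun i : Fin m => (List.ofFn x).getD (i : ℕ) 0) = x := by
    funext i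
    rw [List.getD_eq_getElem _ _ (by simp)]
    simp
  change eval (fun i : Fin m => (List.ofFn x).getD (i : ℕ) 0) H ≠ 0
  rw [h]
  exact hx

private theorem Cvt_getD (a b : List ℂ) (i p : ℕ) (ha : a.length = p) :
    (a ++ b).getD i 0 = if i < p then a.getD i 0 else b.getD (i - p) 0 := by
  subst ha
  split_ifs with h
  · exact List.getD_append _ _ _ _ h
  · exact List.getD_append_right _ _ _ _ (not_lt.1 h)

theorem cut_fin (m p w : ℕ) (H : MvPolynomial (Fin m) ℂ) (hcut : KNR.Cut w H) (hp : p ≤ m) :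
    CutLe m p w fun l => eval (fun i : Fin m => l.getD (i : ℕ) 0) H := by
  obtain ⟨A, B, hAB⟩ := hcut p
  refine ⟨fun j a => A j fun i => a.1.getD (i : ℕ) 0, fun j b => B j fun i => b.1.getD (i - p : ℕ) 0,
    fun a b => ?_⟩
  have h : (fun i : Fin m => (a.1 ++ b.1).getD (i : ℕ) 0)
      = fun i : Fin m => if (i : ℕ) < p then a.1.getD (i : ℕ) 0 else b.1.getD ((i : ℕ) - p) 0 :=
    funext fun i => Cvt_getD a.1 b.1 i p a.2
  have h2 := hAB (fun i : Fin m => a.1.getD (i : ℕ) 0) (fun i : Fin m => b.1.getD ((i : ℕ) - p) 0)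
  rw [← h] at h2
  exact h2

theorem out_fin (m p w : ℕ) (H : MvPolynomial (Fin m) ℂ) (hcut : KNR.Cut w H) (hp : p < m) :
    OutLe m p w fun l => eval (fun i : Fin m => l.getD (i : ℕ) 0) H := by
  intro v
  obtain ⟨A, B, hAB⟩ := hcut p
  refine ⟨fun j a => A j fun i => a.1.getD (i : ℕ) 0,
    fun j b => B j fun i => (v :: b.1).getD (i - p : ℕ) 0, fun a b => ?_⟩
  have h : (fun i : Fin m => (a.1 ++ v :: b.1).getD (i : ℕ) 0)
      = fun i : Fin m => if (i : ℕ) < p then a.1.getD (i : ℕ) 0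
        else (v :: b.1).getD ((i : ℕ) - p) 0 :=
    funext fun i => Cvt_getD a.1 (v :: b.1) i p a.2
  have h2 := hAB (fun i : Fin m => a.1.getD (i : ℕ) 0)
    (fun i : Fin m => (v :: b.1).getD ((i : ℕ) - p) 0)
  rw [← h] at h2
  exact h2

/-- `core_hits` with `k = 0`, `m = N₁ ^ T`, `D = N₁ ^ T * w`, `cs = replicate (N₁ ^ T - 2) (0, 1)` -/
theorem core_fin (N₁ T w ν : ℕ) (hN₁ : 2 ≤ N₁) (hw : 1 ≤ w)
    (hν : (2 * w + 3) * (N₁ ^ T * w * dph N₁ ν w) < Qf N₁ w ^ (ν + 1))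
    (H : MvPolynomial (Fin (N₁ ^ T)) ℂ) (hH : H ≠ 0)
    (hd : H.totalDegree ≤ N₁ ^ T * w) (hcut : KNR.Cut w H) :
    ∃ l ∈ core N₁ ν w (nph N₁ T) (N₁ ^ T) (N₁ ^ T * w),
      eval (fun i : Fin (N₁ ^ T) => (((l.getD (i : ℕ) 0 : ℤ)) : ℂ)) H ≠ 0 := by
  have hA : AInv N₁ 0 (N₁ ^ T) (Qf N₁ w) w (N₁ ^ T)
      (fun l => eval (fun i : Fin (N₁ ^ T) => l.getD (i : ℕ) 0) H)
      (List.replicate (N₁ ^ T - 2) (0, 1)) := by
    refine ⟨by simp, fun i h => ?_, fun p _ hp => cut_fin _ _ _ H hcut hp.le, fun c hc => ?_, ?_⟩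
    · rw [List.length_replicate] at h
      rw [List.getElem_replicate]
      simp only [pow_zero, Nat.div_one]
      exact out_fin _ _ _ H hcut (by omega)
    · rw [List.eq_of_mem_replicate hc]
      simp
    · simp
  obtain ⟨l, hl, hne⟩ := core_hits N₁ T w ν hN₁ hw hν (nph N₁ T) 0 (N₁ ^ T) (N₁ ^ T * w)
    (fun l => eval (fun i : Fin (N₁ ^ T) => l.getD (i : ℕ) 0) H)
    (List.replicate (N₁ ^ T - 2) (0, 1)) (by omega) (isPol_fin _ _ H hd) (nz_fin _ H hH) hA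
    (by unfold nph; omega) (by omega) (by omega)
  refine ⟨l, hl, ?_⟩
  have h : (fun i : Fin (N₁ ^ T) => (((l.getD (i : ℕ) 0 : ℤ)) : ℂ))
      = fun i : Fin (N₁ ^ T) => (l.map fun x : ℤ => (x : ℂ)).getD (i : ℕ) 0 := by
    funext i
    have h2 := List.getD_map (l := l) (n := (i : ℕ)) (d := (0 : ℤ)) (f := fun x : ℤ => (x : ℂ))
    rw [Int.cast_zero] at h2
    exact h2.symm
  rw [h]
  exact hne

end Pool.Agent.KNO
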