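import Mathlib

set_option autoImplicit false

/-!
KNO: hitting sets for read-once oblivious branching programs in a known order (MP_e2be99_lc).
Basic definitions.  Paper: /team-store/kno_h91b.md (with scalar units), /team-store/kno_h65b.md
(Theorem M), mails 44986, 45034.
-/

namespace Pool.Agent.KNO

/-- `G` is a sum of `r` products. -/
def RankLe {α β : Type*} (r : ℕ) (G : α → β → ℂ) : Prop :=
  ∃ (A : Fin r → α → ℂ) (B : Fin r → β → ℂ), ∀ x y, G x y = ∑ i, A i x * B i y

/-- rows of `m` units -/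
abbrev Ls (m : ℕ) : Type := {l : List ℂ // l.length = m}

/-- bound for the primes -/
def bp (K ν : ℕ) : ℕ := (K * (ν + 1) + 4) ^ 2

/-- primes in `(K, bp K ν]` -/
def prs (K ν : ℕ) : Finset ℕ := (Finset.range (bp K ν + 1)).filter fun p => K < p ∧ p.Prime

/-- degree of a merge of strength `K` -/
def dgq (K ν : ℕ) : ℕ := bp K ν ^ 2

section ring

variable {R : Type*} [CommRing R]

/-- the merging curve of strength `K` is `(q z, z * q z)`, `q = qp K ν` -/
def qp (K ν : ℕ) (z : R) : R := ∏ p ∈ prs K ν, (z ^ p - 1)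

/-- cheap and full merges -/
def qb (Q w ν : ℕ) (b : Bool) : R → R := qp (if b then w + 1 else Q) ν

/-- a group: the head of the word is the last merge -/
def cat (q : Bool → R → R) : List Bool → R → List R
  | [], z => [z]
  | b :: g, z => cat q g (q b z) ++ [z * q b z]

/-- a row of groups -/
def evs (q : Bool → R → R) : List (List Bool) → List R → List R
  | g :: gs, z :: zs => cat q g z ++ evs q gs zs
  | _, _ => []

/-- prefix sums, `pre [z₀, z₁, ..] = [0, z₀, z₀ + z₁, ..]` -/
def pre (l : List R) : List R := l.scanl (· + ·) 0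

/-- `t + e y`, `y` the prefix sums of `l` -/
def shf (t e : R) (l : List R) : List R := (pre l).map fun y => t + e * y

end ring

/-- polynomials of degree `≤ D` in `m` units -/
def IsPol (m D : ℕ) (F : List ℂ → ℂ) : Prop :=
  ∃ p : MvPolynomial ℕ ℂ, p.totalDegree ≤ D ∧
    ∀ l : List ℂ, l.length = m → F l = MvPolynomial.eval (fun i => l.getD i 0) p

/-- not the zero function on rows of `m` units -/
def Nz (m : ℕ) (F : List ℂ → ℂ) : Prop := ∃ l : List ℂ, l.length = m ∧ F l ≠ 0

/-- cut rank `≤ r` after the first `p` units -/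
def CutLe (m p r : ℕ) (F : List ℂ → ℂ) : Prop :=
  RankLe r fun (a : Ls p) (b : Ls (m - p)) => F (a.1 ++ b.1)

/-- outer rank `≤ r` of the unit number `p` (counted from `0`) -/
def OutLe (m p r : ℕ) (F : List ℂ → ℂ) : Prop :=
  ∀ v : ℂ, RankLe r fun (a : Ls p) (b : Ls (m - p - 1)) => F (a.1 ++ v :: b.1)

/-- state A of phase `k`: inner units with (label, size) -/
structure AInv (N₁ k N Q w m : ℕ) (F : List ℂ → ℂ) (cs : List (ℕ × ℕ)) : Prop where
  len : cs.length = m - 2
  out : ∀ (i : ℕ) (h : i < cs.length), OutLe m (i + 1) (w / Q ^ (cs[i]).1) F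
  cut : ∀ p, 1 ≤ p → p < m → CutLe m p w F
  grow : ∀ c ∈ cs, N₁ ^ k ≤ c.2 * N₁ ^ c.1
  sum : (cs.map Prod.snd).sum ≤ N

/-- state B of phase `k`: cuts with (label, size) -/
structure BInv (N₁ k N Q w m : ℕ) (F : List ℂ → ℂ) (cs : List (ℕ × ℕ)) : Prop where
  len : cs.length = m - 1
  cut : ∀ (i : ℕ) (h : i < cs.length), CutLe m (i + 1) (w / Q ^ (cs[i]).1) F
  grow : ∀ c ∈ cs, N₁ ^ k ≤ c.2 * N₁ ^ c.1
  sum : (cs.map Prod.snd).sum ≤ N

/-- moves: `none` starts a new group, `some b` merges the next unit into the group -/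
def dec : List Bool → List (Option Bool) → List (List Bool)
  | g, [] => [g]
  | g, none :: ms => g :: dec [] ms
  | g, some b :: ms => dec (b :: g) ms

/-- words of length `n` -/
def vecs : ℕ → List (List (Option Bool))
  | 0 => [[]]
  | n + 1 => (vecs n).flatMap fun v => [none :: v, some false :: v, some true :: v]

/-- admissible groups -/
def okg (N₁ : ℕ) (g : List Bool) : Bool :=
  decide (g.count false ≤ N₁) && decide (g.count true ≤ 1)

/-- the rows of admissible groups on `m` units -/
def grps (N₁ : ℕ) : ℕ → List (List (List Bool))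
  | 0 => [[]]
  | n + 1 => ((vecs n).map (dec [])).filter fun gs => gs.all (okg N₁)

/-- the strength of the cheap merges: `w < Qf N₁ w ^ N₁` -/
def Qf (N₁ w : ℕ) : ℕ := Nat.findGreatest (fun q => q ^ N₁ ≤ w) w + 1

/-- degree growth of a phase -/
def dph (N₁ ν w : ℕ) : ℕ := dgq (Qf N₁ w) ν ^ N₁ * dgq (w + 1) ν

/-- the core hitting sets: rows of `m` units, degree `≤ D`, `P` phases -/
def core (N₁ ν w : ℕ) : ℕ → ℕ → ℕ → List (List ℤ)
  | _, 0, _ => [[]]
  | 0, _ + 1, _ => []
  | P + 1, m + 1, D =>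
    (List.range (D + 1)).flatMap fun t : ℕ => (List.range (D + 1)).flatMap fun e : ℕ =>
      (grps N₁ m).flatMap fun gs =>
        (core N₁ ν w P gs.length (m * w * dph N₁ ν w)).map fun z =>
          shf (t : ℤ) ((e : ℤ) + 1) (evs (qb (Qf N₁ w) w ν) gs z)

/-- number of phases -/
def nph (N₁ T : ℕ) : ℕ := N₁ + T + 2

/-- total number of units of a row of groups -/
def tot (gs : List (List Bool)) : ℕ := (gs.map fun g => g.length + 1).sum

/-- `glue c l r` is `l` before `c` and `r` from `c` on -/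
def glue (c : ℕ) (l r : ℕ → ℂ) (k : ℕ) : ℂ := if k < c then l k else r k

/-- cut ranks of polynomials by determinants of values -/
def CutD (c m : ℕ) (F : MvPolynomial ℕ ℂ) : Prop :=
  ∀ l r : Fin (m + 1) → ℕ → ℂ,
    (Matrix.of fun i j => MvPolynomial.eval (glue c (l i) (r j)) F).det = 0

end Pool.Agent.KNO
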