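import Pool.Agent.KNO.Cat

set_option autoImplicit false

/-! KNO-Deg: degrees of rows of groups. -/

namespace Pool.Agent.KNO

open MvPolynomial

private theorem deg_subst {σ τ : Type*} (p : MvPolynomial σ ℂ) (f : σ → MvPolynomial τ ℂ) (B D : ℕ)
    (hp : p.totalDegree ≤ D) (hf : ∀ i, (f i).totalDegree ≤ B) :
    (eval₂ C f p).totalDegree ≤ D * B := by
  rw [eval₂_eq]
  refine totalDegree_finsetSum_le fun d hd => ?_
  refine (totalDegree_mul _ _).trans ?_
  rw [totalDegree_C, zero_add]
  refine (totalDegree_finsetProd _ _).trans ?_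
  calc ∑ i ∈ d.support, (f i ^ d i).totalDegree ≤ ∑ i ∈ d.support, d i * B :=
        Finset.sum_le_sum fun i _ => (totalDegree_pow _ _).trans (Nat.mul_le_mul_left _ (hf i))
    _ = (∑ i ∈ d.support, d i) * B := (Finset.sum_mul _ _ _).symm
    _ ≤ D * B := Nat.mul_le_mul_right _ ((le_totalDegree hd).trans hp)

private theorem deg_eval {σ τ : Type*} (p : MvPolynomial σ ℂ) (f : σ → MvPolynomial τ ℂ)
    (g : τ → ℂ) : eval g (eval₂ C f p) = eval (fun i => eval g (f i)) p := by
  rw [eval₂_comp_left]
  have h : (eval g).comp (C : ℂ →+* MvPolynomial τ ℂ) = RingHom.id ℂ := by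
    ext x
    simp
  rw [h]
  rfl

private theorem deg_dgq_pos (K ν : ℕ) : 1 ≤ dgq K ν := (Nat.le_add_right 1 _).trans (sum_prs K ν)

/-- one merge multiplies the degree by at most `d b` -/
private noncomputable def deg_d (Q w ν : ℕ) (b : Bool) : ℕ := dgq (if b then w + 1 else Q) ν

private theorem deg_qp {τ : Type*} (K ν e : ℕ) (z : MvPolynomial τ ℂ) (hz : z.totalDegree ≤ e) :
    e + (qp K ν z).totalDegree ≤ dgq K ν * e := by
  have h1 : (qp K ν z).totalDegree ≤ ∑ p ∈ prs K ν, p * e := by
    unfold qp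
    refine (totalDegree_finsetProd _ _).trans (Finset.sum_le_sum fun p _ => ?_)
    refine (totalDegree_sub _ _).trans ?_
    rw [totalDegree_one]
    exact max_le ((totalDegree_pow _ _).trans (Nat.mul_le_mul_left _ hz)) (Nat.zero_le _)
  rw [← Finset.sum_mul] at h1
  calc e + (qp K ν z).totalDegree ≤ e + (∑ p ∈ prs K ν, p) * e := Nat.add_le_add_left h1 _
    _ = (1 + ∑ p ∈ prs K ν, p) * e := by ring
    _ ≤ dgq K ν * e := Nat.mul_le_mul_right _ (sum_prs K ν)

private theorem deg_cat {τ : Type*} (Q w ν : ℕ) (g : List Bool) (e : ℕ) (z : MvPolynomial τ ℂ)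
    (hz : z.totalDegree ≤ e) :
    ∀ y ∈ cat (qb Q w ν) g z, y.totalDegree ≤ (g.map (deg_d Q w ν)).prod * e := by
  induction g generalizing z e with
  | nil =>
    intro y hy
    simp only [cat, List.mem_cons, List.not_mem_nil, or_false] at hy
    subst hy
    simpa using hz
  | cons b g ih =>
    intro y hy
    have h0 := deg_qp (if b then w + 1 else Q) ν e z hz
    have h1 : (qb Q w ν b z).totalDegree ≤ deg_d Q w ν b * e :=
      (Nat.le_add_left _ e).trans h0
    simp only [cat, List.mem_append, List.mem_cons, List.not_mem_nil, or_false] at hy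
    rw [List.map_cons, List.prod_cons]
    rcases hy with hy | hy
    · have h2 := ih (deg_d Q w ν b * e) (qb Q w ν b z) h1 y hy
      refine h2.trans (le_of_eq ?_)
      ring
    · subst hy
      have h3 : (z * qb Q w ν b z).totalDegree ≤ deg_d Q w ν b * e :=
        (totalDegree_mul _ _).trans ((Nat.add_le_add_right hz _).trans h0)
      have h4 : 1 ≤ (g.map (deg_d Q w ν)).prod := by
        refine Nat.one_le_iff_ne_zero.2 (List.prod_ne_zero ?_)
        intro h
        obtain ⟨c, -, hc⟩ := List.mem_map.1 h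
        have := deg_dgq_pos (if c then w + 1 else Q) ν
        unfold deg_d at hc
        omega
      calc (z * qb Q w ν b z).totalDegree ≤ 1 * (deg_d Q w ν b * e) := by rw [one_mul]; exact h3
        _ ≤ (g.map (deg_d Q w ν)).prod * (deg_d Q w ν b * e) := Nat.mul_le_mul_right _ h4
        _ = deg_d Q w ν b * (g.map (deg_d Q w ν)).prod * e := by ring

private theorem deg_prod (Q w ν : ℕ) (g : List Bool) :
    (g.map (deg_d Q w ν)).prod = dgq Q ν ^ (g.count false) * dgq (w + 1) ν ^ (g.count true) := by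
  induction g with
  | nil => simp
  | cons b g ih =>
    rw [List.map_cons, List.prod_cons, ih]
    cases b with
    | false =>
      rw [List.count_cons_self, List.count_cons_of_ne (by decide), pow_succ]
      simp only [deg_d, Bool.false_eq_true, if_false]
      ring
    | true =>
      rw [List.count_cons_self, List.count_cons_of_ne (by decide), pow_succ]
      simp only [deg_d, if_true]
      ring

private theorem deg_ok (N₁ Q w ν : ℕ) (g : List Bool) (hg : okg N₁ g = true) :
    (g.map (deg_d Q w ν)).prod ≤ dgq Q ν ^ N₁ * dgq (w + 1) ν := by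
  rw [deg_prod]
  simp only [okg, Bool.and_eq_true, decide_eq_true_eq] at hg
  refine Nat.mul_le_mul (Nat.pow_le_pow_right (deg_dgq_pos Q ν) hg.1) ?_
  calc dgq (w + 1) ν ^ (g.count true) ≤ dgq (w + 1) ν ^ 1 :=
        Nat.pow_le_pow_right (deg_dgq_pos _ ν) hg.2
    _ = dgq (w + 1) ν := pow_one _

private theorem deg_evs {τ : Type*} (N₁ Q w ν : ℕ) (gs : List (List Bool))
    (hg : ∀ g ∈ gs, okg N₁ g = true) (zs : List (MvPolynomial τ ℂ))
    (hz : ∀ z ∈ zs, z.totalDegree ≤ 1) :
    ∀ y ∈ evs (qb Q w ν) gs zs, y.totalDegree ≤ dgq Q ν ^ N₁ * dgq (w + 1) ν := by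
  induction gs generalizing zs with
  | nil =>
    intro y hy
    simp [evs] at hy
  | cons g gs ih =>
    cases zs with
    | nil =>
      intro y hy
      simp [evs] at hy
    | cons z zs =>
      intro y hy
      simp only [evs, List.mem_append] at hy
      rcases hy with hy | hy
      · have h1 := deg_cat Q w ν g 1 z (hz z (by simp)) y hy
        rw [mul_one] at h1
        exact h1.trans (deg_ok N₁ Q w ν g (hg g (by simp)))
      · exact ih (fun g hg' => hg g (by simp [hg'])) zs (fun z hz' => hz z (by simp [hz'])) y hy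

private theorem deg_getD {τ : Type*} (L : List (MvPolynomial τ ℂ)) (B : ℕ)
    (h : ∀ y ∈ L, y.totalDegree ≤ B) (i : ℕ) : (L.getD i 0).totalDegree ≤ B := by
  rcases Nat.lt_or_ge i L.length with hi | hi
  · rw [List.getD_eq_getElem _ _ hi]
    exact h _ (List.getElem_mem hi)
  · rw [List.getD_eq_default _ _ hi, totalDegree_zero]
    exact Nat.zero_le _

/-- the general substitution -/
private theorem deg_main {τ : Type*} (m D B : ℕ) (F : List ℂ → ℂ) (hF : IsPol m D F)
    (L : List (MvPolynomial τ ℂ)) (hL : L.length = m) (hB : ∀ y ∈ L, y.totalDegree ≤ B) :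
    ∃ p : MvPolynomial τ ℂ, p.totalDegree ≤ D * B ∧ ∀ g : τ → ℂ,
      F (L.map (eval g)) = eval g p := by
  obtain ⟨p, hp, h⟩ := hF
  refine ⟨eval₂ C (fun i => L.getD i 0) p, deg_subst p _ B D hp (deg_getD L B hB), fun g => ?_⟩
  rw [h _ (by rw [List.length_map, hL]), deg_eval]
  refine congrArg (fun f : ℕ → ℂ => eval f p) (_root_.funext fun i => ?_)
  rcases Nat.lt_or_ge i L.length with hi | hi
  · rw [List.getD_eq_getElem _ _ (by rw [List.length_map]; exact hi),
      List.getD_eq_getElem _ _ hi, List.getElem_map]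
  · rw [List.getD_eq_default _ _ (by rw [List.length_map]; exact hi),
      List.getD_eq_default _ _ hi, map_zero]

/-- apply `cat`, `evs` in the polynomial ring -/
theorem evs_pol (N₁ Q w ν m D : ℕ) (F : List ℂ → ℂ) (hF : IsPol m D F) (gs : List (List Bool))
    (hm : tot gs = m) (hg : ∀ g ∈ gs, okg N₁ g = true) :
    IsPol gs.length (D * (dgq Q ν ^ N₁ * dgq (w + 1) ν))
      fun z => F (evs (qb Q w ν) gs z) := by
  have hlen : ((List.range gs.length).map (X : ℕ → MvPolynomial ℕ ℂ)).length = gs.length := by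
    simp
  obtain ⟨p, hp, h⟩ := deg_main m D (dgq Q ν ^ N₁ * dgq (w + 1) ν) F hF
    (evs (qb Q w ν) gs ((List.range gs.length).map X))
    (by rw [length_evs _ _ _ hlen, hm])
    (deg_evs N₁ Q w ν gs hg _ fun z hz => by
      obtain ⟨i, -, rfl⟩ := List.mem_map.1 hz
      rw [totalDegree_X])
  refine ⟨p, hp, fun l hl => ?_⟩
  rw [← h, map_evs]
  congr 2
  rw [List.map_map]
  apply List.ext_getElem
  · simp [hl]
  · intro i h1 h2
    simp [List.getElem?_eq_getElem h1]

/-- the same in one group, the next unit free -/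
theorem step_pol (N₁ Q w ν m D : ℕ) (F : List ℂ → ℂ) (hF : IsPol m D F)
    (done : List (List Bool)) (cur : List Bool) (n : ℕ)
    (hm : tot done + cur.length + 1 + (n + 1) = m)
    (hcur : okg N₁ cur = true) (x r : List ℂ) (hx : x.length = done.length) (hr : r.length = n) :
    ∃ p : MvPolynomial (Fin 2) ℂ, p.totalDegree ≤ D * (dgq Q ν ^ N₁ * dgq (w + 1) ν) ∧
      ∀ u v : ℂ, F (evs (qb Q w ν) done x ++ cat (qb Q w ν) cur u ++ v :: r) =
        eval ![u, v] p := by
  have hB : 1 ≤ dgq Q ν ^ N₁ * dgq (w + 1) ν :=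
    Nat.mul_pos (Nat.pow_pos (deg_dgq_pos Q ν)) (deg_dgq_pos _ ν)
  obtain ⟨p, hp, h⟩ := deg_main (τ := Fin 2) m D (dgq Q ν ^ N₁ * dgq (w + 1) ν) F hF
    ((evs (qb Q w ν) done x).map C ++ cat (qb Q w ν) cur (X 0) ++ X 1 :: r.map C)
    (by
      simp only [List.length_append, List.length_map, List.length_cons, length_cat,
        length_evs _ _ _ hx, hr]
      omega)
    (by
      intro y hy
      simp only [List.mem_append, List.mem_cons, List.mem_map] at hy
      rcases hy with (⟨c, -, rfl⟩ | hy) | rfl | ⟨c, -, rfl⟩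
      · rw [totalDegree_C]; exact Nat.zero_le _
      · have h1 := deg_cat Q w ν cur 1 (X 0 : MvPolynomial (Fin 2) ℂ) (totalDegree_X _).le y hy
        rw [mul_one] at h1
        exact h1.trans (deg_ok N₁ Q w ν cur hcur)
      · rw [totalDegree_X]; exact hB
      · rw [totalDegree_C]; exact Nat.zero_le _)
  refine ⟨p, hp, fun u v => ?_⟩
  rw [← h]
  have h2 : (cat (qb Q w ν) cur (X 0 : MvPolynomial (Fin 2) ℂ)).map (eval ![u, v]) =
      cat (qb Q w ν) cur u := by
    have h3 := map_evs (eval ![u, v]) Q w ν [cur] [(X 0 : MvPolynomial (Fin 2) ℂ)]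
    simpa [evs] using h3
  have h4 : ∀ l : List ℂ, (l.map (C : ℂ → MvPolynomial (Fin 2) ℂ)).map (eval ![u, v]) = l := by
    intro l
    rw [List.map_map]
    conv_rhs => rw [← List.map_id l]
    refine List.map_congr_left fun a _ => ?_
    simp
  rw [List.map_append, List.map_append, List.map_cons, h2, h4, h4]
  simp

end Pool.Agent.KNO
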