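import Mathlib

/-! Known-order ROABPs: there are at least `m` primes up to `m ^ 2` (`m ≥ 2`). -/

namespace PoolKNO

open Real

theorem le_primeCounting_sq_large {m : ℕ} (hm : 9 ≤ m) : m ≤ Nat.primeCounting (m ^ 2) := by
  have h1 := Chebyshev.pi_ge (m ^ 2)
  have hm' : (9 : ℝ) ≤ m := by exact_mod_cast hm
  have hm0 : (0 : ℝ) < m := by linarith
  have hlog9 : (0 : ℝ) < Real.log m := Real.log_pos (by linarith)
  have hl2 := Real.log_two_lt_d9
  have hl2' := Real.log_two_gt_d9
  -- upper bound for `log m`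
  have hlog : Real.log m ≤ 4 * Real.log 2 - 1 + m / 16 := by
    have h16 : Real.log (m / 16) ≤ m / 16 - 1 := Real.log_le_sub_one_of_pos (by positivity)
    have hd : Real.log (m / 16) = Real.log m - Real.log 16 :=
      Real.log_div (by positivity) (by norm_num)
    have h16' : Real.log (16 : ℝ) = 4 * Real.log 2 := by
      rw [show (16 : ℝ) = 2 ^ 4 by norm_num, Real.log_pow]; norm_num
    linarith
  have hsq : Real.log ((m : ℝ) ^ 2) = 2 * Real.log m := by
    rw [Real.log_pow]; norm_num
  have hsq1 : Real.log ((m : ℝ) ^ 2 + 1) ≤ Real.log 2 + 2 * Real.log m := by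
    have : Real.log ((m : ℝ) ^ 2 + 1) ≤ Real.log (2 * (m : ℝ) ^ 2) :=
      Real.log_le_log (by positivity) (by nlinarith)
    rw [Real.log_mul (by norm_num) (by positivity), hsq] at this
    exact this
  have hkey : (m : ℝ) * (2 * Real.log m) ≤ (m : ℝ) ^ 2 * Real.log 2 - Real.log ((m : ℝ) ^ 2 + 1) := by
    nlinarith [mul_le_mul_of_nonneg_left hlog hm0.le]
  have h2 : (m : ℝ) ≤ ((m : ℝ) ^ 2 * Real.log 2 - Real.log ((m : ℝ) ^ 2 + 1)) /
      Real.log ((m : ℝ) ^ 2) := by
    rw [hsq, le_div_iff₀ (by positivity)]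
    exact hkey
  have h3 : (m : ℝ) ≤ (Nat.primeCounting (m ^ 2) : ℝ) := by
    refine h2.trans ?_
    have := h1
    push_cast at this
    exact this
  exact_mod_cast h3

/-- There are at least `m` primes up to `m ^ 2`. -/
theorem le_primeCounting_sq {m : ℕ} (hm : 2 ≤ m) : m ≤ Nat.primeCounting (m ^ 2) := by
  rcases Nat.lt_or_ge m 9 with h | h
  · interval_cases m <;> decide +kernel
  · exact le_primeCounting_sq_large h

/-- There are at least `K * (ν + 1)` primes up to `(K * (ν + 1) + 4) ^ 2`, hence at least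
`K * ν` in `(K, (K * (ν + 1) + 4) ^ 2]`. -/
theorem card_primes_Ioc_ge (K ν : ℕ) :
    K * ν ≤ ((Finset.Ioc K ((K * (ν + 1) + 4) ^ 2)).filter Nat.Prime).card := by
  set X := (K * (ν + 1) + 4) ^ 2 with hX
  have h1 : K * (ν + 1) + 4 ≤ Nat.primeCounting X := le_primeCounting_sq (by omega)
  have h2 : Nat.primeCounting X = ((Finset.Iic X).filter Nat.Prime).card := by
    rw [Nat.primeCounting, Nat.primeCounting', Nat.count_eq_card_filter_range]
    congr 1
    ext p
    simp
  have h3 : (Finset.Iic X).filter Nat.Prime ⊆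
      (Finset.Icc 1 K) ∪ ((Finset.Ioc K X).filter Nat.Prime) := by
    intro p hp
    simp only [Finset.mem_filter, Finset.mem_Iic, Finset.mem_union, Finset.mem_Icc,
      Finset.mem_Ioc] at hp ⊢
    rcases Nat.lt_or_ge K p with h | h
    · right; exact ⟨⟨h, hp.1⟩, hp.2⟩
    · left; exact ⟨hp.2.one_lt.le, h⟩
  have h4 := Finset.card_le_card h3
  have h5 := Finset.card_union_le (Finset.Icc 1 K) ((Finset.Ioc K X).filter Nat.Prime)
  rw [Nat.card_Icc] at h5
  rw [h2] at h1
  have h6 : K * (ν + 1) = K * ν + K := by ring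
  omega

/-- At most `ν` elements of a set of primes larger than `K` divide `h`, if `0 < h < K ^ (ν + 1)`. -/
theorem card_dvd_le_of_lt_pow {K ν h : ℕ} (S : Finset ℕ) (hS : ∀ p ∈ S, p.Prime ∧ K < p)
    (h0 : 0 < h) (hh : h < K ^ (ν + 1)) : (S.filter (· ∣ h)).card ≤ ν := by
  by_contra hcon
  push Not at hcon
  set T := S.filter (· ∣ h) with hT
  have hprod : ∏ p ∈ T, p ∣ h := by
    refine Finset.prod_primes_dvd h ?_ ?_
    · intro p hp
      exact (hS p (Finset.mem_filter.mp hp).1).1.prime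
    · intro p hp
      exact (Finset.mem_filter.mp hp).2
  have hle := Nat.le_of_dvd h0 hprod
  have hKT : K ^ T.card ≤ ∏ p ∈ T, p := by
    rw [← Finset.prod_const]
    refine Finset.prod_le_prod' ?_
    intro p hp
    exact (hS p (Finset.mem_filter.mp hp).1).2.le
  have hK : 0 < K := by
    rcases Nat.eq_zero_or_pos K with hK | hK
    · subst hK; simp at hh
    · exact hK
  have : K ^ (ν + 1) ≤ K ^ T.card := Nat.pow_le_pow_right hK hcon
  omega

end PoolKNO
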