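import Pool.Agent.KNO.Defs
import Pool.Agent.KNO.PrimeSq

set_option autoImplicit false

/-! KNO-Prs: the primes of a merging curve. -/

namespace Pool.Agent.KNO

/-- enough primes (Chebyshev: `π (n ^ 2) ≥ n - 3`, `n = K (ν + 1) + 4`) -/
theorem card_prs (K ν : ℕ) : K * ν + 1 ≤ (prs K ν).card := by
  have h1 : K * (ν + 1) + 4 ≤ Nat.primeCounting ((K * (ν + 1) + 4) ^ 2) :=
    PoolKNO.le_primeCounting_sq (by omega)
  have h2 : Nat.primeCounting ((K * (ν + 1) + 4) ^ 2) =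
      ((Finset.Iic ((K * (ν + 1) + 4) ^ 2)).filter Nat.Prime).card := by
    rw [Nat.primeCounting, Nat.primeCounting', Nat.count_eq_card_filter_range]
    congr 1
    ext p
    simp
  have h3 : (Finset.Iic ((K * (ν + 1) + 4) ^ 2)).filter Nat.Prime ⊆ (Finset.Icc 1 K) ∪ prs K ν := by
    intro p hp
    rw [Finset.mem_filter, Finset.mem_Iic] at hp
    rw [Finset.mem_union]
    rcases Nat.lt_or_ge K p with h | h
    · right
      rw [prs, Finset.mem_filter, Finset.mem_range, bp]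
      exact ⟨Nat.lt_succ_of_le hp.1, h, hp.2⟩
    · left
      rw [Finset.mem_Icc]
      exact ⟨hp.2.one_lt.le, h⟩
  have h4 := Finset.card_le_card h3
  have h5 := Finset.card_union_le (Finset.Icc 1 K) (prs K ν)
  rw [Nat.card_Icc] at h5
  rw [h2] at h1
  have h6 : K * (ν + 1) = K * ν + K := by ring
  omega

/-- a product of more than `ν` primes `> K` is `≥ K ^ (ν + 1)` -/
theorem prs_div (K ν h : ℕ) (h0 : 0 < h) (hh : h < K ^ (ν + 1)) :
    ((prs K ν).filter fun p => p ∣ h).card ≤ ν := by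
  refine PoolKNO.card_dvd_le_of_lt_pow (prs K ν) ?_ h0 hh
  intro p hp
  have h1 := (Finset.mem_filter.1 hp).2
  exact ⟨h1.2, h1.1⟩

theorem sum_prs (K ν : ℕ) : 1 + ∑ p ∈ prs K ν, p ≤ dgq K ν := by
  have hb : 1 ≤ bp K ν := Nat.one_le_pow _ _ (by omega)
  have hsub : prs K ν ⊆ Finset.Icc 2 (bp K ν) := by
    intro p hp
    have h1 := Finset.mem_filter.1 hp
    rw [Finset.mem_Icc]
    exact ⟨h1.2.2.two_le, Nat.lt_succ_iff.1 (Finset.mem_range.1 h1.1)⟩
  have hc : (prs K ν).card ≤ bp K ν - 1 := by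
    have h2 := Finset.card_le_card hsub
    rw [Nat.card_Icc] at h2
    omega
  have hs : ∑ p ∈ prs K ν, p ≤ (prs K ν).card * bp K ν := by
    rw [← smul_eq_mul]
    exact Finset.sum_le_card_nsmul _ _ _ fun p hp => (Finset.mem_Icc.1 (hsub hp)).2
  have h3 : (prs K ν).card * bp K ν ≤ (bp K ν - 1) * bp K ν := Nat.mul_le_mul_right _ hc
  have h4 : (bp K ν - 1) * bp K ν + bp K ν = bp K ν ^ 2 := by
    obtain ⟨t, ht⟩ := Nat.exists_eq_add_of_le hb
    rw [ht]
    have : 1 + t - 1 = t := by omega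
    rw [this]
    ring
  unfold dgq
  omega

end Pool.Agent.KNO
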