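import Pool.Agent.KNO.Rk
import Pool.Agent.KNO.Prs
import Pool.Agent.KNM.Api

set_option autoImplicit false

/-! KNO-Dich: a killed merge of strength `K` has outer rank `≤ r / K` (helper65's Theorem M). -/

namespace Pool.Agent.KNO

open MvPolynomial

private noncomputable def Dich_e : ℕ × ℕ ↪ (Fin 2 →₀ ℕ) where
  toFun q := Finsupp.single 0 q.1 + Finsupp.single 1 q.2
  inj' := by
    intro q q' h
    have h0 := DFunLike.congr_fun h 0
    have h1 := DFunLike.congr_fun h 1
    simp at h0 h1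
    exact Prod.ext h0 h1

private theorem Dich_e_zero (q : ℕ × ℕ) : Dich_e q 0 = q.1 := by
  show (Finsupp.single 0 q.1 + Finsupp.single 1 q.2 : Fin 2 →₀ ℕ) 0 = q.1
  simp

private theorem Dich_e_one (q : ℕ × ℕ) : Dich_e q 1 = q.2 := by
  show (Finsupp.single 0 q.1 + Finsupp.single 1 q.2 : Fin 2 →₀ ℕ) 1 = q.2
  simp

private theorem Dich_eval (D : ℕ) (p : MvPolynomial (Fin 2) ℂ) (hp : p.totalDegree ≤ D) (a b : ℂ) :
    eval ![a, b] p = ∑ u ∈ Finset.range (D + 1), ∑ v ∈ Finset.range (D + 1),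
      p.coeff (Dich_e (u, v)) * a ^ u * b ^ v := by
  have hsub : p.support ⊆ ((Finset.range (D + 1)) ×ˢ (Finset.range (D + 1))).map Dich_e := by
    intro d hd
    have h1 := (MvPolynomial.le_totalDegree hd).trans hp
    rw [Finsupp.sum_fintype _ _ (fun _ => rfl), Fin.sum_univ_two] at h1
    rw [Finset.mem_map]
    refine ⟨(d 0, d 1), ?_, ?_⟩
    · rw [Finset.mem_product, Finset.mem_range, Finset.mem_range]
      constructor <;> simp only <;> omega
    · ext i
      fin_cases i
      · exact Dich_e_zero (d 0, d 1)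
      · exact Dich_e_one (d 0, d 1)
  rw [MvPolynomial.eval_eq', Finset.sum_subset hsub, Finset.sum_map, Finset.sum_product]
  · refine Finset.sum_congr rfl fun u _ => Finset.sum_congr rfl fun v _ => ?_
    rw [Fin.prod_univ_two, mul_assoc, Dich_e_zero, Dich_e_one]
    rfl
  · intro d _ hd
    rw [MvPolynomial.notMem_support_iff.1 hd, zero_mul]

theorem dich (K ν r D : ℕ) (hK : 1 ≤ K) (hD : (2 * (r / K + 1) + 1) * D < K ^ (ν + 1))
    {X Y : Type} (G : X → ℂ → ℂ → Y → ℂ)
    (hpol : ∀ x y, ∃ p : MvPolynomial (Fin 2) ℂ, p.totalDegree ≤ D ∧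
      ∀ u v : ℂ, G x u v y = eval ![u, v] p)
    (hr : RankLe r fun (a : X × ℂ) (b : ℂ × Y) => G a.1 a.2 b.1 b.2)
    (h0 : ∀ x (z : ℂ) y, G x (qp K ν z) (z * qp K ν z) y = 0) (u v : ℂ) :
    RankLe (r / K) fun x y => G x u v y := by
  choose p hp hpe using hpol
  obtain ⟨A, B, hAB⟩ := hr
  have hq : ∀ z : ℂ, (KNM.qq (prs K ν)).eval z = qp K ν z := by
    intro z
    unfold KNM.qq qp
    rw [Polynomial.eval_prod]
    refine Finset.prod_congr rfl fun i _ => ?_
    simp
  have hmain := KNM.dichR (Λ := X) (Ρ := Y) D (fun x a b y => (p x y).coeff (Dich_e (a, b))) G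
    (by
      intro x a b y
      rw [hpe x y a b]
      exact Dich_eval D (p x y) (hp x y) a b)
    r A B (by
      intro l x y ρ
      exact hAB (l, x) (y, ρ))
    (prs K ν) (by
      intro i hi
      exact ((Finset.mem_filter.1 hi).2.2).pos) ν (r / K)
    (by
      intro h h1 h2
      refine prs_div K ν h h1 ?_
      have h3 : D + 2 * (r / K + 1) * D = (2 * (r / K + 1) + 1) * D := by ring
      omega)
    (by
      intro l ρ z
      rw [hq z]
      exact h0 l z ρ)
    (by
      have h1 : r < K * (r / K + 1) := Nat.lt_mul_div_succ r (by omega)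
      have h2 := card_prs K ν
      calc ν * r < ν * (K * (r / K + 1)) + (r / K + 1) := by
            have h3 : ν * r ≤ ν * (K * (r / K + 1)) := Nat.mul_le_mul_left _ h1.le
            exact lt_of_le_of_lt h3 (Nat.lt_add_of_pos_right (Nat.succ_pos _))
        _ = (r / K + 1) * (K * ν + 1) := by ring
        _ ≤ (r / K + 1) * (prs K ν).card := Nat.mul_le_mul_left _ h2)
    u v
  obtain ⟨f, g, hfg⟩ := hmain
  exact ⟨f, g, hfg⟩

end Pool.Agent.KNO
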