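import Pool.Agent.KNO.Add

set_option autoImplicit false

/-! KNO-Dif: a translation invariant form in the differences. -/

namespace Pool.Agent.KNO

open Polynomial

private theorem Dif_scan_add (l : List ℂ) (c d : ℂ) :
    l.scanl (· + ·) (c + d) = (l.scanl (· + ·) c).map fun a => a + d := by
  induction l generalizing c with
  | nil => simp
  | cons x l ih =>
    have h : c + d + x = c + x + d := by ring
    rw [List.scanl_cons, List.scanl_cons, List.map_cons, h, ih]

private theorem Dif_scan_append (a b : List ℂ) (c : ℂ) :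
    (a ++ b).scanl (· + ·) c = (a.scanl (· + ·) c).dropLast ++ b.scanl (· + ·) (c + a.sum) := by
  induction a generalizing c with
  | nil => simp
  | cons x a ih =>
    rw [List.cons_append, List.scanl_cons, List.scanl_cons, ih, List.sum_cons,
      List.dropLast_cons_of_ne_nil List.scanl_ne_nil, List.cons_append, add_assoc]

private theorem Dif_pre_append (a b : List ℂ) :
    pre (a ++ b) = (pre a).dropLast ++ (pre b).map fun y => y + a.sum := by
  unfold pre
  rw [Dif_scan_append, ← Dif_scan_add]

private theorem Dif_pre_cons (a b : List ℂ) :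
    ∃ s : ℂ, ∀ c : ℂ, pre (a ++ c :: b) = pre a ++ ((pre b).map fun y => y + s).map fun y => y + c := by
  refine ⟨a.sum, fun c => ?_⟩
  have h1 : a ++ c :: b = (a ++ [c]) ++ b := by simp
  rw [h1, Dif_pre_append]
  have h2 : (pre (a ++ [c])).dropLast = pre a := by
    rw [Dif_pre_append]
    have h3 : pre [c] = [0, c] := by simp [pre]
    have h5 : pre a = (pre a).dropLast ++ [a.sum] := by
      have h6 := Dif_pre_append a []
      have h7 : pre ([] : List ℂ) = [0] := by simp [pre]
      rw [List.append_nil, h7] at h6
      simpa using h6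
    rw [h3]
    conv_rhs => rw [h5]
    have h8 : List.map (fun y => y + a.sum) [0, c] = [a.sum] ++ [c + a.sum] := by simp
    rw [h8, ← List.append_assoc, List.dropLast_concat]
  rw [h2, List.map_map, List.sum_append, List.sum_singleton]
  congr 1
  refine List.map_congr_left fun y _ => ?_
  simp only [Function.comp]
  ring

private theorem Dif_pre_head (b : List ℂ) : pre b = 0 :: (pre b).tail := by
  cases b <;> simp [pre]

private theorem Dif_pre_length (l : List ℂ) : (pre l).length = l.length + 1 := by
  unfold pre
  rw [List.length_scanl]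

private theorem Dif_pre_mul (l : List ℂ) (c : ℂ) : pre (l.map fun a => c * a) = (pre l).map fun a => c * a := by
  have h : ∀ (l : List ℂ) (d : ℂ), (l.map fun a => c * a).scanl (· + ·) (c * d) =
      (l.scanl (· + ·) d).map fun a => c * a := by
    intro l
    induction l with
    | nil => intro d; simp
    | cons x l ih =>
      intro d
      rw [List.map_cons, List.scanl_cons, List.scanl_cons, List.map_cons, ← mul_add, ih]
  have h1 := h l 0
  rw [mul_zero] at h1
  exact h1

/-- the cut rank in the differences is the rank in the frame `y_p = 0` -/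
theorem difcut (m p M : ℕ) (hp : p < m) (h : List ℂ → ℂ)
    (htr : ∀ (y : List ℂ) (c : ℂ), y.length = m → h (y.map fun a => a + c) = h y)
    (hr : RankLe M fun (a : Ls p) (b : Ls (m - p - 1)) => h (a.1 ++ 0 :: b.1)) :
    CutLe (m - 1) p M fun z => h (pre z) := by
  have h1 := hr.comp
    (fun a : Ls p => (⟨(pre a.1).dropLast.map (fun y => y + -a.1.sum), by
      rw [List.length_map, List.length_dropLast, Dif_pre_length, a.2]
      rfl⟩ : Ls p))
    (fun b : Ls (m - 1 - p) => (⟨(pre b.1).tail, by
      rw [List.length_tail, Dif_pre_length, b.2]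
      omega⟩ : Ls (m - p - 1)))
  refine h1.congr fun a b => ?_
  have h3 : (pre (a.1 ++ b.1)).map (fun y => y + -a.1.sum) =
      (pre a.1).dropLast.map (fun y => y + -a.1.sum) ++ 0 :: (pre b.1).tail := by
    rw [Dif_pre_append, List.map_append, List.map_map]
    congr 1
    have h4 : (fun y => y + -a.1.sum) ∘ (fun y => y + a.1.sum) = (id : ℂ → ℂ) := by
      funext y
      simp
    rw [h4, List.map_id]
    exact Dif_pre_head b.1
  show h ((pre a.1).dropLast.map (fun y => y + -a.1.sum) ++ 0 :: (pre b.1).tail) = h (pre (a.1 ++ b.1))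
  rw [← h3]
  refine htr _ _ ?_
  rw [Dif_pre_length, List.length_append, a.2, b.2]
  omega

private theorem Dif_inv (ys : List ℂ) (y0 : ℂ) :
    ∃ z : List ℂ, z.length = ys.length ∧ z.scanl (· + ·) y0 = y0 :: ys := by
  induction ys generalizing y0 with
  | nil => exact ⟨[], rfl, by simp⟩
  | cons x ys ih =>
    obtain ⟨z, hz, hz2⟩ := ih x
    refine ⟨(x - y0) :: z, by simp [hz], ?_⟩
    rw [List.scanl_cons, add_sub_cancel, hz2]

private theorem Dif_nz (m : ℕ) (hm : 1 ≤ m) (h : List ℂ → ℂ) (hne : Nz m h)
    (htr : ∀ (y : List ℂ) (c : ℂ), y.length = m → h (y.map fun a => a + c) = h y) :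
    Nz (m - 1) fun z => h (pre z) := by
  obtain ⟨y, hy, hne⟩ := hne
  obtain ⟨y0, ys, rfl⟩ : ∃ y0 ys, y = y0 :: ys := by
    cases y with
    | nil => simp at hy; omega
    | cons y0 ys => exact ⟨y0, ys, rfl⟩
  obtain ⟨z, hz, hz2⟩ := Dif_inv ys y0
  rw [List.length_cons] at hy
  refine ⟨z, by omega, ?_⟩
  have h1 : z.scanl (· + ·) y0 = (pre z).map fun a => a + y0 := by
    have := Dif_scan_add z 0 y0
    rwa [zero_add] at this
  have h2 := htr (pre z) y0 (by rw [Dif_pre_length]; omega)
  show h (pre z) ≠ 0
  rw [← h2, ← h1, hz2]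
  exact hne

private theorem Dif_curve {m D : ℕ} {h : List ℂ → ℂ} (hpol : IsPol m D h) (lp : List ℂ[X])
    (hlp : lp.length = m) : ∃ g : ℂ[X], ∀ c : ℂ, h (lp.map (eval c)) = g.eval c := by
  obtain ⟨p, -, hp⟩ := hpol
  refine ⟨MvPolynomial.aeval (fun i => lp.getD i 0) p, fun c => ?_⟩
  rw [hp _ (by rw [List.length_map, hlp])]
  have h1 : ∀ q : MvPolynomial ℕ ℂ, (MvPolynomial.aeval (fun i => lp.getD i 0) q).eval c =
      MvPolynomial.eval (fun i => (lp.map (eval c)).getD i 0) q := by
    intro q
    induction q using MvPolynomial.induction_on with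
    | C a => simp
    | add p r hp hr => rw [map_add, map_add, eval_add, hp, hr]
    | mul_X p i hp =>
      rw [map_mul, map_mul, eval_mul, hp, MvPolynomial.aeval_X, MvPolynomial.eval_X]
      congr 1
      simp only [List.getD_eq_getElem?_getD, List.getElem?_map]
      cases lp[i]? <;> simp
  exact (h1 p).symm

private theorem Dif_diag (w : ℕ) : ∀ (k : ℕ) (Φ : List ℂ → ℂ),
    (∀ a b : List ℂ, a.length + b.length + 1 = k →
      ∃ g : ℂ[X], g.natDegree ≤ w ∧ ∀ c, Φ (a ++ c :: b) = g.eval c) →
    ∀ z : List ℂ, z.length = k → ∃ g : ℂ[X], g.natDegree ≤ k * w ∧ ∀ c : ℂ, Φ (z.map fun a => c * a) = g.eval c := by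
  intro k
  induction k with
  | zero =>
    intro Φ _ z hz
    refine ⟨Polynomial.C (Φ []), by simp, fun c => ?_⟩
    rw [List.length_eq_zero_iff.1 hz]
    simp
  | succ k ih =>
    intro Φ hΦ z hz
    obtain ⟨x, l, rfl⟩ : ∃ x l, z = x :: l := by
      cases z with
      | nil => simp at hz
      | cons x l => exact ⟨x, l, rfl⟩
    have hl : l.length = k := by simpa using hz
    have h1 : ∀ j : ℕ, ∃ g : ℂ[X], g.natDegree ≤ k * w ∧ ∀ c : ℂ, Φ ((j : ℂ) :: l.map fun a => c * a) = g.eval c :=
      fun j => ih (fun l => Φ ((j : ℂ) :: l))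
        (fun a b hab => hΦ ((j : ℂ) :: a) b (by rw [List.length_cons]; omega)) l hl
    choose G hG1 hG2 using h1
    have hinj : Set.InjOn (fun j : ℕ => (j : ℂ)) (Finset.range (w + 1) : Finset ℕ) :=
      fun a _ b _ hab => Nat.cast_injective (R := ℂ) hab
    refine ⟨∑ j ∈ Finset.range (w + 1), G j *
      (Lagrange.basis (Finset.range (w + 1)) (fun j : ℕ => (j : ℂ)) j).comp (C x * X), ?_, fun c => ?_⟩
    · refine natDegree_sum_le_of_forall_le _ _ fun j hj => ?_
      refine natDegree_mul_le.trans ?_
      have h2 : (Lagrange.basis (Finset.range (w + 1)) (fun j : ℕ => (j : ℂ)) j).natDegree ≤ w := by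
        have h3 := Lagrange.degree_basis hinj hj
        refine natDegree_le_of_degree_le ?_
        rw [h3]
        simp
      have h4 : ((Lagrange.basis (Finset.range (w + 1)) (fun j : ℕ => (j : ℂ)) j).comp (C x * X)).natDegree ≤ w := by
        refine natDegree_comp_le.trans ?_
        calc _ ≤ w * 1 := Nat.mul_le_mul h2 ((natDegree_C_mul_le x X).trans natDegree_X_le)
          _ = w := mul_one w
      have h5 := hG1 j
      have h6 : (k + 1) * w = k * w + w := by ring
      omega
    · obtain ⟨g, hg1, hg2⟩ := hΦ [] (l.map fun a => c * a) (by simp [hl])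
      have h7 : g.degree < (Finset.range (w + 1)).card := by
        rw [Finset.card_range]
        refine lt_of_le_of_lt degree_le_natDegree ?_
        exact_mod_cast Nat.lt_succ_of_le hg1
      have h8 := Lagrange.eq_interpolate hinj h7
      have h9 : Φ ((x :: l).map fun a => c * a) = g.eval (c * x) := hg2 (c * x)
      rw [h9, h8, Lagrange.interpolate_apply, eval_finsetSum, eval_finsetSum]
      refine Finset.sum_congr rfl fun j _ => ?_
      rw [eval_mul, eval_mul, eval_C, eval_comp, eval_mul, eval_C, eval_X, mul_comm x c, ← hG2 j c]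
      congr 1
      exact (hg2 (j : ℂ)).symm

/-- the degree of a translation invariant form with cut ranks `≤ w` -/
theorem difdeg (m μ w : ℕ) (hm : 1 ≤ m) (h : List ℂ → ℂ) (hpol : IsPol m μ h) (hne : Nz m h)
    (hhom : ∀ (y : List ℂ) (c : ℂ), y.length = m → h (y.map fun a => c * a) = c ^ μ * h y)
    (htr : ∀ (y : List ℂ) (c : ℂ), y.length = m → h (y.map fun a => a + c) = h y)
    (hcut : ∀ p, 1 ≤ p → p < m → CutLe m p w h) : μ ≤ (m - 1) * w := by
  obtain ⟨z, hz, hzne⟩ := Dif_nz m hm h hne htr
  have hzne' : h (pre z) ≠ 0 := hzne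
  obtain ⟨g, hg1, hg2⟩ := Dif_diag w (m - 1) (fun z => h (pre z)) (fun a b hab => by
    obtain ⟨s, hs⟩ := Dif_pre_cons a b
    have hA : (pre a).length = a.length + 1 := Dif_pre_length a
    obtain ⟨B, hBd⟩ : ∃ B, B = (pre b).map fun y => y + s := ⟨_, rfl⟩
    rw [← hBd] at hs
    have hB : B.length = m - (a.length + 1) := by
      rw [hBd, List.length_map, Dif_pre_length]
      omega
    obtain ⟨g, hg⟩ := Dif_curve hpol ((pre a).map (fun y => (C y : ℂ[X])) ++
      B.map (fun y => (C y + X : ℂ[X]))) (by
        rw [List.length_append, List.length_map, List.length_map, hA, hB]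
        omega)
    have hg' : ∀ c : ℂ, h (pre a ++ B.map fun y => y + c) = g.eval c := by
      intro c
      rw [← hg c, List.map_append, List.map_map, List.map_map]
      have e1 : (eval c) ∘ (fun y : ℂ => (C y : ℂ[X])) = id := by
        funext y
        simp
      have e2 : (eval c) ∘ (fun y : ℂ => (C y + X : ℂ[X])) = fun y => y + c := by
        funext y
        simp
      rw [e1, e2, List.map_id]
    refine ⟨g, ?_, fun c => ?_⟩
    · by_cases hg0 : g = 0
      · rw [hg0, natDegree_zero]
        exact Nat.zero_le w
      · refine (rank_add w g hg0 ?_).le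
        have h1 := (hcut (a.length + 1) (by omega) (by omega)).comp
          (fun x : ℂ => (⟨(pre a).map (fun y => y + -x), by rw [List.length_map, hA]⟩ : Ls (a.length + 1)))
          (fun t : ℂ => (⟨B.map (fun y => y + t), by
            rw [List.length_map, hB]⟩ : Ls (m - (a.length + 1))))
        refine h1.congr fun x t => ?_
        rw [← hg' (x + t)]
        show h ((pre a).map (fun y => y + -x) ++ B.map (fun y => y + t)) = _
        have h2 : (pre a).map (fun y => y + -x) ++ B.map (fun y => y + t) =
            (pre a ++ B.map fun y => y + (x + t)).map fun y => y + -x := by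
          rw [List.map_append, List.map_map (f := fun y => y + (x + t))]
          congr 2
          funext y
          simp only [Function.comp]
          ring
        rw [h2]
        refine htr _ _ ?_
        rw [List.length_append, List.length_map, hA, hB]
        omega
    · show h (pre (a ++ c :: b)) = g.eval c
      rw [hs c]
      exact hg' c) z hz
  have h1 : g = C (h (pre z)) * X ^ μ := by
    refine Polynomial.funext fun c => ?_
    rw [← hg2 c, eval_mul, eval_C, eval_pow, eval_X]
    show h (pre (z.map fun a => c * a)) = _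
    rw [Dif_pre_mul, hhom _ _ (by rw [Dif_pre_length]; omega), mul_comm]
  rw [h1, natDegree_C_mul_X_pow _ _ hzne'] at hg1
  exact hg1

private theorem Dif_totalDegree {σ τ : Type*} (u : σ → MvPolynomial τ ℂ) (hu : ∀ i, (u i).totalDegree ≤ 1)
    (f : MvPolynomial σ ℂ) : (MvPolynomial.aeval u f).totalDegree ≤ f.totalDegree := by
  rw [MvPolynomial.aeval_def, MvPolynomial.eval₂_eq]
  refine MvPolynomial.totalDegree_finsetSum_le fun t ht => ?_
  refine (MvPolynomial.totalDegree_mul _ _).trans ?_
  have h1 : (algebraMap ℂ (MvPolynomial τ ℂ) (MvPolynomial.coeff t f)).totalDegree = 0 := by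
    rw [MvPolynomial.algebraMap_eq]
    exact MvPolynomial.totalDegree_C _
  rw [h1, zero_add]
  refine (MvPolynomial.totalDegree_finsetProd _ _).trans ?_
  have h2 : ∀ i ∈ t.support, (u i ^ t i).totalDegree ≤ t i := by
    intro i _
    refine (MvPolynomial.totalDegree_pow _ _).trans ?_
    calc t i * (u i).totalDegree ≤ t i * 1 := Nat.mul_le_mul_left _ (hu i)
      _ = t i := mul_one _
  refine (Finset.sum_le_sum h2).trans ?_
  exact MvPolynomial.le_totalDegree ht

private theorem Dif_getD (l : List ℂ) (c : ℂ) (i : ℕ) (hi : i ≤ l.length) :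
    (l.scanl (· + ·) c).getD i 0 = c + ∑ j ∈ Finset.range i, l.getD j 0 := by
  induction l generalizing c i with
  | nil =>
    have h : i = 0 := by simpa using hi
    subst h
    simp
  | cons x l ih =>
    rw [List.scanl_cons]
    rcases i with _ | i
    · simp
    · rw [List.getD_cons_succ, ih (c + x) i (by simpa using hi), Finset.sum_range_succ']
      simp only [List.getD_cons_succ, List.getD_cons_zero]
      ring

/-- polynomials in the prefix sums -/
theorem difpol (m D : ℕ) (hm : 1 ≤ m) (h : List ℂ → ℂ) (hpol : IsPol m D h) :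
    IsPol (m - 1) D fun z => h (pre z) := by
  obtain ⟨p, hp1, hp2⟩ := hpol
  refine ⟨MvPolynomial.aeval (fun i => if i < m then ∑ j ∈ Finset.range i, (MvPolynomial.X j : MvPolynomial ℕ ℂ) else 0) p,
    ?_, fun l hl => ?_⟩
  · refine (Dif_totalDegree _ (fun i => ?_) p).trans hp1
    split_ifs with h
    · refine MvPolynomial.totalDegree_finsetSum_le fun j _ => ?_
      rw [MvPolynomial.totalDegree_X]
    · simp
  · show h (pre l) = _
    rw [hp2 _ (by rw [Dif_pre_length]; omega)]
    have h1 : ∀ q : MvPolynomial ℕ ℂ, MvPolynomial.eval (fun i => l.getD i 0) (MvPolynomial.aeval (fun i => if i < m then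
        ∑ j ∈ Finset.range i, (MvPolynomial.X j : MvPolynomial ℕ ℂ) else 0) q) =
        MvPolynomial.eval (fun i => (pre l).getD i 0) q := by
      intro q
      induction q using MvPolynomial.induction_on with
      | C a => simp
      | add p r hp hr => rw [map_add, map_add, map_add, hp, hr]
      | mul_X p i hp =>
        rw [map_mul, map_mul, map_mul, hp, MvPolynomial.aeval_X, MvPolynomial.eval_X]
        congr 1
        by_cases hi : i < m
        · rw [if_pos hi, map_sum]
          simp only [MvPolynomial.eval_X]
          unfold pre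
          rw [Dif_getD l 0 i (by omega), zero_add]
        · rw [if_neg hi, map_zero]
          have h2 : (pre l).length ≤ i := by
            rw [Dif_pre_length]
            omega
          rw [List.getD_eq_default _ _ h2]
    exact (h1 p).symm

/-- every row is a translate of prefix sums -/
theorem difnz (m : ℕ) (hm : 1 ≤ m) (h : List ℂ → ℂ) (hne : Nz m h)
    (htr : ∀ (y : List ℂ) (c : ℂ), y.length = m → h (y.map fun a => a + c) = h y) :
    Nz (m - 1) fun z => h (pre z) := by
  exact Dif_nz m hm h hne htr

end Pool.Agent.KNO
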