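import Pool.Agent.KNO.Stp

set_option autoImplicit false

/-! KNO-GD: the data of the finished groups. -/

namespace Pool.Agent.KNO

/-- data (label, size) of the finished groups -/
structure GD (N₁ k Q w ν m : ℕ) (F : List ℂ → ℂ) (cs : List (ℕ × ℕ))
    (done : List (List Bool)) (us : List (ℕ × ℕ)) : Prop where
  len : us.length = done.length
  ok : ∀ g ∈ done, okg N₁ g = true
  out : ∀ (i : ℕ) (h : i < us.length) (v : ℂ), RankLe (w / Q ^ (us[i]).1)
    fun (a : Ls i) (c : Ls (m - tot (done.take (i + 1)))) =>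
      F (evs (qb Q w ν) (done.take i) a.1 ++ cat (qb Q w ν) (done.getD i []) v ++ c.1)
  grow : ∀ u ∈ us, N₁ ^ (k + 1) ≤ u.2 * N₁ ^ u.1
  sum : (us.map Prod.snd).sum ≤ ((cs.take (tot done)).map Prod.snd).sum

end Pool.Agent.KNO
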