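import Pool.Agent.KNO.Rk

set_option autoImplicit false

/-! KNO-Lim: the lowest coefficient of a family of kernels of rank `≤ r` has rank `≤ r`. -/

namespace Pool.Agent.KNO

open Polynomial

/-- use `rank_det`: the minors of `g x y / X ^ μ` vanish for all `e ≠ 0`, hence at `0` -/
theorem rank_lim {α β : Type*} (r μ : ℕ) (g : α → β → ℂ[X]) (h : ∀ x y, X ^ μ ∣ g x y)
    (hr : ∀ e : ℂ, e ≠ 0 → RankLe r fun x y => (g x y).eval e) :
    RankLe r fun x y => (g x y).coeff μ := by
  choose g' hg' using h
  rw [rank_det]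
  intro x y
  set P : ℂ[X] := (Matrix.of fun i j => g' (x i) (y j)).det with hP
  have hev : ∀ e : ℂ, P.eval e = (Matrix.of fun i j => (g' (x i) (y j)).eval e).det := by
    intro e
    rw [hP, ← coe_evalRingHom, RingHom.map_det]
    rfl
  have h0 : ∀ e : ℂ, e ≠ 0 → P.eval e = 0 := by
    intro e he
    have h1 := (rank_det r _).1 (hr e he) x y
    have h2 : (Matrix.of fun i j => (g (x i) (y j)).eval e) =
        e ^ μ • (Matrix.of fun i j => (g' (x i) (y j)).eval e) := by
      ext i j
      simp [hg' (x i) (y j)]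
    rw [h2, Matrix.det_smul] at h1
    rw [hev e]
    exact (mul_eq_zero.1 h1).resolve_left (pow_ne_zero _ (pow_ne_zero _ he))
  have hP0 : P = 0 := by
    refine Polynomial.eq_zero_of_infinite_isRoot P ?_
    refine Set.Infinite.mono (s := {e : ℂ | e ≠ 0}) (fun e he => h0 e he) ?_
    exact Set.infinite_of_finite_compl (by
      have : {e : ℂ | e ≠ 0}ᶜ = {0} := by ext; simp
      rw [this]; exact Set.finite_singleton 0)
  have h3 := hev 0
  rw [hP0, eval_zero] at h3
  have h4 : (Matrix.of fun i j => (g (x i) (y j)).coeff μ) =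
      (Matrix.of fun i j => (g' (x i) (y j)).eval 0) := by
    ext i j
    simp only [Matrix.of_apply]
    rw [hg' (x i) (y j), coeff_X_pow_mul', if_pos le_rfl, Nat.sub_self, coeff_zero_eq_eval_zero]
  rw [h4]
  exact h3.symm

end Pool.Agent.KNO
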