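import Pool.Agent.KNO.Defs

set_option autoImplicit false

/-! KNO-Tay: Taylor expansion along the diagonal. -/

namespace Pool.Agent.KNO

open Polynomial

/-- the substitution `t + e y`, `e` the variable -/
private noncomputable def tay_v (m : ℕ) (t : ℂ) (y : List ℂ) (k : ℕ) : ℂ[X] :=
  if k < m then C t + C (y.getD k 0) * X else 0

/-- the polynomial `F (t + e y)` in `e` -/
private noncomputable def tay_G (m : ℕ) (p : MvPolynomial ℕ ℂ) (t : ℂ) (y : List ℂ) : ℂ[X] :=
  MvPolynomial.aeval (tay_v m t y) p

/-- the universal substitution -/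
private noncomputable def tay_U (m : ℕ) (t : ℂ) (k : ℕ) : (MvPolynomial ℕ ℂ)[X] :=
  if k < m then C (MvPolynomial.C t) + C (MvPolynomial.X k) * X else 0

private theorem tay_ev (f : ℕ → ℂ[X]) (p : MvPolynomial ℕ ℂ) (e : ℂ) :
    (MvPolynomial.aeval f p).eval e = MvPolynomial.eval (fun k => (f k).eval e) p := by
  induction p using MvPolynomial.induction_on with
  | C a =>
    rw [MvPolynomial.aeval_C]
    have h2 : (algebraMap ℂ ℂ[X]) a = C a := rfl
    rw [h2]
    simp
  | add p q hp hq => rw [map_add, Polynomial.eval_add, map_add, hp, hq]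
  | mul_X p n hp =>
    rw [map_mul, Polynomial.eval_mul, map_mul, hp, MvPolynomial.aeval_X, MvPolynomial.eval_X]

private theorem tay_comp (f : ℕ → ℂ[X]) (p : MvPolynomial ℕ ℂ) (g : ℂ[X]) :
    (MvPolynomial.aeval f p).comp g = MvPolynomial.aeval (fun k => (f k).comp g) p := by
  induction p using MvPolynomial.induction_on with
  | C a =>
    rw [MvPolynomial.aeval_C, MvPolynomial.aeval_C]
    have h2 : (algebraMap ℂ ℂ[X]) a = C a := rfl
    rw [h2]
    simp
  | add p q hp hq => rw [map_add, Polynomial.add_comp, map_add, hp, hq]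
  | mul_X p n hp =>
    rw [map_mul, Polynomial.mul_comp, map_mul, hp, MvPolynomial.aeval_X, MvPolynomial.aeval_X]

private theorem tay_v_deg (m : ℕ) (t : ℂ) (y : List ℂ) (k : ℕ) : (tay_v m t y k).natDegree ≤ 1 := by
  unfold tay_v
  split_ifs
  · exact natDegree_add_le_of_degree_le (by simp) ((natDegree_C_mul_le _ _).trans natDegree_X_le)
  · simp

private theorem tay_G_deg (m D : ℕ) (p : MvPolynomial ℕ ℂ) (hp : p.totalDegree ≤ D) (t : ℂ)
    (y : List ℂ) : (tay_G m p t y).natDegree ≤ D := by
  have := MvPolynomial.aeval_natDegree_le p hp (tay_v m t y) (tay_v_deg m t y)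
  rwa [mul_one] at this

private theorem tay_get (m : ℕ) (t e : ℂ) (y : List ℂ) (hy : y.length = m) (k : ℕ) :
    (tay_v m t y k).eval e = (y.map fun a => t + e * a).getD k 0 := by
  unfold tay_v
  split_ifs with hk
  · have hk' : k < y.length := by omega
    have h3 : (y.map fun a => t + e * a).getD k 0 = t + e * y.getD k 0 := by
      simp [List.getD_eq_getElem?_getD, hk']
    rw [h3, Polynomial.eval_add, Polynomial.eval_C, Polynomial.eval_mul, Polynomial.eval_C,
      Polynomial.eval_X]
    ring
  · have hk' : y.length ≤ k := by omega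
    have h3 : (y.map fun a => t + e * a).getD k 0 = 0 := by
      simp [List.getD_eq_getElem?_getD, hk']
    rw [h3, Polynomial.eval_zero]

private theorem tay_G_eval (m : ℕ) (p : MvPolynomial ℕ ℂ) (t e : ℂ) (y : List ℂ)
    (hy : y.length = m) :
    (tay_G m p t y).eval e =
      MvPolynomial.eval (fun i => (y.map fun a => t + e * a).getD i 0) p := by
  unfold tay_G
  rw [tay_ev]
  have h1 : (fun k => (tay_v m t y k).eval e) = fun i => (y.map fun a => t + e * a).getD i 0 :=
    funext fun k => tay_get m t e y hy k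
  rw [h1]

private theorem tay_U_coeff (m : ℕ) (t : ℂ) (n : ℕ) (i : ℕ) :
    ((tay_U m t n).coeff i).totalDegree ≤ i := by
  unfold tay_U
  split_ifs
  · rw [Polynomial.coeff_add, Polynomial.coeff_C, Polynomial.coeff_C_mul, Polynomial.coeff_X]
    by_cases h0 : i = 0
    · subst h0
      simp
    · by_cases h1 : i = 1
      · subst h1
        simp
      · rw [if_neg h0, if_neg (fun h => h1 h.symm)]
        simp
  · simp

private theorem tay_U_deg (m : ℕ) (t : ℂ) (p : MvPolynomial ℕ ℂ) :
    ∀ i, ((MvPolynomial.aeval (tay_U m t) p).coeff i).totalDegree ≤ i := by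
  induction p using MvPolynomial.induction_on with
  | C a =>
    intro i
    have h1 : MvPolynomial.aeval (tay_U m t) (MvPolynomial.C a) =
        (C (MvPolynomial.C a) : (MvPolynomial ℕ ℂ)[X]) := by
      rw [MvPolynomial.aeval_C]
      rfl
    rw [h1, Polynomial.coeff_C]
    split_ifs <;> simp
  | add p q hp hq =>
    intro i
    rw [map_add, Polynomial.coeff_add]
    exact (MvPolynomial.totalDegree_add _ _).trans (max_le (hp i) (hq i))
  | mul_X p n hp =>
    intro i
    rw [map_mul, MvPolynomial.aeval_X, Polynomial.coeff_mul]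
    refine (MvPolynomial.totalDegree_finsetSum _ _).trans (Finset.sup_le fun ab hab => ?_)
    have h1 : ((tay_U m t n).coeff ab.2).totalDegree ≤ ab.2 := tay_U_coeff m t n ab.2
    have hab' : ab.1 + ab.2 = i := by simpa using hab
    calc _ ≤ _ := MvPolynomial.totalDegree_mul _ _
      _ ≤ ab.1 + ab.2 := Nat.add_le_add (hp _) h1
      _ = i := hab'

private theorem tay_U_eval (m : ℕ) (t : ℂ) (p : MvPolynomial ℕ ℂ) (y : List ℂ) :
    ((MvPolynomial.aeval (tay_U m t) p).map (MvPolynomial.eval (fun i => y.getD i 0))) =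
      tay_G m p t y := by
  unfold tay_G
  induction p using MvPolynomial.induction_on with
  | C a =>
    rw [MvPolynomial.aeval_C, MvPolynomial.aeval_C]
    have h1 : (algebraMap ℂ (MvPolynomial ℕ ℂ)[X]) a = C (MvPolynomial.C a) := rfl
    have h2 : (algebraMap ℂ ℂ[X]) a = C a := rfl
    rw [h1, h2]
    simp
  | add p q hp hq => rw [map_add, map_add, Polynomial.map_add, hp, hq]
  | mul_X p n hp =>
    rw [map_mul, map_mul, Polynomial.map_mul, hp, MvPolynomial.aeval_X, MvPolynomial.aeval_X]
    congr 1
    unfold tay_U tay_v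
    split_ifs
    · simp
    · simp

private theorem tay_t (m D : ℕ) (p : MvPolynomial ℕ ℂ) (hp : p.totalDegree ≤ D) (y : List ℂ)
    (hy : y.length = m) (i : ℕ) :
    ∃ g : ℂ[X], g.natDegree ≤ D ∧ ∀ t, (tay_G m p t y).coeff i = g.eval t := by
  obtain ⟨w, hw⟩ : ∃ w : ℕ → ℕ → ℂ[X], ∀ j k, w j k =
      if k < m then X + C ((j : ℂ) * y.getD k 0) else 0 := ⟨_, fun _ _ => rfl⟩
  have hwd : ∀ j k, (w j k).natDegree ≤ 1 := by
    intro j k
    rw [hw]
    split_ifs
    · exact natDegree_add_le_of_degree_le natDegree_X_le ((natDegree_C _).le.trans zero_le_one)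
    · simp
  refine ⟨∑ j ∈ Finset.range (D + 1),
    MvPolynomial.aeval (w j) p *
      C ((Lagrange.basis (Finset.range (D + 1)) (fun j : ℕ => (j : ℂ)) j).coeff i), ?_, ?_⟩
  · refine Polynomial.natDegree_sum_le_of_forall_le _ _ fun j _ => ?_
    refine (Polynomial.natDegree_mul_C_le _ _).trans ?_
    have := MvPolynomial.aeval_natDegree_le p hp (w j) (hwd j)
    rwa [mul_one] at this
  · intro t
    have hdeg : (tay_G m p t y).degree < ((Finset.range (D + 1)).card : ℕ) := by
      rw [Finset.card_range]
      refine lt_of_le_of_lt Polynomial.degree_le_natDegree ?_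
      exact_mod_cast Nat.lt_succ_of_le (tay_G_deg m D p hp t y)
    have hinj : Set.InjOn (fun j : ℕ => (j : ℂ)) (Finset.range (D + 1)) := by
      intro a _ b _ hab
      exact Nat.cast_injective (R := ℂ) hab
    have h1 := Lagrange.eq_interpolate (v := fun j : ℕ => (j : ℂ)) hinj hdeg
    rw [h1, Lagrange.interpolate_apply, Polynomial.finsetSum_coeff, Polynomial.eval_finsetSum]
    refine Finset.sum_congr rfl fun j _ => ?_
    rw [Polynomial.coeff_C_mul, Polynomial.eval_mul, Polynomial.eval_C]
    congr 1
    rw [tay_G_eval m p t j y hy, tay_ev]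
    have h2 : (fun i => (y.map fun a => t + (j : ℂ) * a).getD i 0) = fun k => (w j k).eval t := by
      funext k
      rw [hw]
      split_ifs with hk
      · have hk' : k < y.length := by omega
        simp [List.getD_eq_getElem?_getD, hk']
      · have hk' : y.length ≤ k := by omega
        simp [List.getD_eq_getElem?_getD, hk']
    rw [h2]

/-- `F (t + e y) = ∑ e ^ i h_i (t; y)`, `h_i` homogeneous of degree `i` in `y`, of degree `≤ D`
in `t` -/
theorem taylor (m D : ℕ) (F : List ℂ → ℂ) (hF : IsPol m D F) :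
    ∃ h : ℕ → ℂ → List ℂ → ℂ,
      (∀ i t, IsPol m i (h i t)) ∧
      (∀ i t (y : List ℂ) (c : ℂ), y.length = m → h i t (y.map fun a => c * a) = c ^ i * h i t y) ∧
      (∀ i (y : List ℂ), y.length = m → ∃ g : ℂ[X], g.natDegree ≤ D ∧ ∀ t, h i t y = g.eval t) ∧
      (∀ t e (y : List ℂ), y.length = m →
        F (y.map fun a => t + e * a) = ∑ i ∈ Finset.range (D + 1), e ^ i * h i t y) := by
  obtain ⟨p, hp, hpF⟩ := hF
  refine ⟨fun i t y => (tay_G m p t y).coeff i, ?_, ?_, ?_, ?_⟩
  · intro i t
    refine ⟨(MvPolynomial.aeval (tay_U m t) p).coeff i, tay_U_deg m t p i, fun l _ => ?_⟩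
    show (tay_G m p t l).coeff i = _
    rw [← tay_U_eval m t p l, Polynomial.coeff_map]
  · intro i t y c hy
    show (tay_G m p t (y.map fun a => c * a)).coeff i = c ^ i * (tay_G m p t y).coeff i
    have h1 : tay_G m p t (y.map fun a => c * a) = (tay_G m p t y).comp (C c * X) := by
      unfold tay_G
      rw [tay_comp]
      have h2 : tay_v m t (y.map fun a => c * a) = fun k => (tay_v m t y k).comp (C c * X) := by
        funext k
        unfold tay_v
        split_ifs with hk
        · have hk' : k < y.length := by omega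
          have h3 : (y.map fun a => c * a).getD k 0 = c * y.getD k 0 := by
            simp [List.getD_eq_getElem?_getD, hk']
          rw [h3, Polynomial.add_comp, Polynomial.C_comp, Polynomial.mul_comp, Polynomial.C_comp,
            Polynomial.X_comp, Polynomial.C_mul]
          ring
        · rw [Polynomial.zero_comp]
      rw [h2]
    rw [h1, Polynomial.comp_C_mul_X_coeff, mul_comm]
  · intro i y hy
    exact tay_t m D p hp y hy i
  · intro t e y hy
    rw [hpF _ (by rw [List.length_map]; exact hy), ← tay_G_eval m p t e y hy,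
      Polynomial.eval_eq_sum_range' (Nat.lt_succ_of_le (tay_G_deg m D p hp t y))]
    exact Finset.sum_congr rfl fun i _ => mul_comm _ _

end Pool.Agent.KNO
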