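import Pool.Agent.KNO.Lim
import Pool.Agent.KNO.Tay

set_option autoImplicit false

/-! KNO-Low: the lowest form along the diagonal at a good integer `t`: translation invariance and
the rank in the frame `y_p = 0`. -/

namespace Pool.Agent.KNO

open Polynomial

/-- The lowest form: `μ` least with `h_μ ≠ 0` (for some `t`), `t ≤ D` an integer with
`h_μ (t; .) ≠ 0`.  For all `e`: `F (t + e y) = e ^ μ * (h y + e * ..)`. -/
theorem lowest (m D : ℕ) (F : List ℂ → ℂ) (hm : 1 ≤ m) (hF : IsPol m D F) (hne : Nz m F) :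
    ∃ (μ t : ℕ) (h : List ℂ → ℂ), t ≤ D ∧ IsPol m μ h ∧ Nz m h ∧
      (∀ (y : List ℂ) (c : ℂ), y.length = m → h (y.map fun a => c * a) = c ^ μ * h y) ∧
      (∀ (y : List ℂ) (c : ℂ), y.length = m → h (y.map fun a => a + c) = h y) ∧
      (∀ y : List ℂ, y.length = m → ∃ g : ℂ[X], g.natDegree ≤ D ∧ X ^ μ ∣ g ∧ g.coeff μ = h y ∧
        ∀ e : ℂ, F (y.map fun a => (t : ℂ) + e * a) = g.eval e) := by
  classical
  obtain ⟨h, h1, h2, h3, h4⟩ := taylor m D F hF
  have hex : ∃ i, i ≤ D ∧ ∃ (t : ℂ) (y : List ℂ), y.length = m ∧ h i t y ≠ 0 := by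
    obtain ⟨l, hl, hFl⟩ := hne
    have h5 := h4 0 1 l hl
    have h6 : (l.map fun a => (0 : ℂ) + 1 * a) = l := by simp
    rw [h6] at h5
    by_contra hcon
    push Not at hcon
    apply hFl
    rw [h5]
    apply Finset.sum_eq_zero
    intro i hi
    rw [hcon i (by have := Finset.mem_range.1 hi; omega) 0 l hl, mul_zero]
  have hex' : ∃ i, ∃ (t : ℂ) (y : List ℂ), y.length = m ∧ h i t y ≠ 0 := by
    obtain ⟨i, _, hi⟩ := hex
    exact ⟨i, hi⟩
  obtain ⟨μ, hμ, hlow, hμD⟩ : ∃ μ, (∃ (t : ℂ) (y : List ℂ), y.length = m ∧ h μ t y ≠ 0) ∧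
      (∀ i, i < μ → ∀ (t : ℂ) (y : List ℂ), y.length = m → h i t y = 0) ∧ μ ≤ D := by
    refine ⟨Nat.find hex', Nat.find_spec hex', ?_, ?_⟩
    · intro i hi t y hy
      by_contra hc
      exact Nat.find_min hex' hi ⟨t, y, hy, hc⟩
    · obtain ⟨i, hiD, hi⟩ := hex
      exact (Nat.find_min' hex' hi).trans hiD
  obtain ⟨t₀, y₀, hy₀, hne₀⟩ := hμ
  obtain ⟨g₀, hg₀, hgev⟩ := h3 μ y₀ hy₀
  have hg₀ne : g₀ ≠ 0 := by
    rintro rfl
    apply hne₀
    rw [hgev t₀, eval_zero]
  obtain ⟨t, htD, ht⟩ : ∃ t : ℕ, t ≤ D ∧ g₀.eval (t : ℂ) ≠ 0 := by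
    by_contra hcon
    push Not at hcon
    apply hg₀ne
    refine Polynomial.eq_zero_of_natDegree_lt_card_of_eval_eq_zero (ι := Fin (D + 1)) g₀
      (f := fun i => ((i : ℕ) : ℂ)) ?_ ?_ ?_
    · intro i j hij
      have hij' : ((i : ℕ) : ℂ) = ((j : ℕ) : ℂ) := hij
      exact Fin.ext (Nat.cast_injective hij')
    · intro i
      exact hcon i (by omega)
    · rw [Fintype.card_fin]
      omega
  refine ⟨μ, t, h μ t, htD, h1 μ t, ⟨y₀, hy₀, ?_⟩, fun y c hy => h2 μ t y c hy, ?_, ?_⟩
  · rw [hgev]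
    exact ht
  · intro y c hy
    have hyc : (y.map fun a => a + c).length = m := by simpa using hy
    choose G hG1 hG2 using fun i => h3 i y hy
    let R : ℕ → ℂ[X] := fun i =>
      C (h i t (y.map fun a => a + c)) - (G i).comp (C (t : ℂ) + X * C c)
    have hRev : ∀ i (e : ℂ), (R i).eval e =
        h i t (y.map fun a => a + c) - h i (t + e * c) y := by
      intro i e
      simp only [R, eval_sub, eval_C, eval_comp, eval_add, eval_mul, eval_X]
      rw [hG2 i]
    have hR0 : ∀ i, i < μ → R i = 0 := by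
      intro i hi
      apply Polynomial.funext
      intro e
      rw [hRev, hlow i hi _ _ hyc, hlow i hi _ _ hy, eval_zero, sub_zero]
    have hQ : ∑ i ∈ Finset.range (D + 1), X ^ i * R i = 0 := by
      apply Polynomial.funext
      intro e
      rw [eval_finsetSum, eval_zero]
      have e1 := h4 t e _ hyc
      have e2 := h4 (t + e * c) e y hy
      have e3 : ((y.map fun a => a + c).map fun a => (t : ℂ) + e * a) =
          y.map fun a => ((t : ℂ) + e * c) + e * a := by
        rw [List.map_map]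
        apply List.map_congr_left
        intro a _
        simp only [Function.comp]
        ring
      rw [e3, e2] at e1
      calc ∑ i ∈ Finset.range (D + 1), eval e (X ^ i * R i)
          = ∑ i ∈ Finset.range (D + 1), e ^ i * h i t (y.map fun a => a + c) -
            ∑ i ∈ Finset.range (D + 1), e ^ i * h i (t + e * c) y := by
            rw [← Finset.sum_sub_distrib]
            apply Finset.sum_congr rfl
            intro i _
            rw [eval_mul, hRev, eval_pow, eval_X]
            ring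
        _ = 0 := by rw [e1, sub_self]
    have hc := congrArg (fun p => coeff p μ) hQ
    simp only [finsetSum_coeff, coeff_zero] at hc
    rw [Finset.sum_eq_single μ] at hc
    · rw [coeff_X_pow_mul', if_pos le_rfl, Nat.sub_self, coeff_zero_eq_eval_zero, hRev] at hc
      rw [zero_mul, add_zero] at hc
      exact sub_eq_zero.1 hc
    · intro i _ hi
      rcases lt_or_gt_of_ne hi with hlt | hgt
      · rw [hR0 i hlt, mul_zero, coeff_zero]
      · rw [coeff_X_pow_mul', if_neg (by omega)]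
    · intro hn
      exact absurd (Finset.mem_range.2 (by omega)) hn
  · intro y hy
    refine ⟨∑ i ∈ Finset.range (D + 1), C (h i t y) * X ^ i, ?_, ?_, ?_, ?_⟩
    · apply natDegree_sum_le_of_forall_le
      intro i hi
      exact (natDegree_C_mul_X_pow_le _ _).trans (by have := Finset.mem_range.1 hi; omega)
    · apply Finset.dvd_sum
      intro i _
      by_cases hi : i < μ
      · rw [hlow i hi _ _ hy, C_0, zero_mul]
        exact dvd_zero _
      · exact Dvd.dvd.mul_left (pow_dvd_pow _ (by omega)) _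
    · rw [finsetSum_coeff, Finset.sum_eq_single μ]
      · simp
      · intro i _ hi
        rw [coeff_C_mul_X_pow, if_neg (Ne.symm hi)]
      · intro hn
        exact absurd (Finset.mem_range.2 (by omega)) hn
    · intro e
      rw [h4 t e y hy, eval_finsetSum]
      apply Finset.sum_congr rfl
      intro i _
      rw [eval_mul, eval_C, eval_pow, eval_X]
      ring

/-- rank in the frame `y_p = 0` -/
theorem frame (m D : ℕ) (F : List ℂ → ℂ) (μ t : ℕ) (h : List ℂ → ℂ)
    (hg : ∀ y : List ℂ, y.length = m → ∃ g : ℂ[X], g.natDegree ≤ D ∧ X ^ μ ∣ g ∧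
      g.coeff μ = h y ∧ ∀ e : ℂ, F (y.map fun a => (t : ℂ) + e * a) = g.eval e)
    (p M : ℕ) (hp : p < m) (hM : OutLe m p M F) :
    RankLe M fun (a : Ls p) (b : Ls (m - p - 1)) => h (a.1 ++ 0 :: b.1) := by
  have hlen : ∀ (a : Ls p) (b : Ls (m - p - 1)), (a.1 ++ (0 : ℂ) :: b.1).length = m := by
    intro a b
    rw [List.length_append, List.length_cons, a.2, b.2]
    omega
  choose g hg1 hg2 hg3 hg4 using fun (a : Ls p) (b : Ls (m - p - 1)) => hg _ (hlen a b)
  have key := rank_lim M μ g hg2 ?_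
  · obtain ⟨A, B, hAB⟩ := key
    refine ⟨A, B, fun x y => ?_⟩
    exact (hg3 x y).symm.trans (hAB x y)
  · intro e _
    obtain ⟨A, B, hAB⟩ := hM (t : ℂ)
    refine ⟨fun i a => A i ⟨a.1.map fun a => (t : ℂ) + e * a, by rw [List.length_map, a.2]⟩,
      fun i b => B i ⟨b.1.map fun a => (t : ℂ) + e * a, by rw [List.length_map, b.2]⟩, ?_⟩
    intro a b
    refine Eq.trans ?_ (hAB _ _)
    show (g a b).eval e = _
    rw [← hg4]
    simp only [List.map_append, List.map_cons, mul_zero, add_zero]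

/-- cut ranks of the lowest form -/
theorem lowcut (m D : ℕ) (F : List ℂ → ℂ) (μ t : ℕ) (h : List ℂ → ℂ)
    (hg : ∀ y : List ℂ, y.length = m → ∃ g : ℂ[X], g.natDegree ≤ D ∧ X ^ μ ∣ g ∧
      g.coeff μ = h y ∧ ∀ e : ℂ, F (y.map fun a => (t : ℂ) + e * a) = g.eval e)
    (p M : ℕ) (hp : p ≤ m) (hM : CutLe m p M F) : CutLe m p M h := by
  have hlen : ∀ (a : Ls p) (b : Ls (m - p)), (a.1 ++ b.1).length = m := by
    intro a b
    rw [List.length_append, a.2, b.2]
    omega
  choose g hg1 hg2 hg3 hg4 using fun (a : Ls p) (b : Ls (m - p)) => hg _ (hlen a b)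
  have key := rank_lim M μ g hg2 ?_
  · obtain ⟨A, B, hAB⟩ := key
    refine ⟨A, B, fun x y => ?_⟩
    exact (hg3 x y).symm.trans (hAB x y)
  · intro e _
    obtain ⟨A, B, hAB⟩ := hM
    refine ⟨fun i a => A i ⟨a.1.map fun a => (t : ℂ) + e * a, by rw [List.length_map, a.2]⟩,
      fun i b => B i ⟨b.1.map fun a => (t : ℂ) + e * a, by rw [List.length_map, b.2]⟩, ?_⟩
    intro a b
    refine Eq.trans ?_ (hAB _ _)
    show (g a b).eval e = _
    rw [← hg4]
    simp only [List.map_append]

end Pool.Agent.KNO
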