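import Pool.Agent.KNO.Dph

set_option autoImplicit false

/-! KNO-Nu: a good `ν`: with `a = 4 N₁ + 4`, `5 N (2 (ν + 5)) ^ a < 2 ^ (ν + 1 - 10 N₁)`. -/

namespace Pool.Agent.KNO

/-- the number of exceptional primes -/
def nuf (N₁ N : ℕ) : ℕ := 2 ^ (N₁ + N + 10)

private theorem nu_sq (m : ℕ) (hm : 11 ≤ m) : 4 * m ^ 2 ≤ 2 ^ m := by
  induction m, hm using Nat.le_induction with
  | base => norm_num
  | succ m hm ih =>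
    rw [pow_succ 2 m]
    have h1 : 4 * (m + 1) ^ 2 ≤ 2 * (4 * m ^ 2) := by nlinarith
    omega

private theorem nu_exp (N₁ N m : ℕ) (hN₁ : 1 ≤ N₁) (hm : m = N₁ + N + 10) :
    (m + 2) * (4 * N₁ + 4) + (N + 2) + 10 * N₁ ≤ 2 ^ m := by
  refine le_trans ?_ (nu_sq m (by omega))
  have h1 : N₁ + 10 ≤ m := by omega
  have h2 : N + N₁ + 10 = m := by omega
  obtain ⟨c, hc⟩ := Nat.exists_eq_add_of_le h1
  have h3 : (m + 2) * (4 * N₁ + 4) ≤ (m + 2) * (4 * m) := Nat.mul_le_mul_left _ (by omega)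
  subst hm
  nlinarith

theorem nu_ok (N₁ N w : ℕ) (hN₁ : 1 ≤ N₁) (hw : 1 ≤ w) :
    (2 * w + 3) * (N * w * dph N₁ (nuf N₁ N) w) < Qf N₁ w ^ (nuf N₁ N + 1) := by
  obtain ⟨m, hm⟩ : ∃ m, m = N₁ + N + 10 := ⟨_, rfl⟩
  have hν : nuf N₁ N = 2 ^ m := by rw [hm]; rfl
  rw [hν]
  obtain ⟨hQ1, hQ2, -, -⟩ := Qf_spec N₁ w hN₁ hw
  have hd := dph_le N₁ (2 ^ m) w hN₁ hw
  generalize Qf N₁ w = Q at hQ1 hQ2
  have hexp := nu_exp N₁ N m hN₁ hm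
  have h5 : 5 ≤ 2 ^ m := by
    have : 2 ^ 3 ≤ 2 ^ m := Nat.pow_le_pow_right (by norm_num) (by omega)
    omega
  have hb : 2 * (2 ^ m + 5) ≤ 2 ^ (m + 2) := by
    rw [pow_add]
    omega
  have hba : (2 * (2 ^ m + 5)) ^ (4 * N₁ + 4) ≤ 2 ^ ((m + 2) * (4 * N₁ + 4)) := by
    rw [pow_mul]
    exact Nat.pow_le_pow_left hb _
  have h3N : 3 * N < 2 ^ (N + 2) := by
    have h1 : N < 2 ^ N := Nat.lt_two_pow_self
    rw [pow_add]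
    omega
  have hw10 : (w + 1) ^ 10 ≤ Q ^ (10 * N₁) := by
    rw [mul_comm 10 N₁, pow_mul]
    exact Nat.pow_le_pow_left hQ1 10
  have hL : (2 * w + 3) * (N * w * dph N₁ (2 ^ m) w) ≤
      (3 * N) * (2 * (2 ^ m + 5)) ^ (4 * N₁ + 4) * (w + 1) ^ 10 := by
    calc (2 * w + 3) * (N * w * dph N₁ (2 ^ m) w) ≤
        (3 * (w + 1)) * (N * (w + 1) * ((2 * (2 ^ m + 5)) ^ (4 * N₁ + 4) * (w + 1) ^ 8)) := by
          apply Nat.mul_le_mul (by omega)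
          apply Nat.mul_le_mul _ hd
          exact Nat.mul_le_mul_left _ (by omega)
      _ = _ := by ring
  have hQpos : 0 < Q ^ (10 * N₁) := Nat.pow_pos (by omega)
  have hLL : (3 * N) * (2 * (2 ^ m + 5)) ^ (4 * N₁ + 4) < 2 ^ ((m + 2) * (4 * N₁ + 4) + (N + 2)) := by
    rw [pow_add 2 ((m + 2) * (4 * N₁ + 4)) (N + 2), mul_comm (2 ^ ((m + 2) * (4 * N₁ + 4)))]
    calc (3 * N) * (2 * (2 ^ m + 5)) ^ (4 * N₁ + 4) ≤ (3 * N) * 2 ^ ((m + 2) * (4 * N₁ + 4)) :=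
          Nat.mul_le_mul_left _ hba
      _ < 2 ^ (N + 2) * 2 ^ ((m + 2) * (4 * N₁ + 4)) :=
          Nat.mul_lt_mul_of_pos_right h3N (Nat.pow_pos (by norm_num))
  calc (2 * w + 3) * (N * w * dph N₁ (2 ^ m) w) ≤
      (3 * N) * (2 * (2 ^ m + 5)) ^ (4 * N₁ + 4) * (w + 1) ^ 10 := hL
    _ ≤ (3 * N) * (2 * (2 ^ m + 5)) ^ (4 * N₁ + 4) * Q ^ (10 * N₁) := Nat.mul_le_mul_left _ hw10
    _ < 2 ^ ((m + 2) * (4 * N₁ + 4) + (N + 2)) * Q ^ (10 * N₁) := Nat.mul_lt_mul_of_pos_right hLL hQpos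
    _ ≤ Q ^ ((m + 2) * (4 * N₁ + 4) + (N + 2)) * Q ^ (10 * N₁) :=
        Nat.mul_le_mul_right _ (Nat.pow_le_pow_left hQ2 _)
    _ = Q ^ ((m + 2) * (4 * N₁ + 4) + (N + 2) + 10 * N₁) := by rw [← pow_add]
    _ ≤ Q ^ (2 ^ m + 1) := Nat.pow_le_pow_right (by omega) (by omega)

end Pool.Agent.KNO
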