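import Pool.Agent.KNO.GD

set_option autoImplicit false

/-! KNO-RecW: a group closed by a killed merge. -/

namespace Pool.Agent.KNO

private theorem RecW_cast {i j p q r : ℕ} (H : List ℂ → List ℂ → ℂ) (hi : i = j) (hp : p = q)
    (h : RankLe r fun (a : Ls i) (c : Ls p) => H a.1 c.1) :
    RankLe r fun (a : Ls j) (c : Ls q) => H a.1 c.1 := by
  subst hi
  subst hp
  exact h

private theorem RecW_tot (done : List (List Bool)) (g : List Bool) :
    tot (done ++ [g]) = tot done + (g.length + 1) := by
  simp [tot]

/-- a group closed at a cut with data `c` gets `(c.1 + 1, c.2)` -/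
theorem close_wall (N₁ k N Q w ν m : ℕ) (F : List ℂ → ℂ) (cs : List (ℕ × ℕ)) (hN₁ : 1 ≤ N₁)
    (hB : BInv N₁ k N Q w m F cs) (done : List (List Bool)) (us : List (ℕ × ℕ))
    (hG : GD N₁ k Q w ν m F cs done us) (cur : List Bool)
    (hok : okg N₁ (true :: cur) = true) (n : ℕ) (hm : tot done + cur.length + 1 + (n + 1) = m)
    (hi : tot done + cur.length < cs.length)
    (hr : ∀ u v : ℂ, RankLe (w / Q ^ (cs[tot done + cur.length]).1 / Q)
      fun (a : Ls done.length) (c : Ls n) =>
        F (evs (qb Q w ν) done a.1 ++ cat (qb Q w ν) cur u ++ v :: c.1)) :
    ∃ u, GD N₁ k Q w ν m F cs (done ++ [true :: cur]) (us ++ [u]) := by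
  have hlen := hG.len
  have htot := RecW_tot done (true :: cur)
  rw [List.length_cons] at htot
  refine ⟨((cs[tot done + cur.length]).1 + 1, (cs[tot done + cur.length]).2), ?_, ?_, ?_, ?_, ?_⟩
  · simp [hlen]
  · intro g hg
    rcases List.mem_append.1 hg with h | h
    · exact hG.ok g h
    · rw [List.mem_singleton.1 h]
      exact hok
  · intro i hi' v
    by_cases h : i < us.length
    · have h1 := hG.out i h v
      have e1 : (us ++ [((cs[tot done + cur.length]).1 + 1, (cs[tot done + cur.length]).2)])[i] = us[i] :=
        List.getElem_append_left h
      have e2 : (done ++ [true :: cur]).take (i + 1) = done.take (i + 1) :=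
        List.take_append_of_le_length (by omega)
      have e3 : (done ++ [true :: cur]).take i = done.take i :=
        List.take_append_of_le_length (by omega)
      have e4 : (done ++ [true :: cur]).getD i [] = done.getD i [] :=
        List.getD_append _ _ _ _ (by omega)
      rw [e1, e3, e4]
      exact RecW_cast (fun a c => F (evs (qb Q w ν) (done.take i) a ++
        cat (qb Q w ν) (done.getD i []) v ++ c)) rfl (by rw [e2]) h1
    · have hi2 : i = done.length := by
        rw [List.length_append, List.length_singleton] at hi'
        omega
      subst hi2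
      have e1 : (us ++ [((cs[tot done + cur.length]).1 + 1, (cs[tot done + cur.length]).2)])[done.length] =
          ((cs[tot done + cur.length]).1 + 1, (cs[tot done + cur.length]).2) := by
        rw [List.getElem_append_right (by omega)]
        simp
      have e2 : (done ++ [true :: cur]).take (done.length + 1) = done ++ [true :: cur] :=
        List.take_of_length_le (by simp)
      have e3 : (done ++ [true :: cur]).take done.length = done := by simp
      have e4 : (done ++ [true :: cur]).getD done.length [] = true :: cur := by
        simp
      have e5 : w / Q ^ ((cs[tot done + cur.length]).1 + 1) =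
          w / Q ^ (cs[tot done + cur.length]).1 / Q := by
        rw [pow_succ, Nat.div_div_eq_div_mul]
      rw [e1, e3, e4]
      dsimp only
      rw [e5]
      refine RecW_cast (fun a c => F (evs (qb Q w ν) done a ++
        cat (qb Q w ν) (true :: cur) v ++ c)) (p := n) rfl (by rw [e2]; omega) ?_
      have h1 := hr (qb Q w ν true v) (v * qb Q w ν true v)
      have h2 : (fun (a : Ls done.length) (c : Ls n) => F (evs (qb Q w ν) done a.1 ++
          cat (qb Q w ν) (true :: cur) v ++ c.1)) =
          fun (a : Ls done.length) (c : Ls n) =>
            F (evs (qb Q w ν) done a.1 ++ cat (qb Q w ν) cur (qb Q w ν true v) ++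
              (v * qb Q w ν true v) :: c.1) := by
        funext a c
        congr 1
        simp [cat]
      rw [h2]
      exact h1
  · intro u hu
    rcases List.mem_append.1 hu with h | h
    · exact hG.grow u h
    · rw [List.mem_singleton.1 h]
      have h1 := hB.grow _ (List.getElem_mem hi)
      calc N₁ ^ (k + 1) = N₁ ^ k * N₁ := pow_succ _ _
        _ ≤ (cs[tot done + cur.length]).2 * N₁ ^ (cs[tot done + cur.length]).1 * N₁ :=
          Nat.mul_le_mul_right _ h1
        _ = (cs[tot done + cur.length]).2 * N₁ ^ ((cs[tot done + cur.length]).1 + 1) := by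
          rw [pow_succ, mul_assoc]
  · rw [htot, List.map_append, List.sum_append]
    have e1 : tot done + (cur.length + 1 + 1) = tot done + (cur.length + 2) := by omega
    rw [e1, List.take_add, List.map_append, List.sum_append]
    refine Nat.add_le_add hG.sum ?_
    have hmem : cs[tot done + cur.length] ∈ (cs.drop (tot done)).take (cur.length + 2) := by
      rw [List.mem_iff_getElem]
      refine ⟨cur.length, ?_, ?_⟩
      · rw [List.length_take, List.length_drop]
        omega
      · rw [List.getElem_take, List.getElem_drop]
    have h2 := List.single_le_sum (l := ((cs.drop (tot done)).take (cur.length + 2)).map Prod.snd)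
      (fun x _ => Nat.zero_le x) _ (List.mem_map_of_mem (f := Prod.snd) hmem)
    simpa using h2

end Pool.Agent.KNO
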