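import Pool.Agent.KNO.RecF
import Pool.Agent.KNO.RecW

set_option autoImplicit false

/-! KNO-Rec: the caterpillar pass through a row. -/

namespace Pool.Agent.KNO

private theorem Rec_snoc (q : Bool → ℂ → ℂ) (done : List (List Bool)) (g : List Bool) (x : List ℂ) (z : ℂ)
    (h : x.length = done.length) : evs q (done ++ [g]) (x ++ [z]) = evs q done x ++ cat q g z := by
  rw [evs_append q done [g] x [z] h]
  simp [evs]

private theorem Rec_next {Q w ν : ℕ} {F : List ℂ → ℂ} {done : List (List Bool)} {cur : List Bool} {n : ℕ}
    (h : St Q w ν F done cur (n + 1)) : St Q w ν F (done ++ [cur]) [] n := by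
  obtain ⟨x, z, r, h1, h2, h3⟩ := h
  match r, h2 with
  | v :: r', h2 =>
    refine ⟨x ++ [z], v, r', by simp [h1], by simpa using h2, ?_⟩
    rw [Rec_snoc _ _ _ _ _ h1]
    simpa [cat] using h3

private theorem Rec_last {Q w ν : ℕ} {F : List ℂ → ℂ} {done : List (List Bool)} {cur : List Bool}
    (h : St Q w ν F done cur 0) : ∃ x : List ℂ, x.length = done.length + 1 ∧
      F (evs (qb Q w ν) (done ++ [cur]) x) ≠ 0 := by
  obtain ⟨x, z, r, h1, h2, h3⟩ := h
  have hr : r = [] := List.eq_nil_of_length_eq_zero h2
  subst hr
  refine ⟨x ++ [z], by simp [h1], ?_⟩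
  rw [Rec_snoc _ _ _ _ _ h1]
  simpa using h3

private theorem Rec_tot (done : List (List Bool)) (g : List Bool) : tot (done ++ [g]) = tot done + (g.length + 1) := by
  rw [tot_append]
  simp [tot]

private theorem Rec_len {cur : List Bool} (h : cur.count true = 0) : cur.count false = cur.length := by
  induction cur with
  | nil => rfl
  | cons a t ih =>
    cases a
    · rw [List.count_cons_of_ne (by decide)] at h
      rw [List.count_cons_self, ih h, List.length_cons]
    · rw [List.count_cons_self] at h
      omega

private theorem Rec_okg {N₁ : ℕ} {g : List Bool} : okg N₁ g = true ↔ g.count false ≤ N₁ ∧ g.count true ≤ 1 := by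
  simp [okg]

/-- the pass: `ms` are the moves for the `n` raw units -/
theorem pass (N₁ k N Q w ν m D : ℕ) (F : List ℂ → ℂ) (hF : IsPol m D F) (hN₁ : 1 ≤ N₁)
    (hQ : 1 ≤ Q) (hQw : Q ≤ w + 1)
    (hν : (2 * w + 3) * (D * (dgq Q ν ^ N₁ * dgq (w + 1) ν)) < Q ^ (ν + 1))
    (cs : List (ℕ × ℕ)) (hB : BInv N₁ k N Q w m F cs) :
    ∀ (n : ℕ) (done : List (List Bool)) (us : List (ℕ × ℕ)) (cur : List Bool),
      GD N₁ k Q w ν m F cs done us → okg N₁ cur = true → cur.count true = 0 →
      tot done + cur.length + 1 + n = m → St Q w ν F done cur n →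
      ∃ (ms : List (Option Bool)) (done' : List (List Bool)) (last : List Bool)
        (us' : List (ℕ × ℕ)), ms.length = n ∧ done ++ dec cur ms = done' ++ [last] ∧
        okg N₁ last = true ∧ GD N₁ k Q w ν m F cs done' us' ∧
        ∃ x : List ℂ, x.length = done'.length + 1 ∧
          F (evs (qb Q w ν) (done' ++ [last]) x) ≠ 0 := by
  intro n
  induction n using Nat.strong_induction_on with
  | _ n ih =>
    intro done us cur hG hok hct hm hst
    match n, ih, hm, hst with
    | 0, _, _, hst =>
      exact ⟨[], done, cur, us, rfl, rfl, hok, hG, Rec_last hst⟩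
    | n + 1, ih, hm, hst =>
      have hlen : cur.length ≤ N₁ := by
        rw [← Rec_len hct]
        exact (Rec_okg.1 hok).1
      rcases Nat.lt_or_ge cur.length N₁ with hlt | hge
      · have hi : tot done + cur.length < cs.length := by
          rw [hB.len]
          omega
        have hcut := hB.cut (tot done + cur.length) hi
        have hrw : w / Q ^ (cs[tot done + cur.length]).1 ≤ w := Nat.div_le_self _ _
        rcases step N₁ Q w ν m D _ false F hF hQ hQw hrw hν done cur n hm hok hcut hst with h1 | h1
        · have hok' : okg N₁ (false :: cur) = true := by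
            rw [Rec_okg, List.count_cons_self, List.count_cons_of_ne (by decide), Rec_len hct, hct]
            omega
          obtain ⟨ms, done', last, us', h2, h3, h4, h5, h6⟩ := ih n (Nat.lt_succ_self n) done us (false :: cur) hG
            hok' (by rw [List.count_cons_of_ne (by decide), hct]) (by rw [List.length_cons]; omega) h1
          exact ⟨some false :: ms, done', last, us', by rw [List.length_cons, h2], h3, h4, h5, h6⟩
        · have hok' : okg N₁ (true :: cur) = true := by
            rw [Rec_okg, List.count_cons_self, List.count_cons_of_ne (by decide), Rec_len hct, hct]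
            omega
          have hfull := full N₁ Q w ν m D _ F hF hQ hQw hrw hν done cur n hm hok hcut hst
          match n, ih, hm, hst, h1, hfull with
          | 0, _, _, _, _, hfull =>
            exact ⟨[some true], done, true :: cur, us, rfl, rfl, hok', hG, Rec_last hfull⟩
          | n + 1, ih, hm, hst, h1, hfull =>
            obtain ⟨u, hu⟩ := close_wall N₁ k N Q w ν m F cs hN₁ hB done us hG cur hok' (n + 1) hm hi
              (fun u v => by simpa using h1 u v)
            obtain ⟨ms, done', last, us', h2, h3, h4, h5, h6⟩ := ih n (by omega) (done ++ [true :: cur]) (us ++ [u])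
              [] hu (by simp [okg]) (by simp) (by rw [Rec_tot, List.length_cons, List.length_nil]; omega)
              (Rec_next hfull)
            refine ⟨some true :: none :: ms, done', last, us', by simp [h2], ?_, h4, h5, h6⟩
            rw [← h3]
            simp [dec]
      · obtain ⟨u, hu⟩ := close_full N₁ k N Q w ν m F cs hN₁ hB done us hG cur (le_antisymm hlen hge) hok n hm
        obtain ⟨ms, done', last, us', h2, h3, h4, h5, h6⟩ := ih n (by omega) (done ++ [cur]) (us ++ [u])
          [] hu (by simp [okg]) (by simp) (by rw [Rec_tot, List.length_nil]; omega) (Rec_next hst)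
        refine ⟨none :: ms, done', last, us', by simp [h2], ?_, h4, h5, h6⟩
        rw [← h3]
        simp [dec]

end Pool.Agent.KNO
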