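import Pool.Agent.KNO.GD

set_option autoImplicit false

/-! KNO-RecF: a full group. -/

namespace Pool.Agent.KNO

private theorem RecF_sum (A B : ℕ) (L : List (ℕ × ℕ)) (h : ∀ c ∈ L, A ≤ c.2 * B) :
    L.length * A ≤ (L.map Prod.snd).sum * B := by
  induction L with
  | nil => simp
  | cons c L ih =>
    have h1 := h c List.mem_cons_self
    have h2 := ih fun d hd => h d (List.mem_cons_of_mem _ hd)
    rw [List.length_cons, List.map_cons, List.sum_cons, add_mul, add_mul, one_mul]
    omega

/-- a full group gets the largest label and the sum of the sizes of its cuts -/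
theorem close_full (N₁ k N Q w ν m : ℕ) (F : List ℂ → ℂ) (cs : List (ℕ × ℕ)) (hN₁ : 1 ≤ N₁)
    (hB : BInv N₁ k N Q w m F cs) (done : List (List Bool)) (us : List (ℕ × ℕ))
    (hG : GD N₁ k Q w ν m F cs done us) (cur : List Bool) (hcur : cur.length = N₁)
    (hok : okg N₁ cur = true) (n : ℕ) (hm : tot done + cur.length + 1 + (n + 1) = m) :
    ∃ u, GD N₁ k Q w ν m F cs (done ++ [cur]) (us ++ [u]) := by
  have htot : tot (done ++ [cur]) = tot done + (N₁ + 1) := by
    rw [tot_append]
    simp [tot, hcur]
  have hcs : cs.length = tot done + N₁ + (n + 1) := by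
    rw [hB.len, ← hm, hcur]
    omega
  -- the inner cut with the largest label
  obtain ⟨i0, hi0, hmax⟩ := Finset.exists_max_image (Finset.range N₁)
    (fun i => (cs.getD (tot done + i) (0, 0)).1) ⟨0, Finset.mem_range.2 (by omega)⟩
  rw [Finset.mem_range] at hi0
  obtain ⟨c0, hc0⟩ : ∃ c0, c0 = cs.getD (tot done + i0) (0, 0) := ⟨_, rfl⟩
  have hi0' : tot done + i0 < cs.length := by omega
  have hc0' : c0 = cs[tot done + i0] := by
    rw [hc0, List.getD_eq_getElem _ _ hi0']
  obtain ⟨L, hL⟩ : ∃ L, L = (cs.drop (tot done)).take N₁ := ⟨_, rfl⟩
  have hLlen : L.length = N₁ := by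
    rw [hL, List.length_take, List.length_drop]
    omega
  have hLmem : ∀ c ∈ L, c ∈ cs ∧ c.1 ≤ c0.1 := by
    intro c hc
    obtain ⟨i, hi, hic⟩ := List.mem_iff_getElem.1 hc
    have hi' : i < N₁ := by omega
    have hi2 : tot done + i < cs.length := by omega
    have h1 : c = cs[tot done + i] := by
      rw [← hic]
      simp [hL]
    refine ⟨?_, ?_⟩
    · rw [h1]
      exact List.getElem_mem hi2
    · have h2 := hmax i (Finset.mem_range.2 hi')
      rw [List.getD_eq_getElem _ _ hi2, ← hc0] at h2
      rw [h1]
      exact h2
  refine ⟨(c0.1, (L.map Prod.snd).sum), ?_, ?_, ?_, ?_, ?_⟩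
  · rw [List.length_append, List.length_append, hG.len]
    rfl
  · intro g hg
    rcases List.mem_append.1 hg with h | h
    · exact hG.ok g h
    · rw [List.mem_singleton.1 h]
      exact hok
  · intro i hi v
    have hlen := hG.len
    rw [List.length_append, List.length_singleton] at hi
    rcases Nat.lt_or_ge i us.length with h | h
    · have h1 := hG.out i h v
      have e1 : (done ++ [cur]).take (i + 1) = done.take (i + 1) :=
        List.take_append_of_le_length (by omega)
      have e2 : (done ++ [cur]).take i = done.take i :=
        List.take_append_of_le_length (by omega)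
      have e3 : (done ++ [cur]).getD i [] = done.getD i [] :=
        List.getD_append _ _ _ _ (by omega)
      rw [List.getElem_append_left h]
      rw [e1, e2, e3]
      exact h1
    · have hi1 : i = done.length := by omega
      subst hi1
      have e1 : (done ++ [cur]).take (done.length + 1) = done ++ [cur] := by
        rw [List.take_of_length_le]
        rw [List.length_append, List.length_singleton]
      have e2 : (done ++ [cur]).take done.length = done := List.take_left
      have e3 : (done ++ [cur]).getD done.length [] = cur := by
        rw [List.getD_append_right _ _ _ _ le_rfl, Nat.sub_self]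
        rfl
      have e4 : (us ++ [(c0.1, (L.map Prod.snd).sum)])[done.length]'(by
          rw [List.length_append, List.length_singleton]; exact hi) =
          (c0.1, (L.map Prod.snd).sum) := by
        rw [List.getElem_append_right (by omega)]
        simp
      rw [e4, e1, e2, e3, htot]
      have hcut := hB.cut (tot done + i0) hi0'
      rw [← hc0'] at hcut
      have hca : (cat (qb Q w ν) cur v).length = N₁ + 1 := by rw [length_cat, hcur]
      refine (RankLe.comp hcut
        (fun a : Ls done.length => (⟨evs (qb Q w ν) done a.1 ++ (cat (qb Q w ν) cur v).take (i0 + 1),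
          by
            rw [List.length_append, length_evs _ _ _ a.2, List.length_take, hca]
            omega⟩ : Ls (tot done + i0 + 1)))
        (fun c : Ls (m - (tot done + (N₁ + 1))) => (⟨(cat (qb Q w ν) cur v).drop (i0 + 1) ++ c.1,
          by
            rw [List.length_append, List.length_drop, hca, c.2]
            omega⟩ : Ls (m - (tot done + i0 + 1))))).congr fun a c => ?_
      show F ((evs (qb Q w ν) done a.1 ++ (cat (qb Q w ν) cur v).take (i0 + 1)) ++
        ((cat (qb Q w ν) cur v).drop (i0 + 1) ++ c.1)) = _
      congr 1
      rw [List.append_assoc, ← List.append_assoc (List.take (i0 + 1) _), List.take_append_drop,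
        List.append_assoc]
  · intro u hu
    rcases List.mem_append.1 hu with h | h
    · exact hG.grow u h
    · rw [List.mem_singleton.1 h]
      show N₁ ^ (k + 1) ≤ (L.map Prod.snd).sum * N₁ ^ c0.1
      have h1 := RecF_sum (N₁ ^ k) (N₁ ^ c0.1) L fun c hc => by
        have h2 := hB.grow c (hLmem c hc).1
        exact h2.trans (Nat.mul_le_mul_left _ (Nat.pow_le_pow_right hN₁ (hLmem c hc).2))
      rw [hLlen] at h1
      rw [pow_succ, mul_comm]
      exact h1
  · rw [List.map_append, List.sum_append, htot]
    have h1 : (cs.take (tot done + (N₁ + 1))) = cs.take (tot done) ++ (cs.drop (tot done)).take (N₁ + 1) :=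
      List.take_add
    have h2 : (cs.drop (tot done)).take (N₁ + 1) = L ++ ((cs.drop (tot done)).drop N₁).take 1 := by
      rw [hL]
      exact List.take_add
    rw [h1, h2, List.map_append, List.map_append, List.sum_append, List.sum_append]
    have h3 := hG.sum
    have h4 : ([(c0.1, (L.map Prod.snd).sum)].map Prod.snd).sum = (L.map Prod.snd).sum := by simp
    rw [h4]
    omega

end Pool.Agent.KNO
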