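import Pool.Agent.KNO.Defs
import Pool.Agent.KNM.MvRank

set_option autoImplicit false

/-! KNO-Rk: ranks of kernels. -/

namespace Pool.Agent.KNO

theorem RankLe.mono {α β : Type*} {r s : ℕ} {G : α → β → ℂ} (h : RankLe r G) (hrs : r ≤ s) :
    RankLe s G := by
  obtain ⟨A, B, hAB⟩ := h
  obtain ⟨k, rfl⟩ := Nat.exists_eq_add_of_le hrs
  refine ⟨Fin.append A (fun _ _ => 0), Fin.append B (fun _ _ => 0), fun x y => ?_⟩
  rw [Fin.sum_univ_add]
  simp only [Fin.append_left, Fin.append_right, mul_zero, Finset.sum_const_zero, add_zero]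
  exact hAB x y

theorem RankLe.comp {α β α' β' : Type*} {r : ℕ} {G : α → β → ℂ} (h : RankLe r G)
    (f : α' → α) (g : β' → β) : RankLe r fun x y => G (f x) (g y) := by
  obtain ⟨A, B, hAB⟩ := h
  exact ⟨fun i x => A i (f x), fun i y => B i (g y), fun x y => hAB _ _⟩

theorem RankLe.congr {α β : Type*} {r : ℕ} {G G' : α → β → ℂ} (h : RankLe r G)
    (hG : ∀ x y, G x y = G' x y) : RankLe r G' := by
  obtain ⟨A, B, hAB⟩ := h
  exact ⟨A, B, fun x y => (hG x y).symm.trans (hAB x y)⟩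

theorem rank_zero {α β : Type*} {G : α → β → ℂ} (h : RankLe 0 G) (x : α) (y : β) : G x y = 0 := by
  obtain ⟨A, B, hAB⟩ := h
  simpa using hAB x y

/-- `RankLe r` means: all minors of size `r + 1` vanish -/
theorem rank_det {α β : Type*} (r : ℕ) (G : α → β → ℂ) :
    RankLe r G ↔ ∀ (x : Fin (r + 1) → α) (y : Fin (r + 1) → β),
      (Matrix.of fun i j => G (x i) (y j)).det = 0 :=
  ⟨fun h => KNM.mv_of_fac G r h, fun h => KNM.fac_of_mv G r h⟩

end Pool.Agent.KNO
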