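import Pool.Agent.KNO.Deg
import Pool.Agent.KNO.Dich

set_option autoImplicit false

/-! KNO-Stp: one merge. -/

namespace Pool.Agent.KNO

/-- finished groups `done`, current group `cur`, `n` raw units: not zero -/
def St (Q w ν : ℕ) (F : List ℂ → ℂ) (done : List (List Bool)) (cur : List Bool) (n : ℕ) : Prop :=
  ∃ (x : List ℂ) (z : ℂ) (r : List ℂ), x.length = done.length ∧ r.length = n ∧
    F (evs (qb Q w ν) done x ++ cat (qb Q w ν) cur z ++ r) ≠ 0

/-- try to merge the next unit; if the result is zero, the outer rank drops -/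
theorem step (N₁ Q w ν m D r : ℕ) (b : Bool) (F : List ℂ → ℂ) (hF : IsPol m D F)
    (hQ : 1 ≤ Q) (hQw : Q ≤ w + 1) (hr : r ≤ w)
    (hν : (2 * w + 3) * (D * (dgq Q ν ^ N₁ * dgq (w + 1) ν)) < Q ^ (ν + 1))
    (done : List (List Bool)) (cur : List Bool) (n : ℕ)
    (hm : tot done + cur.length + 1 + (n + 1) = m) (hcur : okg N₁ cur = true)
    (hcut : CutLe m (tot done + cur.length + 1) r F)
    (hst : St Q w ν F done cur (n + 1)) :
    St Q w ν F done (b :: cur) n ∨ ∀ u v : ℂ,
      RankLe (r / (if b then w + 1 else Q)) fun (a : Ls done.length) (c : Ls n) =>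
        F (evs (qb Q w ν) done a.1 ++ cat (qb Q w ν) cur u ++ v :: c.1) := by
  classical
  by_cases hSt : St Q w ν F done (b :: cur) n
  · exact Or.inl hSt
  refine Or.inr ?_
  have hz : ∀ (x : List ℂ) (z : ℂ) (y : List ℂ), x.length = done.length → y.length = n →
      F (evs (qb Q w ν) done x ++ cat (qb Q w ν) (b :: cur) z ++ y) = 0 := by
    intro x z y hx hy
    by_contra hne
    exact hSt ⟨x, z, y, hx, hy, hne⟩
  obtain ⟨K, hKdef⟩ : ∃ K : ℕ, K = if b then w + 1 else Q := ⟨_, rfl⟩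
  have hQK : Q ≤ K := by
    rw [hKdef]
    cases b
    · simp
    · simpa using hQw
  have hK : 1 ≤ K := le_trans hQ hQK
  have hqK : ∀ z : ℂ, qb Q w ν b z = qp K ν z := by
    intro z
    rw [hKdef]
    rfl
  rw [← hKdef]
  have hD : (2 * (r / K + 1) + 1) * (D * (dgq Q ν ^ N₁ * dgq (w + 1) ν)) < K ^ (ν + 1) := by
    have h1 : r / K ≤ w := le_trans (Nat.div_le_self r K) hr
    have h2 : (2 * (r / K + 1) + 1) ≤ 2 * w + 3 := by omega
    calc (2 * (r / K + 1) + 1) * (D * (dgq Q ν ^ N₁ * dgq (w + 1) ν))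
        ≤ (2 * w + 3) * (D * (dgq Q ν ^ N₁ * dgq (w + 1) ν)) := Nat.mul_le_mul_right _ h2
      _ < Q ^ (ν + 1) := hν
      _ ≤ K ^ (ν + 1) := Nat.pow_le_pow_left hQK _
  have hlen1 : ∀ (a : Ls done.length × ℂ),
      (evs (qb Q w ν) done a.1.1 ++ cat (qb Q w ν) cur a.2).length =
        tot done + cur.length + 1 := by
    intro a
    rw [List.length_append, length_evs _ _ _ a.1.2, length_cat]
    omega
  have hlen2 : ∀ (c : ℂ × Ls n), (c.1 :: c.2.1).length = m - (tot done + cur.length + 1) := by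
    intro c
    rw [List.length_cons, c.2.2]
    omega
  have hrk : RankLe r fun (a : Ls done.length × ℂ) (c : ℂ × Ls n) =>
      F (evs (qb Q w ν) done a.1.1 ++ cat (qb Q w ν) cur a.2 ++ c.1 :: c.2.1) :=
    RankLe.comp hcut (fun a : Ls done.length × ℂ =>
        (⟨evs (qb Q w ν) done a.1.1 ++ cat (qb Q w ν) cur a.2, hlen1 a⟩ :
          Ls (tot done + cur.length + 1)))
      (fun c : ℂ × Ls n => (⟨c.1 :: c.2.1, hlen2 c⟩ : Ls (m - (tot done + cur.length + 1))))
  have h0 : ∀ (x : Ls done.length) (z : ℂ) (y : Ls n),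
      F (evs (qb Q w ν) done x.1 ++ cat (qb Q w ν) cur (qp K ν z) ++ (z * qp K ν z) :: y.1) = 0 := by
    intro x z y
    have h1 := hz x.1 z y.1 x.2 y.2
    have h2 : cat (qb Q w ν) (b :: cur) z =
        cat (qb Q w ν) cur (qb Q w ν b z) ++ [z * qb Q w ν b z] := rfl
    rw [h2, hqK] at h1
    rw [← h1]
    congr 1
    simp only [List.append_assoc, List.singleton_append]
  intro u v
  exact dich K ν r (D * (dgq Q ν ^ N₁ * dgq (w + 1) ν)) hK hD
    (X := Ls done.length) (Y := Ls n)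
    (fun x u v y => F (evs (qb Q w ν) done x.1 ++ cat (qb Q w ν) cur u ++ v :: y.1))
    (fun x y => step_pol N₁ Q w ν m D F hF done cur n hm hcur x.1 y.1 x.2 y.2) hrk h0 u v

/-- a full merge is never zero -/
theorem full (N₁ Q w ν m D r : ℕ) (F : List ℂ → ℂ) (hF : IsPol m D F)
    (hQ : 1 ≤ Q) (hQw : Q ≤ w + 1) (hr : r ≤ w)
    (hν : (2 * w + 3) * (D * (dgq Q ν ^ N₁ * dgq (w + 1) ν)) < Q ^ (ν + 1))
    (done : List (List Bool)) (cur : List Bool) (n : ℕ)
    (hm : tot done + cur.length + 1 + (n + 1) = m) (hcur : okg N₁ cur = true)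
    (hcut : CutLe m (tot done + cur.length + 1) r F)
    (hst : St Q w ν F done cur (n + 1)) : St Q w ν F done (true :: cur) n := by
  rcases step N₁ Q w ν m D r true F hF hQ hQw hr hν done cur n hm hcur hcut hst with h | h
  · exact h
  · exfalso
    obtain ⟨x, z, rr, hx, hrr, hne⟩ := hst
    cases rr with
    | nil => simp at hrr
    | cons v y =>
      have h1 := h z v
      have h2 : r / (if (true : Bool) then w + 1 else Q) = 0 := by
        rw [if_pos rfl]
        exact Nat.div_eq_of_lt (by omega)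
      rw [h2] at h1
      have hy : y.length = n := by simpa using hrr
      exact hne (rank_zero h1 (⟨x, hx⟩ : Ls done.length) (⟨y, hy⟩ : Ls n))

end Pool.Agent.KNO
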