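import Pool.Agent.KNO.Low
import Pool.Agent.KNO.Dif

set_option autoImplicit false

/-! KNO-T1: outer ranks become cut ranks, and the degree is reset. -/

namespace Pool.Agent.KNO

theorem T1 (m D w : ℕ) (F : List ℂ → ℂ) (hm : 1 ≤ m) (hF : IsPol m D F) (hne : Nz m F)
    (hcut : ∀ p, 1 ≤ p → p < m → CutLe m p w F) :
    ∃ (t : ℕ) (H : List ℂ → ℂ), t ≤ D ∧ IsPol (m - 1) ((m - 1) * w) H ∧ Nz (m - 1) H ∧
      (∀ p M, 1 ≤ p → p < m → OutLe m p M F → CutLe (m - 1) p M H) ∧
      ∀ l : List ℂ, l.length = m - 1 → H l ≠ 0 →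
        ∃ e : ℕ, e ≤ D ∧ F (shf (t : ℂ) ((e : ℂ) + 1) l) ≠ 0 := by
  obtain ⟨μ, t, h, ht, hpol, hnz, hhom, htr, hg⟩ := lowest m D F hm hF hne
  have hcut' : ∀ p, 1 ≤ p → p < m → CutLe m p w h := fun p _ h2 =>
    lowcut m D F μ t h hg p w h2.le (hcut p ‹_› h2)
  have hμ : μ ≤ (m - 1) * w := difdeg m μ w hm h hpol hnz hhom htr hcut'
  have hpol' : IsPol m ((m - 1) * w) h := by
    obtain ⟨q, hq, he⟩ := hpol
    exact ⟨q, hq.trans hμ, he⟩
  refine ⟨t, fun z => h (pre z), ht, difpol m ((m - 1) * w) hm h hpol', difnz m hm h hnz htr,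
    ?_, ?_⟩
  · intro p M _ h2 ho
    exact difcut m p M h2 h htr (frame m D F μ t h hg p M h2 ho)
  · intro l hl hH
    have hlen : (pre l).length = m := by
      unfold pre
      rw [List.length_scanl, hl]
      omega
    obtain ⟨g, hgd, -, hgc, hge⟩ := hg (pre l) hlen
    by_contra hcon
    push Not at hcon
    refine hH ?_
    show h (pre l) = 0
    have hg0 : g = 0 := by
      refine Polynomial.eq_zero_of_natDegree_lt_card_of_eval_eq_zero g
        (f := fun i : Fin (D + 1) => ((i : ℕ) : ℂ) + 1) ?_ ?_ ?_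
      · intro i j hij
        have h1 : ((i : ℕ) : ℂ) = ((j : ℕ) : ℂ) := add_right_cancel hij
        exact Fin.ext (by exact_mod_cast h1)
      · intro i
        have h1 := hcon i (Nat.lt_succ_iff.1 i.2)
        rw [← hge]
        exact h1
      · rw [Fintype.card_fin]
        omega
    rw [← hgc, hg0, Polynomial.coeff_zero]

end Pool.Agent.KNO
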