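import Pool.Agent.KNO.WinInit

/-! KNO-Win: the window curve hits every polynomial with small cut ranks, of any degree. -/

set_option autoImplicit false

namespace Pool.Agent.KNO.Win

open MvPolynomial

/-- a coefficient of low order survives -/
theorem low_coeff {R Q : Polynomial ℂ} (hR : R ≠ 0) {E : ℕ} (hE : R.natDegree < E) :
    ∃ r < E, (R + Polynomial.X ^ E * Q).coeff r ≠ 0 := by
  refine ⟨R.natDegree, hE, ?_⟩
  rw [Polynomial.coeff_add, Polynomial.coeff_X_pow_mul', if_neg (not_le.2 hE), add_zero, Polynomial.coeff_natDegree]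
  exact Polynomial.leadingCoeff_ne_zero.2 hR

/-- `f = f_k + (higher components)`: substitution of `X ^ b * c` -/
theorem aeval_low {N : ℕ} {f : MvPolynomial (Fin N) ℂ} {k : ℕ} (hk : ∀ m < k, homogeneousComponent m f = 0)
    (b : ℕ) (c : Fin N → Polynomial ℂ) : ∃ Q : Polynomial ℂ,
      aeval (fun i => Polynomial.X ^ b * c i) f =
        Polynomial.X ^ (b * k) * (aeval c (homogeneousComponent k f) + Polynomial.X ^ b * Q) := by
  -- homogeneous components
  have hcomp : ∀ m, aeval (fun i => Polynomial.X ^ b * c i) (homogeneousComponent m f) =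
      Polynomial.X ^ (b * m) * aeval c (homogeneousComponent m f) := by
    intro m
    have hh := homogeneousComponent_isHomogeneous m f
    set g := homogeneousComponent m f
    have h1 : ∀ (φ : Fin N → Polynomial ℂ), aeval φ g = ∑ d ∈ g.support, Polynomial.C (coeff d g) * ∏ i, φ i ^ d i := by
      intro φ
      rw [aeval_def, eval₂_eq']
      rfl
    rw [h1, h1, Finset.mul_sum]
    refine Finset.sum_congr rfl fun d hd => ?_
    have hdeg : ∑ p, d p = m := by
      have h2 := hh (mem_support_iff.1 hd)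
      rw [← h2, Finsupp.weight_apply, Finsupp.sum_fintype _ _ (fun i => by simp)]
      simp
    simp_rw [mul_pow]
    rw [Finset.prod_mul_distrib, Finset.prod_pow_eq_pow_sum, hdeg, ← pow_mul]
    ring
  obtain ⟨M, hM⟩ : ∃ M, f.totalDegree ≤ k + M := ⟨f.totalDegree, by omega⟩
  have hsum : f = ∑ j ∈ Finset.range (M + 1), homogeneousComponent (k + j) f := by
    conv_lhs => rw [← sum_homogeneousComponent f]
    have h2 : ∑ i ∈ Finset.range (f.totalDegree + 1), homogeneousComponent i f =
        ∑ i ∈ Finset.range (k + (M + 1)), homogeneousComponent i f := by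
      refine Finset.sum_subset (fun i hi => ?_) (fun i _ hi => ?_)
      · rw [Finset.mem_range] at hi ⊢
        omega
      · rw [Finset.mem_range, not_lt] at hi
        exact homogeneousComponent_eq_zero _ _ (by omega)
    rw [h2, Finset.sum_range_add, Finset.sum_eq_zero (fun i hi => hk i (Finset.mem_range.1 hi)), zero_add]
  refine ⟨∑ j ∈ Finset.range M, Polynomial.X ^ (b * j) * aeval c (homogeneousComponent (k + (j + 1)) f), ?_⟩
  conv_lhs => rw [hsum]
  rw [map_sum, Finset.sum_range_succ', add_comm, mul_add, hcomp, add_zero]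
  congr 1
  rw [Finset.mul_sum, Finset.mul_sum]
  refine Finset.sum_congr rfl fun j _ => ?_
  rw [hcomp, ← mul_assoc, ← mul_assoc, ← pow_add, ← pow_add]
  congr 2
  ring

theorem aeval_sum' {N : ℕ} (g : MvPolynomial (Fin N) ℂ) (φ : Fin N → Polynomial ℂ) :
    aeval φ g = ∑ d ∈ g.support, Polynomial.C (coeff d g) * ∏ i, φ i ^ d i := by
  rw [aeval_def, eval₂_eq']
  rfl

theorem natDegree_aeval_hom {N μ D : ℕ} {H : MvPolynomial (Fin N) ℂ} (hH : H.IsHomogeneous μ)
    {y : Fin N → Polynomial ℂ} (hy : ∀ i, (y i).natDegree ≤ D) : (aeval y H : Polynomial ℂ).natDegree ≤ μ * D := by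
  rw [aeval_sum']
  refine Polynomial.natDegree_sum_le_of_forall_le _ _ fun d hd => ?_
  refine (Polynomial.natDegree_C_mul_le _ _).trans ?_
  refine (Polynomial.natDegree_prod_le _ _).trans ?_
  have hdeg : ∑ p, d p = μ := by
    have h2 := hH (mem_support_iff.1 hd)
    rw [← h2, Finsupp.weight_apply, Finsupp.sum_fintype _ _ (fun i => by simp)]
    simp
  rw [← hdeg, Finset.sum_mul]
  exact Finset.sum_le_sum fun i _ => Polynomial.natDegree_pow_le.trans (Nat.mul_le_mul_left _ (hy i))

theorem aeval_shf {N : ℕ} (g : MvPolynomial (Fin N) ℂ) (φ : Fin N → Polynomial ℂ) :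
    aeval φ (shf g) = aeval (fun i => 1 + φ i) g := by
  have h : (aeval φ : MvPolynomial (Fin N) ℂ →ₐ[ℂ] Polynomial ℂ).comp (aeval (fun k => 1 + X k)) =
      (aeval (fun i => 1 + φ i) : MvPolynomial (Fin N) ℂ →ₐ[ℂ] Polynomial ℂ) := by
    ext1 k
    rw [AlgHom.comp_apply, aeval_X, aeval_X, map_add, map_one, aeval_X]
  exact DFunLike.congr_fun h g

theorem winY_natDegree (h : ℕ) (P : Fin h → ℕ → ℤ) (i : ℕ) : (winY h P i).natDegree ≤ h - 1 := by
  rw [winY]
  refine Polynomial.natDegree_sum_le_of_forall_le _ _ fun j _ => ?_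
  refine (Polynomial.natDegree_C_mul_le _ _).trans ?_
  refine (Polynomial.natDegree_prod_le _ _).trans ?_
  refine (Finset.sum_le_card_nsmul _ _ 1 fun l _ => ?_).trans ?_
  · exact (Polynomial.natDegree_sub_C (a := ((l : ℕ) : ℤ)) (p := Polynomial.X)).le.trans Polynomial.natDegree_X_le
  · rw [Finset.card_erase_of_mem (Finset.mem_univ _), Finset.card_univ, Fintype.card_fin, smul_eq_mul, mul_one]

/-- the non-zero factor at `u = j` -/
def winC (h : ℕ) (j : Fin h) : ℤ := ∏ l ∈ Finset.univ.erase j, (((j : ℕ) : ℤ) - ((l : ℕ) : ℤ))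

theorem winC_ne_zero (h : ℕ) (j : Fin h) : winC h j ≠ 0 := by
  rw [winC, Finset.prod_ne_zero_iff]
  intro l hl h0
  apply Finset.ne_of_mem_erase hl
  apply Fin.ext
  have : ((j : ℕ) : ℤ) = ((l : ℕ) : ℤ) := by linarith
  exact_mod_cast this.symm

theorem winY_eval (h : ℕ) (P : Fin h → ℕ → ℤ) (i : ℕ) (j : Fin h) :
    (winY h P i).eval (((j : ℕ) : ℤ)) = winC h j * P j i := by
  rw [winY, Polynomial.eval_finset_sum, Finset.sum_eq_single j]
  · rw [Polynomial.eval_mul, Polynomial.eval_C, Polynomial.eval_prod, winC, mul_comm]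
    congr 1
    exact Finset.prod_congr rfl fun l _ => by rw [Polynomial.eval_sub, Polynomial.eval_X, Polynomial.eval_C]
  · intro l _ hl
    rw [Polynomial.eval_mul, Polynomial.eval_prod, Finset.prod_eq_zero (Finset.mem_erase.2 ⟨Ne.symm hl, Finset.mem_univ j⟩)
      (by rw [Polynomial.eval_sub, Polynomial.eval_X, Polynomial.eval_C, sub_self]), mul_zero]
  · intro hj
    exact absurd (Finset.mem_univ j) hj

theorem winX_natDegree (N w h : ℕ) (P : Fin h → ℕ → ℤ) (i : ℕ) :
    (winX N w h P i).natDegree ≤ wB N w h + (wE N w h + (h - 1)) := by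
  rw [winX]
  refine Polynomial.natDegree_mul_le.trans (Nat.add_le_add (Polynomial.natDegree_X_pow_le _) ?_)
  refine (Polynomial.natDegree_add_le _ _).trans (max_le ?_ ?_)
  · rw [Polynomial.natDegree_one]
    exact Nat.zero_le _
  · exact Polynomial.natDegree_mul_le.trans
      (Nat.add_le_add (Polynomial.natDegree_X_pow_le _) (winY_natDegree h P i))

/-- MAIN THEOREM: the window curve hits every polynomial in `N` variables with cuts `≤ w`, of any degree. -/
theorem win_hits {N w h : ℕ} (hN : 0 < N) (P : Fin h → ℕ → ℤ) (hP : CoreHit N w h P) :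
    KNR.Hits N w (winX N w h P) := by
  intro f hf hcut
  have hc : ∀ p, CutLe w p f := cutLe_of_cut hcut
  obtain ⟨k, hg0, hk⟩ := exists_low hf
  set g := homogeneousComponent k f with hg
  have hgc : ∀ p, CutLe w p g := fun p => (hc p).low hk
  have hghom : g.IsHomogeneous k := homogeneousComponent_isHomogeneous k f
  obtain ⟨μ, hH0, hμ⟩ := exists_low (shf_ne_zero hg0)
  set H := homogeneousComponent μ (shf g) with hH
  have hHc : ∀ p, CutLe w p H := fun p => (hgc p).shf.low hμ
  have hHhom : H.IsHomogeneous μ := homogeneousComponent_isHomogeneous μ _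
  have hHT : TInv H := tinv_low hghom hμ
  have hμle := deg_le hH0 hHT hHc hHhom
  obtain ⟨j, hj⟩ := hP H μ hH0 (cut_of_cutLe hHc) hHT hHhom hμle
  have hw : 1 ≤ w := by
    by_contra hw
    have hw0 : w = 0 := by omega
    subst hw0
    apply hf
    apply MvPolynomial.funext
    intro x
    have h1 := hc 0 (fun _ => x) (fun _ => x)
    rw [Matrix.det_fin_one, Matrix.of_apply] at h1
    rw [map_zero, ← h1]
    congr 2
  -- the curve over ℂ
  set y : Fin N → Polynomial ℂ := fun i => (winY h P i).map (Int.castRingHom ℂ) with hy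
  set c : Fin N → Polynomial ℂ := fun i => 1 + Polynomial.X ^ wE N w h * y i with hcdef
  have hX : (fun i : Fin N => (winX N w h P (i : ℕ)).map (Int.castRingHom ℂ)) =
      fun i => Polynomial.X ^ wB N w h * c i := by
    funext i
    simp only [winX, hcdef, hy, Polynomial.map_mul, Polynomial.map_add, Polynomial.map_one, Polynomial.map_pow,
      Polynomial.map_X]
  rw [hX]
  obtain ⟨Q1, hQ1⟩ := aeval_low hk (wB N w h) c
  rw [hQ1, ← hg]
  obtain ⟨Q2, hQ2⟩ := aeval_low hμ (wE N w h) y
  have hcg : aeval c g = aeval (fun i => Polynomial.X ^ wE N w h * y i) (shf g) := (aeval_shf g _).symm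
  rw [hcg, hQ2, ← hH]
  -- R = H (y (u))
  set R : Polynomial ℂ := aeval y H with hR
  have hR0 : R ≠ 0 := by
    intro h0
    have h1 : R.eval (((j : ℕ) : ℂ)) = eval (fun i => (y i).eval (((j : ℕ) : ℂ))) H := by
      have h : (Polynomial.aeval (((j : ℕ) : ℂ)) : Polynomial ℂ →ₐ[ℂ] ℂ).comp (aeval y) =
          (aeval (fun i => (y i).eval (((j : ℕ) : ℂ))) : MvPolynomial (Fin N) ℂ →ₐ[ℂ] ℂ) := by
        ext i
        rw [AlgHom.comp_apply, aeval_X, aeval_X, Polynomial.coe_aeval_eq_eval]
      have h2 := DFunLike.congr_fun h H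
      rw [AlgHom.comp_apply, Polynomial.coe_aeval_eq_eval, ← hR] at h2
      exact h2
    have h2 : (fun i : Fin N => (y i).eval (((j : ℕ) : ℂ))) = fun i : Fin N => ((winC h j : ℤ) : ℂ) * ((P j i : ℤ) : ℂ) := by
      funext i
      have h3 := winY_eval h P i j
      have h4 : (y i).eval (((j : ℕ) : ℂ)) = (((winY h P i).eval (((j : ℕ) : ℤ)) : ℤ) : ℂ) := by
        rw [hy]
        simp only
        rw [Polynomial.eval_map, ← Int.cast_natCast, Polynomial.eval₂_at_intCast, eq_intCast, Int.cast_id]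
      rw [h4, h3, Int.cast_mul]
    rw [h0, Polynomial.eval_zero, h2, eval_smul_of_hom hHhom] at h1
    have h5 : (((winC h j : ℤ) : ℂ)) ^ μ ≠ 0 := pow_ne_zero _ (by exact_mod_cast winC_ne_zero h j)
    exact (mul_ne_zero h5 hj) h1.symm
  have hh : 1 ≤ h := by
    have := j.2
    omega
  have hRdeg : R.natDegree < wE N w h := by
    have h1 : R.natDegree ≤ μ * (h - 1) := natDegree_aeval_hom hHhom fun i =>
      (Polynomial.natDegree_map_le).trans (winY_natDegree h P i)
    have h2 : μ * (h - 1) ≤ (N - 1) * (w - 1) * (h - 1) := Nat.mul_le_mul_right _ hμle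
    have h3 : (N - 1) * (w - 1) * (h - 1) < N * w * h := by
      obtain ⟨N', rfl⟩ : ∃ N', N = N' + 1 := ⟨N - 1, by omega⟩
      obtain ⟨w', rfl⟩ : ∃ w', w = w' + 1 := ⟨w - 1, by omega⟩
      obtain ⟨h', rfl⟩ : ∃ h', h = h' + 1 := ⟨h - 1, by omega⟩
      simp only [Nat.add_sub_cancel]
      nlinarith [Nat.zero_le (N' * w'), Nat.zero_le (N' * w' * h'), Nat.zero_le (N' * h'), Nat.zero_le (w' * h')]
    unfold wE
    omega
  obtain ⟨r, hr, hcr⟩ := low_coeff (Q := Q2) hR0 hRdeg
  have hlt : wE N w h * μ + r < wB N w h := by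
    have h1 : μ + 1 ≤ N * w := by
      obtain ⟨N', rfl⟩ : ∃ N', N = N' + 1 := ⟨N - 1, by omega⟩
      obtain ⟨w', rfl⟩ : ∃ w', w = w' + 1 := ⟨w - 1, by omega⟩
      simp only [Nat.add_sub_cancel] at hμle
      nlinarith
    have h2 : wE N w h * (μ + 1) ≤ wB N w h := Nat.mul_le_mul_left _ h1
    have h3 : wE N w h * (μ + 1) = wE N w h * μ + wE N w h := by ring
    omega
  intro hzero
  rcases mul_eq_zero.1 hzero with h0 | h0
  · exact pow_ne_zero _ Polynomial.X_ne_zero h0
  · have h1 := congrArg (fun p : Polynomial ℂ => p.coeff (wE N w h * μ + r)) h0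
    simp only [Polynomial.coeff_add, Polynomial.coeff_zero] at h1
    rw [Polynomial.coeff_X_pow_mul' _ (wB N w h), if_neg (not_le.2 hlt), add_zero, add_comm (wE N w h * μ) r,
      Polynomial.coeff_X_pow_mul] at h1
    exact hcr h1

end Pool.Agent.KNO.Win
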