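import Pool.Agent.KNR.Defs
import Pool.Agent.KNM.MvRank

/-!
KNO-Win (helper12): the degree-free window curve.  Definitions.

`CutLe w p f`: all `(w+1)`-minors of `f` with respect to the cut (variables `< p`) `|` (variables `≥ p`) vanish
(function level).  `TInv H`: `H` is invariant under the translations of all variables by the same number.
`winY P`: integer curve through multiples of the points `P 0, P 1, ..`.
`winX N w h P i = u ^ B (1 + u ^ E y_i(u))`, `E = N w h`, `B = E N w`.
-/

set_option autoImplicit false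

namespace Pool.Agent.KNO.Win

open MvPolynomial

/-- the point with the coordinates of `x` before `p` and those of `y` from `p` on -/
def glue {N : ℕ} {R : Type*} (p : ℕ) (x y : Fin N → R) : Fin N → R := fun k => if (k : ℕ) < p then x k else y k

/-- the rank of `f` for the cut at `p` is at most `w` (all `(w+1)`-minors vanish) -/
def CutLe {N : ℕ} (w p : ℕ) (f : MvPolynomial (Fin N) ℂ) : Prop :=
  ∀ X Y : Fin (w + 1) → Fin N → ℂ, (Matrix.of fun i j => eval (glue p (X i) (Y j)) f).det = 0

theorem cutLe_of_cut {N w : ℕ} {f : MvPolynomial (Fin N) ℂ} (h : KNR.Cut w f) (p : ℕ) : CutLe w p f := by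
  obtain ⟨A, B, hAB⟩ := h p
  exact KNM.mv_of_fac (fun X Y => eval (glue p X Y) f) w ⟨A, B, hAB⟩

theorem cut_of_cutLe {N w : ℕ} {f : MvPolynomial (Fin N) ℂ} (h : ∀ p, CutLe w p f) : KNR.Cut w f := by
  intro p
  obtain ⟨A, B, hAB⟩ := KNM.fac_of_mv (fun X Y => eval (glue p X Y) f) w (h p)
  exact ⟨A, B, hAB⟩

/-- invariance under the translations of all variables by the same number -/
def TInv {N : ℕ} (H : MvPolynomial (Fin N) ℂ) : Prop := ∀ (y : Fin N → ℂ) (s : ℂ), eval (fun k => y k + s) H = eval y H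

/-- the family of points `P` hits all homogeneous translation invariant polynomials with cuts `≤ w`
(of degree `≤ (N - 1) (w - 1)`) -/
def CoreHit (N w h : ℕ) (P : Fin h → ℕ → ℤ) : Prop :=
  ∀ (H : MvPolynomial (Fin N) ℂ) (μ : ℕ), H ≠ 0 → KNR.Cut w H → TInv H → H.IsHomogeneous μ →
    μ ≤ (N - 1) * (w - 1) → ∃ j, eval (fun i : Fin N => ((P j i : ℤ) : ℂ)) H ≠ 0

/-- integer curve of degree `< h` through non-zero multiples of the points `P j` at `u = j` -/
noncomputable def winY (h : ℕ) (P : Fin h → ℕ → ℤ) (i : ℕ) : Polynomial ℤ :=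
  ∑ j : Fin h, Polynomial.C (P j i) * ∏ l ∈ Finset.univ.erase j, (Polynomial.X - Polynomial.C (((l : ℕ) : ℤ)))

/-- the exponent `E` -/
def wE (N w h : ℕ) : ℕ := N * w * h

/-- the exponent `B` -/
def wB (N w h : ℕ) : ℕ := wE N w h * (N * w)

/-- the window curve -/
noncomputable def winX (N w h : ℕ) (P : Fin h → ℕ → ℤ) (i : ℕ) : Polynomial ℤ :=
  Polynomial.X ^ wB N w h * (1 + Polynomial.X ^ wE N w h * winY h P i)

end Pool.Agent.KNO.Win
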