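import Pool.Agent.KNO.WinLow
import Pool.Agent.KNM.MvRank

/-! KNO-Win: the degree of a translation invariant homogeneous polynomial with small cut ranks. -/

set_option autoImplicit false

namespace Pool.Agent.KNO.Win

open MvPolynomial

/-- a bound for one exponent by the degree of the restrictions to lines -/
theorem exp_le {N : ℕ} (Q : MvPolynomial (Fin N) ℂ) (p : Fin N) (D : ℕ)
    (h : ∀ z : Fin N → ℂ, ∀ m, D < m →
      (aeval (fun k => if k = p then Polynomial.X else Polynomial.C (z k)) Q : Polynomial ℂ).coeff m = 0) :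
    ∀ d ∈ Q.support, d p ≤ D := by
  classical
  intro d0 hd0
  by_contra hD
  push_neg at hD
  set m := d0 p with hm
  set R : MvPolynomial (Fin N) ℂ := ∑ d ∈ Q.support with d p = m, monomial (d.erase p) (coeff d Q) with hR
  have h1 : ∀ z : Fin N → ℂ, eval z R =
      (aeval (fun k => if k = p then Polynomial.X else Polynomial.C (z k)) Q : Polynomial ℂ).coeff m := by
    intro z
    have h2 : (aeval (fun k => if k = p then Polynomial.X else Polynomial.C (z k)) Q : Polynomial ℂ) =
        ∑ d ∈ Q.support, Polynomial.C (eval z (monomial (d.erase p) (coeff d Q))) * Polynomial.X ^ (d p) := by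
      conv_lhs => rw [Q.as_sum]
      rw [map_sum]
      refine Finset.sum_congr rfl fun d _ => ?_
      rw [aeval_monomial, eval_monomial, Polynomial.C_mul, mul_assoc]
      congr 1
      have h3 : (d.prod fun i k => ((if i = p then Polynomial.X else Polynomial.C (z i)) : Polynomial ℂ) ^ k) =
          ∏ i, ((if i = p then Polynomial.X else Polynomial.C (z i)) : Polynomial ℂ) ^ (d i) :=
        Finsupp.prod_fintype _ _ (fun i => pow_zero _)
      have h4 : ((d.erase p).prod fun i k => z i ^ k) = ∏ i, z i ^ ((d.erase p) i) :=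
        Finsupp.prod_fintype _ _ (fun i => pow_zero _)
      rw [h3, h4, map_prod, ← Finset.mul_prod_erase Finset.univ _ (Finset.mem_univ p),
        ← Finset.mul_prod_erase Finset.univ (fun x => Polynomial.C (z x ^ (d.erase p) x)) (Finset.mem_univ p),
        if_pos rfl, Finsupp.erase_same, pow_zero, Polynomial.C_1, one_mul, mul_comm]
      congr 1
      refine Finset.prod_congr rfl fun i hi => ?_
      rw [if_neg (Finset.ne_of_mem_erase hi), Finsupp.erase_ne (Finset.ne_of_mem_erase hi), Polynomial.C_pow]
    rw [h2, Polynomial.finset_sum_coeff, hR, map_sum, Finset.sum_filter]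
    refine Finset.sum_congr rfl fun d _ => ?_
    rw [Polynomial.coeff_C_mul_X_pow]
    by_cases hdm : d p = m
    · rw [if_pos hdm, if_pos hdm.symm]
    · rw [if_neg hdm, if_neg (Ne.symm hdm)]
  have h5 : R = 0 := by
    apply MvPolynomial.funext
    intro z
    rw [h1, h z m hD, map_zero]
  have h6 : coeff (d0.erase p) R = coeff d0 Q := by
    rw [hR, coeff_sum, Finset.sum_eq_single d0]
    · rw [coeff_monomial, if_pos rfl]
    · intro d hd hne
      rw [coeff_monomial, if_neg]
      intro he
      apply hne
      ext i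
      by_cases hi : i = p
      · rw [hi, (Finset.mem_filter.1 hd).2, hm]
      · have := DFunLike.congr_fun he i
        rwa [Finsupp.erase_ne hi, Finsupp.erase_ne hi] at this
    · intro hn
      exact absurd (Finset.mem_filter.2 ⟨hd0, hm.symm⟩) hn
  rw [h5, coeff_zero] at h6
  exact (mem_support_iff.1 hd0) h6.symm

/-- minors of larger size vanish too -/
theorem mv_mono {A B : Type*} (G : A → B → ℂ) {a b : ℕ} (hab : a ≤ b) (h : KNM.MV G a) : KNM.MV G b := by
  induction b, hab using Nat.le_induction with
  | base => exact h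
  | succ b _ ih =>
    intro s t
    rw [Matrix.det_succ_row_zero]
    refine Finset.sum_eq_zero fun j _ => ?_
    have h1 : ((Matrix.of fun i j => G (s i) (t j)).submatrix Fin.succ j.succAbove).det = 0 :=
      ih (fun i => s i.succ) (fun i => t (j.succAbove i))
    rw [h1, mul_zero]

/-- the kernel `K (η - ξ)` of a polynomial of degree `e` has rank `e + 1` -/
theorem deg_of_shift (K : Polynomial ℂ) (w : ℕ) (h : KNM.MV (fun ξ η : ℂ => K.eval (η - ξ)) (w + 1))
    (m : ℕ) (hm : w ≤ m) : K.coeff m = 0 := by
  classical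
  by_contra hne
  set e := K.natDegree with he
  have hme : m ≤ e := Polynomial.le_natDegree_of_ne_zero hne
  have hK0 : K ≠ 0 := fun h0 => hne (by rw [h0, Polynomial.coeff_zero])
  have h1 := mv_mono _ (by omega : w + 1 ≤ e + 1) h
  -- the coefficient matrix
  set c : Matrix (Fin (e + 1)) (Fin (e + 1)) ℂ := Matrix.of fun l r =>
    (-1) ^ (l : ℕ) * (((r : ℕ) + l).choose l * K.coeff ((r : ℕ) + l)) with hc
  have hval : ∀ ξ η : ℂ, K.eval (η - ξ) = ∑ r : Fin (e + 1), (∑ l : Fin (e + 1), ξ ^ (l : ℕ) * c l r) * η ^ (r : ℕ) := by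
    intro ξ η
    have h2 : K.eval (η - ξ) = ∑ l : Fin (e + 1), ξ ^ (l : ℕ) * ((-1) ^ (l : ℕ) * (Polynomial.hasseDeriv l K).eval η) := by
      have h3 : η - ξ = -ξ + η := by ring
      rw [h3, ← Polynomial.taylor_eval, Polynomial.eval_eq_sum_range, Polynomial.natDegree_taylor, Finset.sum_range]
      refine Finset.sum_congr rfl fun l _ => ?_
      rw [Polynomial.taylor_coeff, neg_pow]
      ring
    have h4 : ∀ l : Fin (e + 1), (Polynomial.hasseDeriv l K).eval η =
        ∑ r : Fin (e + 1), (((r : ℕ) + l).choose l * K.coeff ((r : ℕ) + l)) * η ^ (r : ℕ) := by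
      intro l
      rw [Polynomial.eval_eq_sum_range' (n := e + 1), Finset.sum_range]
      · refine Finset.sum_congr rfl fun r _ => ?_
        rw [Polynomial.hasseDeriv_coeff]
      · exact lt_of_le_of_lt (Polynomial.natDegree_hasseDeriv_le K l) (by omega)
    rw [h2]
    simp_rw [h4, Finset.sum_mul, Finset.mul_sum]
    rw [Finset.sum_comm]
    refine Finset.sum_congr rfl fun r _ => Finset.sum_congr rfl fun l _ => ?_
    rw [hc, Matrix.of_apply]
    ring
  -- evaluation at the integers
  set v : Fin (e + 1) → ℂ := fun i => ((i : ℕ) : ℂ) with hv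
  have hvinj : Function.Injective v := fun i j hij => by
    simp only [hv, Nat.cast_inj] at hij
    exact Fin.ext hij
  have h5 : (Matrix.of fun i j => K.eval (v j - v i)) = Matrix.vandermonde v * c * (Matrix.vandermonde v).transpose := by
    ext i j
    rw [Matrix.of_apply, hval, Matrix.mul_apply]
    refine Finset.sum_congr rfl fun r _ => ?_
    rw [Matrix.mul_apply, Matrix.transpose_apply, Matrix.vandermonde_apply]
    rfl
  have h6 : (Matrix.vandermonde v * c * (Matrix.vandermonde v).transpose).det = 0 := by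
    rw [← h5]
    exact h1 v v
  rw [Matrix.det_mul, Matrix.det_mul, Matrix.det_transpose] at h6
  have h7 : (Matrix.vandermonde v).det ≠ 0 := Matrix.det_vandermonde_ne_zero_iff.2 hvinj
  have h8 : c.det = 0 := by
    rcases mul_eq_zero.1 h6 with h' | h'
    · exact (mul_eq_zero.1 h').resolve_left h7
    · exact absurd h' h7
  -- the reversed matrix is triangular
  have h9 : (c.submatrix id Fin.revPerm).det = 0 := by
    rw [Matrix.det_permute', h8, mul_zero]
  have h10 : (c.submatrix id Fin.revPerm).BlockTriangular id := by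
    intro l r hrl
    have hrl' : (r : ℕ) < l := hrl
    rw [Matrix.submatrix_apply, hc, Matrix.of_apply, Polynomial.coeff_eq_zero_of_natDegree_lt, mul_zero, mul_zero]
    rw [Fin.revPerm_apply, Fin.val_rev, id]
    omega
  rw [Matrix.det_of_upperTriangular h10, Finset.prod_eq_zero_iff] at h9
  obtain ⟨i, -, hi⟩ := h9
  rw [Matrix.submatrix_apply, hc, Matrix.of_apply] at hi
  have h11 : ((Fin.revPerm i : Fin (e + 1)) : ℕ) + ((id i : Fin (e + 1)) : ℕ) = e := by
    rw [Fin.revPerm_apply, Fin.val_rev, id]
    omega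
  rw [h11] at hi
  have h12 : K.coeff e ≠ 0 := by
    rw [he, Polynomial.coeff_natDegree]
    exact Polynomial.leadingCoeff_ne_zero.2 hK0
  have h13 : ((e.choose ((id i : Fin (e + 1)) : ℕ) : ℕ) : ℂ) ≠ 0 := by
    have : e.choose ((id i : Fin (e + 1)) : ℕ) ≠ 0 := (Nat.choose_pos (Nat.lt_succ_iff.1 i.2)).ne'
    exact_mod_cast this
  exact (mul_ne_zero (pow_ne_zero _ (neg_ne_zero.2 one_ne_zero)) (mul_ne_zero h13 h12)) hi

end Pool.Agent.KNO.Win
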