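import Pool.Agent.KNO.WinDeg

/-! KNO-Win: the initial form at `(1, .., 1)` of a homogeneous polynomial. -/

set_option autoImplicit false

namespace Pool.Agent.KNO.Win

open MvPolynomial Filter Topology

/-- `g (1 + x)` -/
noncomputable def shf {N : ℕ} (g : MvPolynomial (Fin N) ℂ) : MvPolynomial (Fin N) ℂ :=
  aeval (fun k => 1 + X k) g

theorem shf_eval {N : ℕ} (g : MvPolynomial (Fin N) ℂ) (x : Fin N → ℂ) :
    eval x (shf g) = eval (fun k => 1 + x k) g := by
  have h : (aeval x : MvPolynomial (Fin N) ℂ →ₐ[ℂ] ℂ).comp (aeval (fun k => 1 + X k)) =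
      (aeval (fun k => 1 + x k) : MvPolynomial (Fin N) ℂ →ₐ[ℂ] ℂ) := by
    ext k
    rw [AlgHom.comp_apply, aeval_X, aeval_X, map_add, map_one, aeval_X]
  exact DFunLike.congr_fun h g

theorem shf_ne_zero {N : ℕ} {g : MvPolynomial (Fin N) ℂ} (hg : g ≠ 0) : shf g ≠ 0 := by
  intro h
  apply hg
  apply MvPolynomial.funext
  intro x
  have h1 := shf_eval g (fun k => x k - 1)
  rw [h, map_zero] at h1
  rw [map_zero, h1]
  congr 2
  funext k
  ring

theorem CutLe.shf {N w p : ℕ} {g : MvPolynomial (Fin N) ℂ} (hg : CutLe w p g) : CutLe w p (shf g) := by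
  intro X Y
  rw [← hg (fun i k => 1 + X i k) (fun j k => 1 + Y j k)]
  congr 1
  ext i j
  rw [Matrix.of_apply, Matrix.of_apply, shf_eval]
  congr 2
  funext k
  simp only [glue]
  split_ifs <;> rfl

theorem scal_of_hom {N d : ℕ} {g : MvPolynomial (Fin N) ℂ} (hg : g.IsHomogeneous d) (x : Fin N → ℂ) :
    scal x g = Polynomial.C (eval x g) * Polynomial.X ^ d := by
  ext m
  rw [scal_coeff, Polynomial.coeff_C_mul_X_pow, homogeneousComponent_of_mem ((mem_homogeneousSubmodule _ _).2 hg)]
  split_ifs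
  · rfl
  · rw [map_zero]

theorem eval_smul_of_hom {N d : ℕ} {g : MvPolynomial (Fin N) ℂ} (hg : g.IsHomogeneous d) (s : ℂ) (x : Fin N → ℂ) :
    eval (fun k => s * x k) g = s ^ d * eval x g := by
  rw [← scal_eval, scal_of_hom hg, Polynomial.eval_mul, Polynomial.eval_C, Polynomial.eval_pow, Polynomial.eval_X,
    mul_comm]

/-- the lowest component of `g (1 + x)` is translation invariant for homogeneous `g` -/
theorem tinv_low {N d μ : ℕ} {g : MvPolynomial (Fin N) ℂ} (hg : g.IsHomogeneous d)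
    (hμ : ∀ m < μ, homogeneousComponent m (shf g) = 0) : TInv (homogeneousComponent μ (shf g)) := by
  intro y ξ
  -- factor `t ^ μ` out of `scal`
  have hfac : ∀ x : Fin N → ℂ, ∃ A : Polynomial ℂ, scal x (shf g) = Polynomial.X ^ μ * A ∧
      A.eval 0 = eval x (homogeneousComponent μ (shf g)) := by
    intro x
    obtain ⟨A, hA⟩ := Polynomial.X_pow_dvd_iff.2 (fun m hm => by
      rw [scal_coeff, hμ m hm, map_zero] : ∀ m < μ, (scal x (shf g)).coeff m = 0)
    refine ⟨A, hA, ?_⟩
    rw [← scal_coeff, hA, ← Polynomial.coeff_zero_eq_eval_zero]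
    have := Polynomial.coeff_X_pow_mul A μ 0
    rw [zero_add] at this
    exact this.symm
  obtain ⟨A, hA, hA0⟩ := hfac (fun k => y k + ξ)
  obtain ⟨B, hB, hB0⟩ := hfac y
  rw [← hA0, ← hB0]
  -- homogeneity of g
  have hhom : ∀ (s : ℂ) (x : Fin N → ℂ), eval (fun k => s * x k) g = s ^ d * eval x g := by
    intro s x
    exact eval_smul_of_hom hg s x
  have hkey : ∀ t : ℂ, t ≠ 0 → 1 + t * ξ ≠ 0 →
      A.eval t = (1 + t * ξ) ^ d / (1 + t * ξ) ^ μ * B.eval (t / (1 + t * ξ)) := by
    intro t ht hs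
    have h1 : (scal (fun k => y k + ξ) (shf g)).eval t =
        (1 + t * ξ) ^ d * (scal y (shf g)).eval (t / (1 + t * ξ)) := by
      rw [scal_eval, scal_eval, shf_eval, shf_eval, ← hhom]
      congr 2
      funext k
      field_simp
      ring
    rw [hA, hB, Polynomial.eval_mul, Polynomial.eval_mul, Polynomial.eval_pow, Polynomial.eval_pow,
      Polynomial.eval_X, Polynomial.eval_X, div_pow] at h1
    have h2 : t ^ μ ≠ 0 := pow_ne_zero _ ht
    have h3 : (1 + t * ξ) ^ μ ≠ 0 := pow_ne_zero _ hs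
    apply mul_left_cancel₀ h2
    rw [h1]
    field_simp
  -- limit
  have hlim1 : Tendsto (fun t : ℂ => A.eval t) (𝓝[≠] 0) (𝓝 (A.eval 0)) :=
    (A.continuous.tendsto 0).mono_left nhdsWithin_le_nhds
  have hlim2 : Tendsto (fun t : ℂ => (1 + t * ξ) ^ d / (1 + t * ξ) ^ μ * B.eval (t / (1 + t * ξ))) (𝓝[≠] 0)
      (𝓝 (B.eval 0)) := by
    have hc : ContinuousAt (fun t : ℂ => (1 + t * ξ) ^ d / (1 + t * ξ) ^ μ * B.eval (t / (1 + t * ξ))) 0 := by
      have h0 : (1 + (0 : ℂ) * ξ) ≠ 0 := by simp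
      have c1 : ContinuousAt (fun t : ℂ => 1 + t * ξ) 0 := by fun_prop
      refine ((c1.pow d).div (c1.pow μ) (pow_ne_zero _ h0)).mul ?_
      exact B.continuous.continuousAt.comp (f := fun t : ℂ => t / (1 + t * ξ)) (continuousAt_id.div c1 h0)
    have h := hc.tendsto.mono_left (nhdsWithin_le_nhds (s := {0}ᶜ))
    simpa using h
  have hev : ∀ᶠ t : ℂ in 𝓝[≠] 0, A.eval t = (1 + t * ξ) ^ d / (1 + t * ξ) ^ μ * B.eval (t / (1 + t * ξ)) := by
    have h1 : ∀ᶠ t : ℂ in 𝓝[≠] 0, t ≠ 0 := eventually_mem_nhdsWithin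
    have h2 : ∀ᶠ t : ℂ in 𝓝[≠] 0, 1 + t * ξ ≠ 0 := by
      have c1 : ContinuousAt (fun t : ℂ => 1 + t * ξ) 0 := by fun_prop
      exact (c1.eventually_ne (by simp)).filter_mono nhdsWithin_le_nhds
    filter_upwards [h1, h2] with t ht hs using hkey t ht hs
  exact tendsto_nhds_unique (hlim1.congr' hev) hlim2 ▸ rfl

/-- change to the differences: `y_k = z_0 + .. + z_k` -/
noncomputable def difs {N : ℕ} (H : MvPolynomial (Fin N) ℂ) : MvPolynomial (Fin N) ℂ :=
  aeval (fun k => ∑ p ∈ Finset.univ.filter (fun p : Fin N => p ≤ k), X p) H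

theorem difs_eval {N : ℕ} (H : MvPolynomial (Fin N) ℂ) (z : Fin N → ℂ) :
    eval z (difs H) = eval (fun k => ∑ p ∈ Finset.univ.filter (fun p : Fin N => p ≤ k), z p) H := by
  have h : (aeval z : MvPolynomial (Fin N) ℂ →ₐ[ℂ] ℂ).comp
      (aeval (fun k => ∑ p ∈ Finset.univ.filter (fun p : Fin N => p ≤ k), X p)) =
      (aeval (fun k => ∑ p ∈ Finset.univ.filter (fun p : Fin N => p ≤ k), z p) : MvPolynomial (Fin N) ℂ →ₐ[ℂ] ℂ) := by
    ext k
    rw [AlgHom.comp_apply, aeval_X, aeval_X, map_sum]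
    exact Finset.sum_congr rfl fun p _ => aeval_X _ _
  exact DFunLike.congr_fun h H

theorem difs_hom {N μ : ℕ} {H : MvPolynomial (Fin N) ℂ} (hH : H.IsHomogeneous μ) : (difs H).IsHomogeneous μ := by
  have h := hH.aeval (fun k => ∑ p ∈ Finset.univ.filter (fun p : Fin N => p ≤ k), (X p : MvPolynomial (Fin N) ℂ))
    (n := 1) (fun k => IsHomogeneous.sum _ _ _ fun p _ => isHomogeneous_X _ _)
  rwa [one_mul] at h

/-- the restriction of `difs H` to a line in direction `p` -/
theorem difs_line {N w : ℕ} {H : MvPolynomial (Fin N) ℂ} (hT : TInv H) (p : Fin N) (hc : CutLe w p H)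
    (z : Fin N → ℂ) (m : ℕ) (hm : w ≤ m) :
    (aeval (fun k => if k = p then Polynomial.X else Polynomial.C (z k)) (difs H) : Polynomial ℂ).coeff m = 0 := by
  set K : Polynomial ℂ := aeval (fun k => if k = p then Polynomial.X else Polynomial.C (z k)) (difs H) with hK
  have hKe : ∀ s : ℂ, K.eval s = eval (fun k : Fin N =>
      (∑ q ∈ (Finset.univ.filter (fun q : Fin N => q ≤ k)).erase p, z q) + if p ≤ k then s else 0) H := by
    intro s
    have h : (Polynomial.aeval s : Polynomial ℂ →ₐ[ℂ] ℂ).comp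
        (aeval (fun k => if k = p then Polynomial.X else Polynomial.C (z k))) =
        (aeval (fun k => if k = p then s else z k) : MvPolynomial (Fin N) ℂ →ₐ[ℂ] ℂ) := by
      ext k
      rw [AlgHom.comp_apply, aeval_X, aeval_X]
      split_ifs
      · rw [Polynomial.coe_aeval_eq_eval, Polynomial.eval_X]
      · rw [Polynomial.coe_aeval_eq_eval, Polynomial.eval_C]
    have h2 := DFunLike.congr_fun h (difs H)
    rw [AlgHom.comp_apply, Polynomial.coe_aeval_eq_eval, ← hK] at h2
    rw [h2]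
    show eval (fun k => if k = p then s else z k) (difs H) = _
    rw [difs_eval]
    congr 2
    funext k
    by_cases hpk : p ≤ k
    · have hmem : p ∈ Finset.univ.filter (fun q : Fin N => q ≤ k) := by simpa using hpk
      rw [← Finset.add_sum_erase _ _ hmem, if_pos rfl, if_pos hpk, add_comm]
      congr 1
      exact Finset.sum_congr rfl fun q hq => if_neg (Finset.ne_of_mem_erase hq)
    · have hmem : p ∉ Finset.univ.filter (fun q : Fin N => q ≤ k) := by simpa using hpk
      rw [Finset.erase_eq_of_notMem hmem, if_neg hpk, add_zero]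
      exact Finset.sum_congr rfl fun q hq => if_neg (fun h => hmem (by rw [← h]; exact hq))
  apply deg_of_shift K w _ m hm
  intro ξ η
  set a : Fin N → ℂ := fun k => ∑ q ∈ (Finset.univ.filter (fun q : Fin N => q ≤ k)).erase p, z q with ha
  have h3 := hc (fun i k => a k + ξ i) (fun j k => a k + η j)
  rw [← h3]
  congr 1
  ext i j
  rw [Matrix.of_apply, Matrix.of_apply]
  show K.eval (η j - ξ i) = _
  rw [hKe, ← hT _ (ξ i)]
  congr 2
  funext k
  simp only [glue]
  by_cases hpk : p ≤ k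
  · rw [if_pos hpk, if_neg (not_lt.2 (by exact_mod_cast hpk))]
    ring
  · rw [if_neg hpk, if_pos (by exact_mod_cast not_le.1 hpk)]
    ring

private theorem sum_le_range {N : ℕ} (g : ℕ → ℂ) (k : Fin N) :
    ∑ q ∈ Finset.univ.filter (fun q : Fin N => q ≤ k), g q = ∑ m ∈ Finset.range ((k : ℕ) + 1), g m := by
  refine Finset.sum_bij (fun (q : Fin N) _ => (q : ℕ)) ?_ ?_ ?_ ?_
  · intro q hq
    rw [Finset.mem_range, Nat.lt_succ_iff]
    exact_mod_cast (Finset.mem_filter.1 hq).2
  · intro q _ q' _ h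
    exact Fin.ext h
  · intro m hm
    have hm' : m ≤ k := Nat.lt_succ_iff.1 (Finset.mem_range.1 hm)
    exact ⟨⟨m, lt_of_le_of_lt hm' k.2⟩, Finset.mem_filter.2 ⟨Finset.mem_univ _, hm'⟩, rfl⟩
  · intro q _
    rfl

private theorem tele (Y : ℕ → ℂ) (k : ℕ) :
    ∑ m ∈ Finset.range (k + 1), (Y m - if m = 0 then 0 else Y (m - 1)) = Y k := by
  induction k with
  | zero => simp
  | succ k ih => rw [Finset.sum_range_succ, ih, if_neg (Nat.succ_ne_zero k), Nat.succ_sub_one]; ring

theorem difs_ne_zero {N : ℕ} {H : MvPolynomial (Fin N) ℂ} (hH0 : H ≠ 0) : difs H ≠ 0 := by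
  intro h
  apply hH0
  apply MvPolynomial.funext
  intro y
  rw [map_zero]
  set Y : ℕ → ℂ := fun m => if h : m < N then y ⟨m, h⟩ else 0 with hY
  have h1 := difs_eval H (fun p : Fin N => Y p - if (p : ℕ) = 0 then 0 else Y ((p : ℕ) - 1))
  rw [h, map_zero] at h1
  rw [h1]
  congr 2
  funext k
  rw [sum_le_range (fun m => Y m - if m = 0 then 0 else Y (m - 1)), tele, hY]
  simp

/-- the degree bound -/
theorem deg_le {N w μ : ℕ} {H : MvPolynomial (Fin N) ℂ} (hH0 : H ≠ 0) (hT : TInv H) (hc : ∀ p, CutLe w p H)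
    (hH : H.IsHomogeneous μ) : μ ≤ (N - 1) * (w - 1) := by
  classical
  -- w ≥ 1
  have hw : 1 ≤ w := by
    by_contra hw
    have hw0 : w = 0 := by omega
    subst hw0
    apply hH0
    apply MvPolynomial.funext
    intro x
    have h1 := hc 0 (fun _ => x) (fun _ => x)
    rw [Matrix.det_fin_one, Matrix.of_apply] at h1
    rw [map_zero, ← h1]
    congr 2
  have hdne := difs_ne_zero hH0
  obtain ⟨d, hd⟩ : (difs H).support.Nonempty := by
    rwa [Finset.nonempty_iff_ne_empty, Ne, MvPolynomial.support_eq_empty]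
  have hdeg : ∑ p, d p = μ := by
    have h1 := difs_hom hH (mem_support_iff.1 hd)
    rw [← h1, Finsupp.weight_apply, Finsupp.sum_fintype _ _ (fun i => by simp)]
    simp
  have h1 : ∀ p : Fin N, d p ≤ w - 1 := fun p =>
    exp_le (difs H) p (w - 1) (fun z m hm => difs_line hT p (hc p) z m (by omega)) d hd
  have h0 : ∀ p : Fin N, (p : ℕ) = 0 → d p ≤ 0 := by
    intro p hp
    refine exp_le (difs H) p 0 (fun z m hm => ?_) d hd
    -- a constant polynomial
    set K : Polynomial ℂ := aeval (fun k => if k = p then Polynomial.X else Polynomial.C (z k)) (difs H) with hK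
    have hKe : ∀ s : ℂ, K.eval s = K.eval 0 := by
      intro s
      have h : ∀ s : ℂ, K.eval s = eval (fun k => if k = p then s else z k) (difs H) := by
        intro s
        have h : (Polynomial.aeval s : Polynomial ℂ →ₐ[ℂ] ℂ).comp
            (aeval (fun k => if k = p then Polynomial.X else Polynomial.C (z k))) =
            (aeval (fun k => if k = p then s else z k) : MvPolynomial (Fin N) ℂ →ₐ[ℂ] ℂ) := by
          ext k
          rw [AlgHom.comp_apply, aeval_X, aeval_X]
          split_ifs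
          · rw [Polynomial.coe_aeval_eq_eval, Polynomial.eval_X]
          · rw [Polynomial.coe_aeval_eq_eval, Polynomial.eval_C]
        have h2 := DFunLike.congr_fun h (difs H)
        rw [AlgHom.comp_apply, Polynomial.coe_aeval_eq_eval, ← hK] at h2
        exact h2
      rw [h, h, difs_eval, difs_eval, ← hT (fun k => ∑ q ∈ Finset.univ.filter (fun q : Fin N => q ≤ k), if q = p then 0 else z q) s]
      congr 2
      funext k
      have hmem : p ∈ Finset.univ.filter (fun q : Fin N => q ≤ k) := by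
        rw [Finset.mem_filter]
        refine ⟨Finset.mem_univ _, ?_⟩
        show (p : ℕ) ≤ k
        omega
      rw [← Finset.add_sum_erase _ _ hmem, ← Finset.add_sum_erase _ _ hmem, if_pos rfl, if_pos rfl, zero_add, add_comm]
      congr 1
      exact Finset.sum_congr rfl fun q hq => by
        rw [if_neg (Finset.ne_of_mem_erase hq), if_neg (Finset.ne_of_mem_erase hq)]
    have hKC : K = Polynomial.C (K.eval 0) := Polynomial.funext fun s => by rw [hKe s, Polynomial.eval_C]
    rw [hKC, Polynomial.coeff_C, if_neg (by omega)]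
  rw [← hdeg]
  rcases Nat.eq_zero_or_pos N with hN | hN
  · subst hN
    simp
  · rw [← Finset.add_sum_erase _ _ (Finset.mem_univ (⟨0, hN⟩ : Fin N))]
    have h2 := h0 ⟨0, hN⟩ rfl
    have h3 : ∑ p ∈ Finset.univ.erase (⟨0, hN⟩ : Fin N), d p ≤ (N - 1) * (w - 1) := by
      refine (Finset.sum_le_card_nsmul _ _ (w - 1) fun p _ => h1 p).trans ?_
      rw [Finset.card_erase_of_mem (Finset.mem_univ _), Finset.card_univ, Fintype.card_fin, smul_eq_mul]
    omega

end Pool.Agent.KNO.Win
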