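import Pool.Agent.KNO.WinCurve

/-! KNO-Win: the window curve of a list of points, its size, and its computable evaluation. -/

set_option autoImplicit false

namespace Pool.Agent.KNO.Win

open MvPolynomial

/-- the window curve of the list `P` of points (coordinate `i` of the point `l` is `l.getD i 0`):
`X ^ B * (1 + X ^ E * ∑_{j < h} P_j(i) * ∏_{l < h, l ≠ j} (X - l))`, `h = P.length`, `E = N w h`, `B = E N w`. -/
noncomputable def winCurve (N w : ℕ) (P : List (List ℤ)) (i : ℕ) : Polynomial ℤ :=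
  winX N w P.length (fun j i => (P.get j).getD i 0) i

/-- the value of the window curve at `v`, computable -/
def evalWin (N w : ℕ) (P : List (List ℤ)) (i : ℕ) (v : ℤ) : ℤ :=
  v ^ (N * w * P.length * (N * w)) * (1 + v ^ (N * w * P.length) *
    ((List.finRange P.length).map fun j =>
      (P.get j).getD i 0 * (((List.finRange P.length).filter (· ≠ j)).map fun l : Fin P.length => v - ((l : ℕ) : ℤ)).prod).sum)

theorem winCurve_eval (N w : ℕ) (P : List (List ℤ)) (i : ℕ) (v : ℤ) :
    (winCurve N w P i).eval v = evalWin N w P i v := by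
  rw [winCurve, winX, winY, evalWin, wB, wE, Polynomial.eval_mul, Polynomial.eval_pow, Polynomial.eval_X,
    Polynomial.eval_add, Polynomial.eval_one, Polynomial.eval_mul, Polynomial.eval_pow, Polynomial.eval_X,
    Polynomial.eval_finset_sum]
  congr 3
  have h1 : ∀ g : Fin P.length → ℤ, ∑ j, g j = ((List.finRange P.length).map g).sum := fun g => by
    rw [← List.sum_toFinset _ (List.nodup_finRange _)]
    refine Finset.sum_congr ?_ fun _ _ => rfl
    ext x
    simp
  rw [h1]
  congr 1
  refine List.map_congr_left fun j _ => ?_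
  rw [Polynomial.eval_mul, Polynomial.eval_C, Polynomial.eval_prod]
  congr 1
  rw [← List.prod_toFinset _ ((List.nodup_finRange _).filter _)]
  refine Finset.prod_congr ?_ fun l _ => ?_
  · ext x
    simp
  · rw [Polynomial.eval_sub, Polynomial.eval_X, Polynomial.eval_C]

theorem winCurve_natDegree (N w : ℕ) (P : List (List ℤ)) (i : ℕ) :
    (winCurve N w P i).natDegree ≤ N * w * P.length * (N * w) + (N * w * P.length + P.length) :=
  (winX_natDegree N w P.length _ i).trans (by
    rw [wB, wE]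
    omega)

/-- the window curve of a list of points which hits all polynomials of degree `≤ N w` with cuts `≤ w` hits all
polynomials with cuts `≤ w`, of any degree -/
theorem winCurve_hits {N w : ℕ} (hN : 0 < N) (P : List (List ℤ))
    (hP : ∀ H : MvPolynomial (Fin N) ℂ, H ≠ 0 → H.totalDegree ≤ N * w → KNR.Cut w H →
      ∃ l ∈ P, eval (fun i : Fin N => ((l.getD (i : ℕ) 0 : ℤ) : ℂ)) H ≠ 0) :
    KNR.Hits N w (winCurve N w P) := by
  refine win_hits hN _ fun H μ hH0 hcut _ hhom hμ => ?_
  have hd : H.totalDegree ≤ N * w := hhom.totalDegree_le.trans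
    (hμ.trans (Nat.mul_le_mul (Nat.sub_le _ _) (Nat.sub_le _ _)))
  obtain ⟨l, hl, hlH⟩ := hP H hH0 hd hcut
  obtain ⟨j, hj⟩ := List.get_of_mem hl
  exact ⟨j, by rw [hj]; exact hlH⟩

/-- the size of the values of the window curve -/
theorem winCurve_abs (N w A : ℕ) (P : List (List ℤ)) (i : ℕ) (hA : ∀ l ∈ P, |l.getD i 0| ≤ (A : ℤ)) (v : ℤ) :
    |(winCurve N w P i).eval v| ≤ ((1 + P.length * A * P.length ^ P.length : ℕ) : ℤ) *
      (|v| + 1) ^ (N * w * P.length * (N * w) + (N * w * P.length + P.length)) := by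
  set h := P.length with hh
  have hv : (1 : ℤ) ≤ |v| + 1 := by
    have := abs_nonneg v
    omega
  have hv0 : (0 : ℤ) ≤ |v| + 1 := by omega
  -- the interpolation factor
  have hprod : ∀ j : Fin h, |∏ l ∈ Finset.univ.erase j, (v - ((l : ℕ) : ℤ))| ≤ (h : ℤ) ^ h * (|v| + 1) ^ h := by
    intro j
    have hpos : (1 : ℤ) ≤ h := by
      have := j.2
      omega
    rw [Finset.abs_prod, ← mul_pow]
    have h1 : ∏ l ∈ Finset.univ.erase j, |v - ((l : ℕ) : ℤ)| ≤ ∏ l ∈ Finset.univ.erase j, (h : ℤ) * (|v| + 1) := by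
      refine Finset.prod_le_prod (fun _ _ => abs_nonneg _) fun l _ => ?_
      have h2 : |v - ((l : ℕ) : ℤ)| ≤ |v| + ((l : ℕ) : ℤ) := by
        refine (abs_sub _ _).trans ?_
        rw [Nat.abs_cast]
      have h3 : ((l : ℕ) : ℤ) + 1 ≤ h := by
        have := l.2
        omega
      have h4 := abs_nonneg v
      nlinarith
    refine h1.trans ?_
    rw [Finset.prod_const]
    refine pow_le_pow_right₀ ?_ ?_
    · nlinarith
    · rw [Finset.card_erase_of_mem (Finset.mem_univ _), Finset.card_univ, Fintype.card_fin]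
      omega
  have hsum : |(winY h (fun j i => (P.get j).getD i 0) i).eval v| ≤
      ((h * A * h ^ h : ℕ) : ℤ) * (|v| + 1) ^ h := by
    rw [winY, Polynomial.eval_finset_sum]
    refine (Finset.abs_sum_le_sum_abs _ _).trans ?_
    have h1 : ∀ j ∈ (Finset.univ : Finset (Fin h)), |(Polynomial.C ((P.get j).getD i 0) * ∏ l ∈ Finset.univ.erase j,
        (Polynomial.X - Polynomial.C (((l : ℕ) : ℤ)))).eval v| ≤ (A : ℤ) * ((h : ℤ) ^ h * (|v| + 1) ^ h) := by
      intro j _
      rw [Polynomial.eval_mul, Polynomial.eval_C, Polynomial.eval_prod, abs_mul]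
      simp_rw [Polynomial.eval_sub, Polynomial.eval_X, Polynomial.eval_C]
      exact mul_le_mul (hA _ (List.get_mem _ _)) (hprod j) (abs_nonneg _) (Int.natCast_nonneg _)
    refine (Finset.sum_le_card_nsmul _ _ _ h1).trans ?_
    rw [Finset.card_univ, Fintype.card_fin, nsmul_eq_mul]
    push_cast
    exact le_of_eq (by ring)
  rw [winCurve, winX, Polynomial.eval_mul, Polynomial.eval_pow, Polynomial.eval_X,
    Polynomial.eval_add, Polynomial.eval_one, Polynomial.eval_mul, Polynomial.eval_pow, Polynomial.eval_X,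
    abs_mul, abs_pow, wB, wE]
  have hp : ∀ n : ℕ, |v| ^ n ≤ (|v| + 1) ^ n := fun n => pow_le_pow_left₀ (abs_nonneg _) (by omega) _
  have h2 : |1 + v ^ (N * w * h) * (winY h (fun j i => (P.get j).getD i 0) i).eval v| ≤
      ((1 + h * A * h ^ h : ℕ) : ℤ) * (|v| + 1) ^ (N * w * h + h) := by
    refine (abs_add_le _ _).trans ?_
    rw [abs_one, abs_mul, abs_pow]
    have h3 : |v| ^ (N * w * h) * |(winY h (fun j i => (P.get j).getD i 0) i).eval v| ≤
        (|v| + 1) ^ (N * w * h) * (((h * A * h ^ h : ℕ) : ℤ) * (|v| + 1) ^ h) :=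
      mul_le_mul (hp _) hsum (abs_nonneg _) (pow_nonneg hv0 _)
    have h4 : (1 : ℤ) ≤ (|v| + 1) ^ (N * w * h + h) := one_le_pow₀ hv
    have h5 : ((1 + h * A * h ^ h : ℕ) : ℤ) * (|v| + 1) ^ (N * w * h + h) =
        (|v| + 1) ^ (N * w * h + h) + (|v| + 1) ^ (N * w * h) * (((h * A * h ^ h : ℕ) : ℤ) * (|v| + 1) ^ h) := by
      rw [pow_add]
      push_cast
      ring
    rw [h5]
    omega
  calc |v| ^ (N * w * h * (N * w)) * |1 + v ^ (N * w * h) * (winY h (fun j i => (P.get j).getD i 0) i).eval v|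
      ≤ (|v| + 1) ^ (N * w * h * (N * w)) * (((1 + h * A * h ^ h : ℕ) : ℤ) * (|v| + 1) ^ (N * w * h + h)) :=
        mul_le_mul (hp _) h2 (abs_nonneg _) (pow_nonneg hv0 _)
    _ = _ := by
        rw [pow_add (|v| + 1) (N * w * h * (N * w))]
        ring

end Pool.Agent.KNO.Win
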