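import Pool.Agent.KNO.WinDefs

/-! KNO-Win: the lowest homogeneous component. -/

set_option autoImplicit false

namespace Pool.Agent.KNO.Win

open MvPolynomial

/-- lowest coefficients of a singular polynomial matrix -/
theorem det_low {a : ℕ} (P : Matrix (Fin a) (Fin a) (Polynomial ℂ)) (k : ℕ)
    (hk : ∀ i j, ∀ m < k, (P i j).coeff m = 0) (h : P.det = 0) :
    (Matrix.of fun i j => (P i j).coeff k).det = 0 := by
  have hB : ∀ i j, ∃ B : Polynomial ℂ, P i j = Polynomial.X ^ k * B := fun i j =>
    Polynomial.X_pow_dvd_iff.2 (hk i j)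
  choose B hB using hB
  have h1 : P = (Polynomial.X ^ k : Polynomial ℂ) • (Matrix.of B) := by
    ext1 i j
    rw [Matrix.smul_apply, Matrix.of_apply, smul_eq_mul, hB]
  rw [h1, Matrix.det_smul] at h
  have h2 : (Matrix.of B).det = 0 := by
    rcases mul_eq_zero.1 h with h' | h'
    · exact absurd h' (pow_ne_zero _ (pow_ne_zero _ Polynomial.X_ne_zero))
    · exact h'
  have h3 := congrArg (Polynomial.evalRingHom (0 : ℂ)) h2
  rw [map_zero, RingHom.map_det] at h3
  rw [← h3]
  congr 1
  ext i j
  rw [Matrix.of_apply, RingHom.mapMatrix_apply, Matrix.map_apply, Matrix.of_apply, hB,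
    Polynomial.coe_evalRingHom, ← Polynomial.coeff_zero_eq_eval_zero]
  have := Polynomial.coeff_X_pow_mul (B i j) k 0
  rwa [zero_add] at this

/-- the polynomial `f (t x)` of `t` -/
noncomputable def scal {N : ℕ} (x : Fin N → ℂ) (f : MvPolynomial (Fin N) ℂ) : Polynomial ℂ :=
  aeval (fun k => Polynomial.C (x k) * Polynomial.X) f

theorem scal_eval {N : ℕ} (x : Fin N → ℂ) (f : MvPolynomial (Fin N) ℂ) (t : ℂ) :
    (scal x f).eval t = eval (fun k => t * x k) f := by
  have h : (Polynomial.aeval t : Polynomial ℂ →ₐ[ℂ] ℂ).comp (aeval (fun k => Polynomial.C (x k) * Polynomial.X)) =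
      (aeval (fun k => t * x k) : MvPolynomial (Fin N) ℂ →ₐ[ℂ] ℂ) := by
    ext k
    rw [AlgHom.comp_apply, aeval_X, aeval_X, Polynomial.coe_aeval_eq_eval, Polynomial.eval_mul, Polynomial.eval_C,
      Polynomial.eval_X, mul_comm]
  have h2 := DFunLike.congr_fun h f
  rw [AlgHom.comp_apply, Polynomial.coe_aeval_eq_eval] at h2
  rw [scal, h2]
  rfl

theorem scal_monomial {N : ℕ} (x : Fin N → ℂ) (d : Fin N →₀ ℕ) (c : ℂ) :
    scal x (monomial d c) = Polynomial.C (eval x (monomial d c)) * Polynomial.X ^ d.degree := by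
  rw [scal, aeval_monomial, eval_monomial, Polynomial.C_mul]
  have h1 : (d.prod fun i k => (Polynomial.C (x i) * Polynomial.X) ^ k) =
      Polynomial.C (d.prod fun i k => x i ^ k) * Polynomial.X ^ d.degree := by
    rw [Finsupp.prod, Finsupp.prod, map_prod, Finsupp.degree_apply, ← Finset.prod_pow_eq_pow_sum, ← Finset.prod_mul_distrib]
    exact Finset.prod_congr rfl fun i _ => by rw [mul_pow, Polynomial.C_pow]
  rw [h1, ← mul_assoc]
  rfl

theorem scal_coeff {N : ℕ} (x : Fin N → ℂ) (f : MvPolynomial (Fin N) ℂ) (m : ℕ) :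
    (scal x f).coeff m = eval x (homogeneousComponent m f) := by
  induction f using MvPolynomial.induction_on' with
  | monomial d c =>
    rw [scal_monomial, Polynomial.coeff_C_mul_X_pow]
    have hm : monomial d c ∈ homogeneousSubmodule (Fin N) ℂ d.degree := by
      rw [mem_homogeneousSubmodule]
      exact isHomogeneous_monomial c rfl
    rw [homogeneousComponent_of_mem hm]
    by_cases h : m = d.degree
    · rw [if_pos h, if_pos h]
    · rw [if_neg h, if_neg h, map_zero]
  | add p q hp hq =>
    rw [scal, map_add, Polynomial.coeff_add, ← scal, ← scal, hp, hq, map_add, map_add]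

/-- the lowest homogeneous component of a polynomial with small cut ranks has small cut ranks -/
theorem CutLe.low {N w p : ℕ} {f : MvPolynomial (Fin N) ℂ} (hf : CutLe w p f) {k : ℕ}
    (hk : ∀ m < k, homogeneousComponent m f = 0) : CutLe w p (homogeneousComponent k f) := by
  intro X Y
  have h1 : (Matrix.of fun i j => scal (glue p (X i) (Y j)) f).det = 0 := by
    apply Polynomial.funext
    intro t
    have h2 := RingHom.map_det (Polynomial.evalRingHom t) (Matrix.of fun i j => scal (glue p (X i) (Y j)) f)
    rw [Polynomial.coe_evalRingHom] at h2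
    rw [h2, Polynomial.eval_zero, ← hf (fun i k => t * X i k) (fun j k => t * Y j k)]
    congr 1
    ext i j
    rw [RingHom.mapMatrix_apply, Matrix.map_apply, Matrix.of_apply, Matrix.of_apply, Polynomial.coe_evalRingHom,
      scal_eval]
    congr 2
    funext l
    simp only [glue]
    split_ifs <;> rfl
  have h3 := det_low _ k (fun i j m hm => by
    rw [Matrix.of_apply, scal_coeff, hk m hm, map_zero]) h1
  rw [← h3]
  congr 1
  ext i j
  rw [Matrix.of_apply, Matrix.of_apply, Matrix.of_apply, scal_coeff]

/-- there is a lowest non-zero homogeneous component -/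
theorem exists_low {N : ℕ} {f : MvPolynomial (Fin N) ℂ} (hf : f ≠ 0) : ∃ k, homogeneousComponent k f ≠ 0 ∧
    ∀ m < k, homogeneousComponent m f = 0 := by
  classical
  have h : ∃ k, homogeneousComponent k f ≠ 0 := by
    by_contra h
    push_neg at h
    apply hf
    rw [← sum_homogeneousComponent f]
    exact Finset.sum_eq_zero fun i _ => h i
  exact ⟨Nat.find h, Nat.find_spec h, fun m hm => by
    have := Nat.find_min h hm
    rwa [not_not] at this⟩

end Pool.Agent.KNO.Win
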